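import Pool.Agent.H86.CM5.GenAll

/-!
# De Rham-Betti classes on abelian varieties of CM type of small dimension
-/

set_option autoImplicit false
set_option linter.unusedSectionVars false
set_option linter.unusedVariables false

namespace Pool.Agent.H86.CM5

open NumberField Pool.Agent.H204R3.CM Pool.Agent.W547.KB Pool.Agent.W537.PC Equiv Module

noncomputable section

variable {L : Type} [Field L] [NumberField L] [IsCMField L] [IsGalois ℚ L] (j : L →+* ℂ)

/-- The sign of a weight. -/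
def sg (X : CMAV) (w : Wt X L) (σ : L ≃ₐ[ℚ] L) : ℤ := (⟨X.factor w.1, w.2⟩ : Letter L).s j σ

/-- The action on the weights. -/
def ac (X : CMAV) (τ : L ≃ₐ[ℚ] L) (w : Wt X L) : Wt X L := ⟨w.1, τ • w.2⟩

theorem lett (X : CMAV) : Lett (cc L) (ac X) (ac X (cc L)) (sg j X) where
  one w := by
    unfold ac
    rw [one_smul]
  mul u v w := by
    unfold ac
    rw [mul_smul]
  comm u w := by
    unfold ac
    simp only
    rw [← mul_smul, ← mul_smul, cc_comm j]
  inv w := by
    unfold ac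
    simp only
    rw [← mul_smul, cc_cc, one_smul]
  sign w g := Letter.s_cases j _ g
  sact w u g := (Letter.s_act j u g _).symm
  scj w g := by
    refine (Letter.s_act j (cc L) g ⟨X.factor w.1, w.2⟩).trans ?_
    rw [← cc_comm j, Letter.s_cc]
    rfl
  odd w g := Letter.s_cc j g _

theorem card_wt (X : CMAV)
    (hj : ∀ i, ∀ ψ : (X.factor i).E →+* ℂ, ∃ φ : (X.factor i).E →+* L, j.comp φ = ψ) :
    Fintype.card (Wt X L) = ∑ i, finrank ℚ (X.factor i).E := by
  classical
  have h1 : Fintype.card (Wt X L) = Fintype.card (Wt X ℂ) :=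
    Fintype.card_congr (xEquiv (E := fun i : X.I => (X.factor i).E) (fun i : X.I => i) j hj)
  rw [h1]
  unfold Wt
  rw [Fintype.card_sigma]
  refine Finset.sum_congr rfl fun i _ => ?_
  exact Embeddings.card _ ℂ

variable (P : PeriodSystem)

theorem hodge_of_empty {X : CMAV} {k : ℕ} (f : X.H1 [⋀^Fin (2 * k)]→ₗ[ℚ] ℚ)
    (h : IsEmpty (Fin (2 * k)) ∨ IsEmpty X.I) : IsHodge X.per f := by
  rcases isEmpty_or_nonempty (Fin (2 * k)) with hκ | ⟨⟨k0⟩⟩
  · exact hodge_unit f
  · have hI := h.resolve_left (fun h => h.false k0)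
    have h1 : f = 0 := by
      ext v
      have h2 : v k0 = 0 := by
        funext i
        exact (hI.false i).elim
      rw [f.map_coord_zero k0 h2]
      rfl
    rw [h1]
    exact hodge_zero X _

/-- **Dimension at most five.** -/
theorem hodge_of_drb_five (hB : P.Bost) (hD : P.Deligne) (X : CMAV)
    (hX : ∑ i, finrank ℚ (X.factor i).E ≤ 10) (k : ℕ) (f : X.H1 [⋀^Fin (2 * k)]→ₗ[ℚ] ℚ)
    (hf : P.IsDRB X k f) : IsHodge X.per f := by
  rcases isEmpty_or_nonempty (Fin (2 * k)) with hκ | hκ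
  · exact hodge_unit f
  rcases isEmpty_or_nonempty X.I with hI | hI
  · exact hodge_of_empty f (Or.inr hI)
  obtain ⟨L, _, _, _, _, j, hj, hgen⟩ := exists_cm' X
  refine hodge_of_drb_gen j P hB hD X hj k f (fun I hI hne => ?_) hf
  have h1 := (hI 1).injective
  have hinj : Function.Injective I := by
    intro a b hab
    apply h1
    change (⟨(I a).1, j.comp ((1 : L ≃ₐ[ℚ] L) • (I a).2)⟩ : Wt X ℂ) =
      ⟨(I b).1, j.comp ((1 : L ≃ₐ[ℚ] L) • (I b).2)⟩
    rw [hab]
  exact (lett j X).small (by rw [card_wt j X hj]; exact hX) I hinj hne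

/-- **Products of powers, dimension at most three.** -/
theorem hodge_of_drb_three (hB : P.Bost) (hD : P.Deligne) {ι : Type} [Fintype ι]
    (A : ι → CMPair) (hA : ∑ i, finrank ℚ (A i).E ≤ 6) {J : Type} [Fintype J] (t : J → ι) (k : ℕ)
    (f : (⟨J, fun l => A (t l)⟩ : CMAV).H1 [⋀^Fin (2 * k)]→ₗ[ℚ] ℚ)
    (hf : P.IsDRB (⟨J, fun l => A (t l)⟩ : CMAV) k f) :
    IsHodge (⟨J, fun l => A (t l)⟩ : CMAV).per f := by
  rcases isEmpty_or_nonempty (Fin (2 * k)) with hκ | hκ
  · exact hodge_unit f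
  rcases isEmpty_or_nonempty J with hJ | ⟨⟨l0⟩⟩
  · exact hodge_of_empty f (Or.inr hJ)
  have : Nonempty (⟨ι, A⟩ : CMAV).I := ⟨t l0⟩
  obtain ⟨L, _, _, _, _, j, hj, hgen⟩ := exists_cm' (⟨ι, A⟩ : CMAV)
  refine hodge_of_drb_gen j P hB hD _ (fun l => hj (t l)) k f (fun I hI hne => ?_) hf
  exact (lett j (⟨ι, A⟩ : CMAV)).small_few (by rw [card_wt j _ hj]; exact hA)
    (fun l => (⟨t (I l).1, (I l).2⟩ : Wt (⟨ι, A⟩ : CMAV) L)) hne

end

end Pool.Agent.H86.CM5
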