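import Pool.Agent.H86.CMLib.W537.PC.Gen

/-!
# Combinations of right translates of sums of signs
-/

set_option autoImplicit false
set_option linter.unusedSectionVars false

namespace Pool.Agent.H86.CM5

open Pool.Agent.W537.PC

section W

variable {G : Type} [Group G] [Fintype G]

/-- `f` is an integral combination of the right translates of `B`. -/
def InW (B f : G → ℤ) : Prop := ∃ n : G → ℤ, ∀ g, f g = ∑ u, n u * B (g * u)

theorem InW.self (B : G → ℤ) (v : G) : InW B (fun g => B (g * v)) := by
  classical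
  refine ⟨fun u => if u = v then 1 else 0, fun g => ?_⟩
  simp

theorem InW.one (B : G → ℤ) : InW B B := by
  have h := InW.self B 1
  simpa using h

theorem InW.add {B f f' : G → ℤ} (h : InW B f) (h' : InW B f') :
    InW B (fun g => f g + f' g) := by
  obtain ⟨n, hn⟩ := h
  obtain ⟨n', hn'⟩ := h'
  refine ⟨fun u => n u + n' u, fun g => ?_⟩
  simp only [hn, hn', add_mul, Finset.sum_add_distrib]

theorem InW.smul {B f : G → ℤ} (a : ℤ) (h : InW B f) : InW B (fun g => a * f g) := by
  obtain ⟨n, hn⟩ := h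
  refine ⟨fun u => a * n u, fun g => ?_⟩
  simp only [hn, Finset.mul_sum, mul_assoc]

theorem InW.neg {B f : G → ℤ} (h : InW B f) : InW B (fun g => - f g) := by
  have := h.smul (-1)
  simpa using this

theorem InW.sub {B f f' : G → ℤ} (h : InW B f) (h' : InW B f') :
    InW B (fun g => f g - f' g) := by
  have := h.add h'.neg
  simpa [sub_eq_add_neg] using this

theorem InW.congr {B f f' : G → ℤ} (h : InW B f) (e : ∀ g, f' g = f g) : InW B f' := by
  obtain ⟨n, hn⟩ := h
  exact ⟨n, fun g => (e g).trans (hn g)⟩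

theorem InW.translate {B f : G → ℤ} (h : InW B f) (v : G) : InW B (fun g => f (g * v)) := by
  obtain ⟨n, hn⟩ := h
  refine ⟨fun u => n (v⁻¹ * u), fun g => ?_⟩
  change f (g * v) = _
  rw [hn]
  refine Fintype.sum_equiv (Equiv.mulLeft v) _ _ fun u => ?_
  simp [mul_assoc]

theorem InW.odd {c : G} {B f : G → ℤ} (hodd : ∀ g, B (c * g) = - B g) (h : InW B f) (g : G) :
    f (c * g) = - f g := by
  obtain ⟨n, hn⟩ := h
  rw [hn, hn, ← Finset.sum_neg_distrib]
  refine Finset.sum_congr rfl fun u _ => ?_
  rw [mul_assoc, hodd]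
  ring

/-- A nonzero combination of translates with the values `0`, `N`, `-N` only. -/
theorem small_of_inW {c : G} {B f : G → ℤ} (hodd : ∀ g, B (c * g) = - B g) (h : InW B f)
    (hf : ∃ g, f g ≠ 0) (N : ℕ) (hval : ∀ g, f g = 0 ∨ f g = N ∨ f g = -N) : Small c B := by
  have hN : 0 < N := by
    rcases Nat.eq_zero_or_pos N with h0 | h0
    · exfalso
      obtain ⟨g, hg⟩ := hf
      have := hval g
      subst h0
      simp at this
      exact hg this
    · exact h0
  have ho := h.odd hodd
  obtain ⟨n, hn⟩ := h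
  have hN' : (N : ℤ) ≠ 0 := by exact_mod_cast hN.ne'
  have hdiv : ∀ g, f g = N * (f g / N) := by
    intro g
    rcases hval g with h1 | h1 | h1
    · rw [h1]; simp
    · rw [h1, Int.ediv_self hN']; simp
    · rw [h1, Int.neg_ediv_of_dvd (dvd_refl _), Int.ediv_self hN']; simp
  refine ⟨n, N, fun g => f g / N, hN, ?_, ?_, ?_, ?_⟩
  · obtain ⟨g, hg⟩ := hf
    intro h0
    apply hg
    have h1 := congrFun h0 g
    simp only [Pi.zero_apply] at h1
    rw [hdiv g, h1, mul_zero]
  · intro g
    rcases hval g with h1 | h1 | h1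
    · left
      simp only [h1, Int.zero_ediv]
    · right; left
      simp only [h1, Int.ediv_self hN']
    · right; right
      simp only [h1, Int.neg_ediv_of_dvd (dvd_refl _), Int.ediv_self hN']
  · intro g
    have h1 := hdiv (c * g)
    have h2 := hdiv g
    have h3 := ho g
    have h4 : (N : ℤ) * (f (c * g) / N) = N * (-(f g / N)) := by
      rw [← h1, h3, mul_neg, ← h2]
    exact mul_left_cancel₀ hN' h4
  · intro g
    rw [← hn g]
    exact hdiv g

end W

section Sys

variable {G : Type} [Group G] [Fintype G] {ι : Type} [Fintype ι] [DecidableEq ι]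

/-- A system of signs `f i`, which are permuted up to signs by the right translations. -/
structure Sys (c : G) (f : ι → G → ℤ) (π : G → Equiv.Perm ι) (δ : G → ι → ℤ) : Prop where
  sign : ∀ i g, f i g = 1 ∨ f i g = -1
  dsign : ∀ u i, δ u i = 1 ∨ δ u i = -1
  act : ∀ u i g, f i (g * u) = δ u i * f (π u i) g
  mul : ∀ u v i, π (u * v) i = π u (π v i)
  dmul : ∀ u v i, δ (u * v) i = δ v i * δ u (π v i)
  one : ∀ i, π 1 i = i
  done : ∀ i, δ 1 i = 1
  odd : ∀ i g, f i (c * g) = - f i g

variable {c : G} {f : ι → G → ℤ} {π : G → Equiv.Perm ι} {δ : G → ι → ℤ}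

/-- The vector of the coefficients of the translate of `∑ i, b i * f i` by `u`. -/
def vec (π : G → Equiv.Perm ι) (δ : G → ι → ℤ) (b : ι → ℤ) (u : G) (j : ι) : ℤ :=
  b ((π u).symm j) * δ u ((π u).symm j)

theorem vec_act (b : ι → ℤ) (u : G) (i : ι) : vec π δ b u (π u i) = b i * δ u i := by
  unfold vec
  rw [Equiv.symm_apply_apply]

namespace Sys

variable (S : Sys c f π δ)
include S

theorem vec_one (b : ι → ℤ) (j : ι) : vec π δ b 1 j = b j := by
  have h := vec_act (π := π) (δ := δ) b 1 j
  rwa [S.one, S.done, mul_one] at h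

theorem vec_mul (b : ι → ℤ) (g u : G) (j : ι) :
    vec π δ b (g * u) (π g j) = δ g j * vec π δ b u j := by
  obtain ⟨i, rfl⟩ := (π u).surjective j
  rw [← S.mul, vec_act, vec_act, S.dmul]
  ring

theorem translate (b : ι → ℤ) (u g : G) :
    ∑ i, b i * f i (g * u) = ∑ j, vec π δ b u j * f j g := by
  refine Eq.trans (Finset.sum_congr rfl fun i _ => ?_)
    (Equiv.sum_comp (π u) (fun j => vec π δ b u j * f j g))
  rw [S.act, vec_act]
  ring

theorem inW_vec (b : ι → ℤ) (u : G) :
    InW (fun g => ∑ i, b i * f i g) (fun g => ∑ j, vec π δ b u j * f j g) :=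
  (InW.self _ u).congr fun g => (S.translate b u g).symm

theorem odd' (b : ι → ℤ) (g : G) :
    ∑ i, b i * f i (c * g) = - ∑ i, b i * f i g := by
  rw [← Finset.sum_neg_distrib]
  refine Finset.sum_congr rfl fun i _ => ?_
  rw [S.odd]
  ring

theorem f_ne (i : ι) (g : G) : f i g ≠ 0 := by
  rcases S.sign i g with h | h <;> rw [h] <;> norm_num

end Sys

/-- If there is no small combination, then combinations with the values `0`, `N`, `-N` vanish. -/
theorem kill {c : G} {B : G → ℤ} (hodd : ∀ g, B (c * g) = - B g) (hns : ¬ Small c B)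
    {F : G → ℤ} (h : InW B F) (N : ℕ) (hval : ∀ g, F g = 0 ∨ F g = N ∨ F g = -N) (g : G) :
    F g = 0 := by
  by_contra h0
  exact hns (small_of_inW hodd h ⟨g, h0⟩ N hval)

/-- If all translates of `F` are `F` or `-F`, then `F` vanishes. -/
theorem kill_const {c : G} {B : G → ℤ} (hodd : ∀ g, B (c * g) = - B g) (hns : ¬ Small c B)
    {F : G → ℤ} (h : InW B F) (hF : ∀ u, (∀ g, F (g * u) = F g) ∨ (∀ g, F (g * u) = - F g))
    (g : G) : F g = 0 := by
  refine kill hodd hns h (F 1).natAbs (fun g => ?_) g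
  right
  have h1 : F g = F 1 ∨ F g = - F 1 := by
    rcases hF g with h2 | h2
    · left
      have := h2 1
      rwa [one_mul] at this
    · right
      have := h2 1
      rwa [one_mul] at this
  rcases h1 with h1 | h1 <;> rw [h1] <;> omega

end Sys

end Pool.Agent.H86.CM5
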