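import Pool.Agent.H86.CM5.Three3

/-!
# At most three pairs of letters, with arbitrary multiplicities: conclusion
-/

set_option autoImplicit false
set_option linter.unusedSectionVars false

namespace Pool.Agent.H86.CM5

open Pool.Agent.W537.PC

section Two2

variable {G : Type} [Group G] [Fintype G] {c : G}

theorem small_of_sys1 {f : Fin 1 → G → ℤ} {π : G → Equiv.Perm (Fin 1)} {δ : G → Fin 1 → ℤ}
    (S : Sys c f π δ) (b : Fin 1 → ℤ) (hne : ∃ g, lin f b g ≠ 0) : Small c (lin f b) := by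
  refine small_of_inW (S.lin_odd b) (InW.one _) hne (b 0).natAbs fun g => ?_
  have h : lin f b g = b 0 * f 0 g := by
    unfold lin
    rw [Fin.sum_univ_one]
  rw [h]
  exact val_mul (S.sign 0 g)

theorem small_of_sys2 {f : Fin 2 → G → ℤ} {π : G → Equiv.Perm (Fin 2)} {δ : G → Fin 2 → ℤ}
    (S : Sys c f π δ) (b : Fin 2 → ℤ) (hne : ∃ g, lin f b g ≠ 0) : Small c (lin f b) := by
  classical
  by_contra hns
  have hodd := S.lin_odd b
  have ib : InW (lin f b) (lin f b) := InW.one _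
  have lin2 : ∀ (x : Fin 2 → ℤ) g, lin f x g = x 0 * f 0 g + x 1 * f 1 g := by
    intro x g
    unfold lin
    rw [Fin.sum_univ_two]
  obtain ⟨g0, hg0⟩ := hne
  apply hg0
  refine kill_const hodd hns ib (fun u => ?_) g0
  obtain ⟨w, hw⟩ : ∃ w, w = vec π δ b u := ⟨_, rfl⟩
  have iw : InW (lin f b) (lin f w) := by rw [hw]; exact S.lin_mem b u
  have hdet : b 0 * w 1 - b 1 * w 0 = 0 := by
    have h1 : InW (lin f b) (fun g => (b 0 * w 1 - b 1 * w 0) * f 0 g) :=
      ((ib.smul (w 1)).sub (iw.smul (b 1))).congr fun g => by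
        rw [lin2, lin2]
        ring
    have h2 := kill hodd hns h1 _ (fun g => val_mul (S.sign 0 g)) 1
    exact (mul_eq_zero.1 h2).resolve_right (S.f_ne 0 1)
  have hn : w 0 ^ 2 + w 1 ^ 2 = b 0 ^ 2 + b 1 ^ 2 := by
    have h1 := S.vec_norm b u
    rw [Fin.sum_univ_two, Fin.sum_univ_two, ← hw] at h1
    exact h1
  have key : (b 0 * w 0 + b 1 * w 1) * (b 0 * w 0 + b 1 * w 1) =
      (b 0 ^ 2 + b 1 ^ 2) * (b 0 ^ 2 + b 1 ^ 2) := by
    linear_combination (-(b 0 * w 1 - b 1 * w 0)) * hdet + (b 0 ^ 2 + b 1 ^ 2) * hn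
  have fin : ∀ ε : ℤ, (ε = 1 ∨ ε = -1) → b 0 * w 0 + b 1 * w 1 = ε * (b 0 ^ 2 + b 1 ^ 2) →
      w 0 = ε * b 0 ∧ w 1 = ε * b 1 := by
    intro ε hε h
    have hεε : ε * ε = 1 := by rcases hε with h | h <;> rw [h] <;> norm_num
    have h1 : (w 0 - ε * b 0) ^ 2 + (w 1 - ε * b 1) ^ 2 = 0 := by
      linear_combination hn - 2 * ε * h + (b 0 ^ 2 + b 1 ^ 2) * (-1) * hεε
    have h2 := sq_nonneg (w 0 - ε * b 0)
    have h3 := sq_nonneg (w 1 - ε * b 1)
    have h4 : (w 0 - ε * b 0) ^ 2 = 0 := by linarith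
    have h5 : (w 1 - ε * b 1) ^ 2 = 0 := by linarith
    have h6 := pow_eq_zero_iff (two_ne_zero) |>.1 h4
    have h7 := pow_eq_zero_iff (two_ne_zero) |>.1 h5
    exact ⟨by linarith, by linarith⟩
  rcases mul_self_eq_mul_self_iff.1 key with h | h
  · obtain ⟨h1, h2⟩ := fin 1 (Or.inl rfl) (by rw [h]; ring)
    left
    intro g
    rw [S.lin_translate, ← hw, lin2, lin2, h1, h2]
    ring
  · obtain ⟨h1, h2⟩ := fin (-1) (Or.inr rfl) (by rw [h]; ring)
    right
    intro g
    rw [S.lin_translate, ← hw, lin2, lin2, h1, h2]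
    ring

theorem small_of_sys_le {d : ℕ} (hd : d ≤ 3) {f : Fin d → G → ℤ} {π : G → Equiv.Perm (Fin d)}
    {δ : G → Fin d → ℤ} (S : Sys c f π δ) (b : Fin d → ℤ) (hne : ∃ g, lin f b g ≠ 0) :
    Small c (lin f b) := by
  obtain h | h | h | h : d = 0 ∨ d = 1 ∨ d = 2 ∨ d = 3 := by omega
  · subst h
    obtain ⟨g, hg⟩ := hne
    exact absurd (by unfold lin; simp) hg
  · subst h
    exact small_of_sys1 S b hne
  · subst h
    exact small_of_sys2 S b hne
  · subst h
    exact small_of_sys3 S b hne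

end Two2

section Few

variable {G W : Type} [Group G] [Fintype G] {c : G} {act : G → W → W} {cj : W → W}
  {s : W → G → ℤ}

/-- At most three pairs of letters: all sums of letters have small combinations. -/
theorem Lett.small_few [Fintype W] (H : Lett c act cj s) (hW : Fintype.card W ≤ 6) {m : ℕ}
    (I : Fin m → W) (hne : (fun g => ∑ l, s (I l) g) ≠ 0) :
    Small c (fun g => ∑ l, s (I l) g) := by
  classical
  set T : Finset W := Finset.univ.filter (fun w => s w 1 = 1) with hT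
  have hmem : ∀ w, w ∈ T ↔ s w 1 = 1 := fun w => by simp [hT]
  have hTT : ∀ w ∈ T, cj w ∉ T := by
    intro w hw hw'
    rw [hmem] at hw hw'
    rw [H.scj, hw] at hw'
    norm_num at hw'
  have hcard := H.card_le T hTT
  obtain ⟨d, hd⟩ : ∃ d, T.card = d := ⟨_, rfl⟩
  have hd3 : d ≤ 3 := by omega
  let eT := (T.equivFinOfCardEq hd).symm
  let a : Fin d → W := fun i => (eT i : W)
  have ainj : Function.Injective a := fun i k h => eT.injective (Subtype.ext h)
  have amem : ∀ i, a i ∈ T := fun i => (eT i).2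
  have asurj : ∀ w ∈ T, ∃ i, w = a i := fun w hw => ⟨eT.symm ⟨w, hw⟩, by
    simp only [a, Equiv.apply_symm_apply]⟩
  have hsec : Sec cj a := by
    refine ⟨ainj, fun i k h => hTT (a k) (amem k) (by rw [← h]; exact amem i), fun w => ?_⟩
    rcases H.sign w 1 with h | h
    · obtain ⟨i, hi⟩ := asurj w ((hmem w).2 h)
      exact ⟨i, Or.inl hi⟩
    · obtain ⟨i, hi⟩ := asurj (cj w) ((hmem (cj w)).2 (by rw [H.scj, h]; norm_num))
      exact ⟨i, Or.inr (by rw [← hi, H.inv])⟩
  obtain ⟨π, δ, S⟩ := exists_sys H hsec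
  have hβ : ∀ w, ∃ β : Fin d → ℤ, ∀ g, s w g = lin (fun i => s (a i)) β g := by
    intro w
    obtain ⟨i, hi⟩ := hsec.surj w
    have h1 : ∀ (ε : ℤ) g, lin (fun i => s (a i)) (fun k => if k = i then ε else 0) g =
        ε * s (a i) g := by
      intro ε g
      unfold lin
      simp
    rcases hi with rfl | rfl
    · exact ⟨_, fun g => by rw [h1 1 g, one_mul]⟩
    · exact ⟨_, fun g => by rw [h1 (-1) g, H.scj, neg_one_mul]⟩
  choose β hβ using hβ
  have hB : (fun g => ∑ l, s (I l) g) = lin (fun i => s (a i)) (fun i => ∑ l, β (I l) i) := by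
    funext g
    have h1 : ∀ l, s (I l) g = ∑ i, β (I l) i * s (a i) g := fun l => hβ (I l) g
    rw [Finset.sum_congr rfl fun l _ => h1 l, Finset.sum_comm]
    unfold lin
    exact Finset.sum_congr rfl fun i _ => by rw [Finset.sum_mul]
  rw [hB] at hne ⊢
  refine small_of_sys_le hd3 S _ ?_
  by_contra h
  push Not at h
  exact hne (funext h)

end Few

end Pool.Agent.H86.CM5
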