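import Pool.Agent.H86.CM5.FiveOrb

/-!
# Five pairs: conclusion
-/

set_option autoImplicit false
set_option linter.unusedSectionVars false

namespace Pool.Agent.H86.CM5

open Pool.Agent.W537.PC

theorem Labels.of {i j k a : Fin 5} (i4 : i ≠ 4) (j4 : j ≠ 4) (k4 : k ≠ 4) (a4 : a ≠ 4)
    (ij : i ≠ j) (ik : i ≠ k) (ia : i ≠ a) (jk : j ≠ k) (ja : j ≠ a) (ka : k ≠ a) :
    Labels i j k a := by
  have hu : (Finset.univ : Finset (Fin 5)) = {i, j, k, a, 4} := by
    refine (Finset.eq_univ_of_card _ ?_).symm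
    rw [Finset.card_insert_of_notMem, Finset.card_insert_of_notMem, Finset.card_insert_of_notMem,
      Finset.card_insert_of_notMem, Finset.card_singleton]
    · rfl
    · simp [a4]
    · simp [k4, ka]
    · simp [j4, jk, ja]
    · simp [i4, ij, ik, ia]
  refine ⟨fun F => ?_, fun x => ?_, i4, j4, k4, a4, ia, ja, ka, ij, ik, jk⟩
  · rw [hu, Finset.sum_insert, Finset.sum_insert, Finset.sum_insert, Finset.sum_insert,
      Finset.sum_singleton]
    · ring
    · simp [a4]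
    · simp [k4, ka]
    · simp [j4, jk, ja]
    · simp [i4, ij, ik, ia]
  · have hx : x ∈ (Finset.univ : Finset (Fin 5)) := Finset.mem_univ x
    rw [hu] at hx
    simpa using hx

theorem perm5 : ∀ σ : Equiv.Perm (Fin 5), σ ^ 5 = 1 → σ ≠ 1 →
    σ 4 ≠ 4 ∧ σ (σ 4) ≠ 4 ∧ σ (σ (σ 4)) ≠ 4 ∧ σ (σ (σ (σ 4))) ≠ 4 ∧
      σ (σ (σ (σ (σ 4)))) = 4 := by
  decide +kernel

section Final5

variable {G : Type} [Group G] [Fintype G] {c : G} {f : Fin 5 → G → ℤ}
  {π : G → Equiv.Perm (Fin 5)} {δ : G → Fin 5 → ℤ}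

namespace Bad

variable (S : Bad c f π δ)
include S

theorem five (hU : ∀ x, ∃ u, π u 4 = x) : False := by
  classical
  let ρ : G →* Equiv.Perm (Fin 5) :=
    { toFun := π
      map_one' := Equiv.ext fun i => by rw [S.one]; rfl
      map_mul' := fun u v => Equiv.ext fun i => by rw [S.mul]; rfl }
  have h1 := MulAction.card_orbit_mul_card_stabilizer_eq_card_group ρ.range (4 : Fin 5)
  have h2 : MulAction.orbit ρ.range (4 : Fin 5) = Set.univ := by
    rw [Set.eq_univ_iff_forall]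
    intro x
    obtain ⟨u, hu⟩ := hU x
    exact ⟨⟨ρ u, u, rfl⟩, hu⟩
  have h3 : Fintype.card (MulAction.orbit ρ.range (4 : Fin 5)) = 5 := by
    have : Fintype.card (MulAction.orbit ρ.range (4 : Fin 5)) = Fintype.card (Fin 5) := by
      refine Fintype.card_congr ((Equiv.setCongr h2).trans (Equiv.Set.univ _))
    rw [this, Fintype.card_fin]
  rw [h3] at h1
  have h5 : (5 : ℕ) ∣ Fintype.card ρ.range := ⟨_, h1.symm⟩
  have : Fact (Nat.Prime 5) := ⟨by norm_num⟩
  obtain ⟨⟨σ, v, hv⟩, hσ⟩ := exists_prime_orderOf_dvd_card 5 h5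
  have hσ' : orderOf σ = 5 := (Subgroup.orderOf_coe (⟨σ, v, hv⟩ : ρ.range)).trans hσ
  have e1 : σ ^ 5 = 1 := orderOf_dvd_iff_pow_eq_one.1 hσ'.dvd
  have e2 : σ ≠ 1 := by
    rintro rfl
    rw [orderOf_one] at hσ'
    omega
  obtain ⟨n1, n2, n3, n4, n5⟩ := perm5 σ e1 e2
  have hπ : π v = σ := hv
  have inj : ∀ {x y}, σ x = σ y → x = y := fun h => σ.injective h
  refine S.five_cycle (a1 := σ 4) (a2 := σ (σ 4)) (a3 := σ (σ (σ 4))) (a4 := σ (σ (σ (σ 4))))
    (Labels.of n1 n2 n3 n4 ?_ ?_ ?_ ?_ ?_ ?_) v ?_ ?_ ?_ ?_ ?_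
  · exact fun h => n1 (inj h).symm
  · exact fun h => n2 (inj h).symm
  · exact fun h => n3 (inj h).symm
  · exact fun h => n1 (inj (inj h)).symm
  · exact fun h => n2 (inj (inj h)).symm
  · exact fun h => n1 (inj (inj (inj h))).symm
  · rw [hπ]
  · rw [hπ]
  · rw [hπ]
  · rw [hπ]
  · rw [hπ, n5]

/-- There is no bad system. -/
theorem false : False := by
  classical
  have P4 : ∃ u, π u 4 = 4 := ⟨1, S.one 4⟩
  have fixt : ∀ t, ¬ (∃ u, π u 4 = t) → (∀ x, x ≠ t → ∃ u, π u 4 = x) → ∀ v, π v t = t := by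
    intro t ht hx v
    by_contra h
    obtain ⟨u, hu⟩ := hx _ h
    apply ht
    refine ⟨v⁻¹ * u, ?_⟩
    rw [S.mul, hu, ← S.mul, inv_mul_cancel, S.one]
  have orb : ∀ v x, ¬ (∃ u, π u 4 = x) → π v 4 ≠ x := fun v x h h' => h ⟨v, h'⟩
  have L0123 : Labels 0 1 2 3 := by
    refine Labels.of ?_ ?_ ?_ ?_ ?_ ?_ ?_ ?_ ?_ ?_ <;> decide
  by_cases h0 : ∃ u, π u 4 = 0 <;> by_cases h1 : ∃ u, π u 4 = 1 <;>
    by_cases h2 : ∃ u, π u 4 = 2 <;> by_cases h3 : ∃ u, π u 4 = 3
  · -- all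
    exact S.five fun x => by
      rcases L0123.all x with rfl | rfl | rfl | rfl | rfl <;> assumption
  · -- 3 missing
    have hx : ∀ x, x ≠ 3 → ∃ u, π u 4 = x := fun x hx => by
      rcases L0123.all x with rfl | rfl | rfl | rfl | rfl <;> first | assumption | exact absurd rfl hx
    exact S.four_orb (t := 3) (p := 0) (q := 1) (r := 2)
      (by refine Labels.of ?_ ?_ ?_ ?_ ?_ ?_ ?_ ?_ ?_ ?_ <;> decide) (fixt 3 h3 hx) hx
  · -- 2 missing
    have hx : ∀ x, x ≠ 2 → ∃ u, π u 4 = x := fun x hx => by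
      rcases L0123.all x with rfl | rfl | rfl | rfl | rfl <;> first | assumption | exact absurd rfl hx
    exact S.four_orb (t := 2) (p := 0) (q := 1) (r := 3)
      (by refine Labels.of ?_ ?_ ?_ ?_ ?_ ?_ ?_ ?_ ?_ ?_ <;> decide) (fixt 2 h2 hx) hx
  · -- 2, 3 missing
    obtain ⟨u0, hu0⟩ := h0
    obtain ⟨u1, hu1⟩ := h1
    exact S.three (i := 2) (j := 3) (p := 0) (q := 1)
      (by refine Labels.of ?_ ?_ ?_ ?_ ?_ ?_ ?_ ?_ ?_ ?_ <;> decide)
      (fun v => by
        have a2 := orb v 2 h2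
        have a3 := orb v 3 h3
        rcases L0123.all (π v 4) with h | h | h | h | h <;> tauto) hu0 hu1
  · -- 1 missing
    have hx : ∀ x, x ≠ 1 → ∃ u, π u 4 = x := fun x hx => by
      rcases L0123.all x with rfl | rfl | rfl | rfl | rfl <;> first | assumption | exact absurd rfl hx
    exact S.four_orb (t := 1) (p := 0) (q := 2) (r := 3)
      (by refine Labels.of ?_ ?_ ?_ ?_ ?_ ?_ ?_ ?_ ?_ ?_ <;> decide) (fixt 1 h1 hx) hx
  · -- 1, 3 missing
    obtain ⟨u0, hu0⟩ := h0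
    obtain ⟨u1, hu1⟩ := h2
    exact S.three (i := 1) (j := 3) (p := 0) (q := 2)
      (by refine Labels.of ?_ ?_ ?_ ?_ ?_ ?_ ?_ ?_ ?_ ?_ <;> decide)
      (fun v => by
        have a2 := orb v 1 h1
        have a3 := orb v 3 h3
        rcases L0123.all (π v 4) with h | h | h | h | h <;> tauto) hu0 hu1
  · -- 1, 2 missing
    obtain ⟨u0, hu0⟩ := h0
    obtain ⟨u1, hu1⟩ := h3
    exact S.three (i := 1) (j := 2) (p := 0) (q := 3)
      (by refine Labels.of ?_ ?_ ?_ ?_ ?_ ?_ ?_ ?_ ?_ ?_ <;> decide)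
      (fun v => by
        have a2 := orb v 1 h1
        have a3 := orb v 2 h2
        rcases L0123.all (π v 4) with h | h | h | h | h <;> tauto) hu0 hu1
  · -- only 0
    obtain ⟨u0, hu0⟩ := h0
    exact S.two (i := 1) (j := 2) (k := 3) (a := 0)
      (by refine Labels.of ?_ ?_ ?_ ?_ ?_ ?_ ?_ ?_ ?_ ?_ <;> decide) hu0
      (fun v => by
        have a1 := orb v 1 h1
        have a2 := orb v 2 h2
        have a3 := orb v 3 h3
        rcases L0123.all (π v 4) with h | h | h | h | h <;> tauto)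
  · -- 0 missing
    have hx : ∀ x, x ≠ 0 → ∃ u, π u 4 = x := fun x hx => by
      rcases L0123.all x with rfl | rfl | rfl | rfl | rfl <;> first | assumption | exact absurd rfl hx
    exact S.four_orb (t := 0) (p := 1) (q := 2) (r := 3)
      (by refine Labels.of ?_ ?_ ?_ ?_ ?_ ?_ ?_ ?_ ?_ ?_ <;> decide) (fixt 0 h0 hx) hx
  · -- 0, 3 missing
    obtain ⟨u0, hu0⟩ := h1
    obtain ⟨u1, hu1⟩ := h2
    exact S.three (i := 0) (j := 3) (p := 1) (q := 2)
      (by refine Labels.of ?_ ?_ ?_ ?_ ?_ ?_ ?_ ?_ ?_ ?_ <;> decide)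
      (fun v => by
        have a2 := orb v 0 h0
        have a3 := orb v 3 h3
        rcases L0123.all (π v 4) with h | h | h | h | h <;> tauto) hu0 hu1
  · -- 0, 2 missing
    obtain ⟨u0, hu0⟩ := h1
    obtain ⟨u1, hu1⟩ := h3
    exact S.three (i := 0) (j := 2) (p := 1) (q := 3)
      (by refine Labels.of ?_ ?_ ?_ ?_ ?_ ?_ ?_ ?_ ?_ ?_ <;> decide)
      (fun v => by
        have a2 := orb v 0 h0
        have a3 := orb v 2 h2
        rcases L0123.all (π v 4) with h | h | h | h | h <;> tauto) hu0 hu1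
  · -- only 1
    obtain ⟨u0, hu0⟩ := h1
    exact S.two (i := 0) (j := 2) (k := 3) (a := 1)
      (by refine Labels.of ?_ ?_ ?_ ?_ ?_ ?_ ?_ ?_ ?_ ?_ <;> decide) hu0
      (fun v => by
        have a1 := orb v 0 h0
        have a2 := orb v 2 h2
        have a3 := orb v 3 h3
        rcases L0123.all (π v 4) with h | h | h | h | h <;> tauto)
  · -- 0, 1 missing
    obtain ⟨u0, hu0⟩ := h2
    obtain ⟨u1, hu1⟩ := h3
    exact S.three (i := 0) (j := 1) (p := 2) (q := 3)
      (by refine Labels.of ?_ ?_ ?_ ?_ ?_ ?_ ?_ ?_ ?_ ?_ <;> decide)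
      (fun v => by
        have a2 := orb v 0 h0
        have a3 := orb v 1 h1
        rcases L0123.all (π v 4) with h | h | h | h | h <;> tauto) hu0 hu1
  · -- only 2
    obtain ⟨u0, hu0⟩ := h2
    exact S.two (i := 0) (j := 1) (k := 3) (a := 2)
      (by refine Labels.of ?_ ?_ ?_ ?_ ?_ ?_ ?_ ?_ ?_ ?_ <;> decide) hu0
      (fun v => by
        have a1 := orb v 0 h0
        have a2 := orb v 1 h1
        have a3 := orb v 3 h3
        rcases L0123.all (π v 4) with h | h | h | h | h <;> tauto)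
  · -- only 3
    obtain ⟨u0, hu0⟩ := h3
    exact S.two (i := 0) (j := 1) (k := 2) (a := 3)
      (by refine Labels.of ?_ ?_ ?_ ?_ ?_ ?_ ?_ ?_ ?_ ?_ <;> decide) hu0
      (fun v => by
        have a1 := orb v 0 h0
        have a2 := orb v 1 h1
        have a3 := orb v 2 h2
        rcases L0123.all (π v 4) with h | h | h | h | h <;> tauto)
  · -- none
    obtain ⟨u, hu⟩ := S.moves
    rcases L0123.all (π u 4) with h | h | h | h | h
    · exact h0 ⟨u, h⟩
    · exact h1 ⟨u, h⟩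
    · exact h2 ⟨u, h⟩
    · exact h3 ⟨u, h⟩
    · exact hu h

end Bad

/-- Four of five pairs of signs: if the sum does not vanish, there is a small combination. -/
theorem small_of_sys5 (S : Sys c f π δ) (hne : ∃ g, B5 f g ≠ 0) : Small c (B5 f) := by
  by_contra h
  exact (Bad.mk S hne h).false

end Final5

end Pool.Agent.H86.CM5
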