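import Pool.Agent.H86.CM5.Four

/-!
# Five pairs: preparations
-/

set_option autoImplicit false
set_option linter.unusedSectionVars false

namespace Pool.Agent.H86.CM5

open Pool.Agent.W537.PC

/-- The coefficients `1, 1, 1, 1, 0`. -/
def b5 (i : Fin 5) : ℤ := if i = 4 then 0 else 1

theorem enum5 (p : Fin 5) : ∃ j0 j1 j2 j3 : Fin 5,
    (∀ F : Fin 5 → ℤ, ∑ j, F j = F p + F j0 + F j1 + F j2 + F j3) ∧
    (∀ j, j = p ∨ j = j0 ∨ j = j1 ∨ j = j2 ∨ j = j3) ∧
    j0 ≠ p ∧ j1 ≠ p ∧ j2 ≠ p ∧ j3 ≠ p := by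
  fin_cases p
  · exact ⟨1, 2, 3, 4, fun F => by rw [Fin.sum_univ_five]; rfl, by decide, by decide, by decide,
      by decide, by decide⟩
  · exact ⟨0, 2, 3, 4, fun F => by
      rw [Fin.sum_univ_five]; simp only [Fin.mk_one, Fin.reduceFinMk]; ring,
      by decide, by decide, by decide, by decide, by decide⟩
  · exact ⟨0, 1, 3, 4, fun F => by
      rw [Fin.sum_univ_five]; simp only [Fin.reduceFinMk]; ring,
      by decide, by decide, by decide, by decide, by decide⟩
  · exact ⟨0, 1, 2, 4, fun F => by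
      rw [Fin.sum_univ_five]; simp only [Fin.reduceFinMk]; ring,
      by decide, by decide, by decide, by decide, by decide⟩
  · exact ⟨0, 1, 2, 3, fun F => by
      rw [Fin.sum_univ_five]; simp only [Fin.reduceFinMk]; ring,
      by decide, by decide, by decide, by decide, by decide⟩

section Five

variable {G : Type} [Group G] [Fintype G] {c : G} {f : Fin 5 → G → ℤ}
  {π : G → Equiv.Perm (Fin 5)} {δ : G → Fin 5 → ℤ}

/-- The sum of the signs besides the last one. -/
def B5 (f : Fin 5 → G → ℤ) (g : G) : ℤ := ∑ i, b5 i * f i g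

/-- The hypotheses: a system of signs without small combinations. -/
structure Bad (c : G) (f : Fin 5 → G → ℤ) (π : G → Equiv.Perm (Fin 5)) (δ : G → Fin 5 → ℤ) :
    Prop extends Sys c f π δ where
  ne : ∃ g, B5 f g ≠ 0
  small : ¬ Small c (B5 f)

namespace Bad

variable (S : Bad c f π δ)
include S

/-- The coefficients of the translates. -/
def _root_.Pool.Agent.H86.CM5.V (π : G → Equiv.Perm (Fin 5)) (δ : G → Fin 5 → ℤ) (u : G)
    (j : Fin 5) : ℤ := vec π δ b5 u j

theorem oddB (g : G) : B5 f (c * g) = - B5 f g := S.toSys.odd' b5 g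

theorem kil {F : G → ℤ} (h : InW (B5 f) F) (N : ℕ)
    (hval : ∀ g, F g = 0 ∨ F g = N ∨ F g = -N) (g : G) : F g = 0 :=
  kill S.oddB S.small h N hval g

theorem kilc {F : G → ℤ} (h : InW (B5 f) F)
    (hF : ∀ u, (∀ g, F (g * u) = F g) ∨ (∀ g, F (g * u) = - F g)) (g : G) : F g = 0 :=
  kill_const S.oddB S.small h hF g

theorem inV (u : G) : InW (B5 f) (fun g => ∑ j, V π δ u j * f j g) := S.toSys.inW_vec b5 u

theorem trans (u g : G) : B5 f (g * u) = ∑ j, V π δ u j * f j g := S.toSys.translate b5 u g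

theorem Vone (j : Fin 5) : V π δ 1 j = b5 j := S.toSys.vec_one b5 j

theorem Vmul (g u : G) (j : Fin 5) : V π δ (g * u) (π g j) = δ g j * V π δ u j :=
  S.toSys.vec_mul b5 g u j

theorem Vact (u : G) (i : Fin 5) : V π δ u (π u i) = b5 i * δ u i := vec_act b5 u i

theorem Vzero (u : G) : V π δ u (π u 4) = 0 := by
  rw [S.Vact]
  simp [b5]

theorem Vzero' {u : G} {p : Fin 5} (h : π u 4 = p) : V π δ u p = 0 := by
  rw [← h]
  exact S.Vzero u

theorem Vsign {u : G} {j : Fin 5} (h : j ≠ π u 4) : V π δ u j = 1 ∨ V π δ u j = -1 := by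
  obtain ⟨i, rfl⟩ := (π u).surjective j
  have hi : i ≠ 4 := fun h4 => h (by rw [h4])
  rw [S.Vact]
  unfold b5
  rw [if_neg hi, one_mul]
  exact S.dsign u i

theorem Vsign' {u : G} {p j : Fin 5} (h : π u 4 = p) (hj : j ≠ p) :
    V π δ u j = 1 ∨ V π δ u j = -1 := S.Vsign (by rw [h]; exact hj)

theorem sgn (i : Fin 5) (g : G) : f i g = 1 ∨ f i g = -1 := S.sign i g

/-- Translates with the same missing index agree up to the sign. -/
theorem same {u u' : G} (h : π u 4 = π u' 4) :
    (∀ j, V π δ u j = V π δ u' j) ∨ (∀ j, V π δ u j = - V π δ u' j) := by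
  obtain ⟨j0, j1, j2, j3, hsum, hall, n0, n1, n2, n3⟩ := enum5 (π u' 4)
  have hz := S.Vzero u'
  have hz' : V π δ u (π u' 4) = 0 := by rw [← h]; exact S.Vzero u
  have sg : ∀ j, j ≠ π u' 4 → ∀ g, V π δ u' j * f j g = 1 ∨ V π δ u' j * f j g = -1 := by
    intro j hj g
    have h1 := S.Vsign hj
    have h2 := S.sign j g
    rcases h1 with h1 | h1 <;> rcases h2 with h2 | h2 <;> rw [h1, h2] <;> norm_num
  have sw : ∀ j, j ≠ π u' 4 → V π δ u j * V π δ u' j = 1 ∨ V π δ u j * V π δ u' j = -1 := by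
    intro j hj
    have h1 := S.Vsign hj
    have h2 := S.Vsign (u := u) (j := j) (by rw [h]; exact hj)
    rcases h1 with h1 | h1 <;> rcases h2 with h2 | h2 <;> rw [h1, h2] <;> norm_num
  have sq : ∀ j, j ≠ π u' 4 → V π δ u' j * V π δ u' j = 1 := by
    intro j hj
    rcases S.Vsign hj with h1 | h1 <;> rw [h1] <;> norm_num
  have key := four S.oddB S.small
    (fun g => V π δ u' j0 * f j0 g) (fun g => V π δ u' j1 * f j1 g)
    (fun g => V π δ u' j2 * f j2 g) (fun g => V π δ u' j3 * f j3 g)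
    (sg j0 n0) (sg j1 n1) (sg j2 n2) (sg j3 n3)
    (V π δ u j0 * V π δ u' j0) (V π δ u j1 * V π δ u' j1) (V π δ u j2 * V π δ u' j2)
    (V π δ u j3 * V π δ u' j3) (sw j0 n0) (sw j1 n1) (sw j2 n2) (sw j3 n3)
    ((S.inV u').congr fun g => by rw [hsum, hz]; ring)
    ((S.inV u).congr fun g => by
      rw [hsum, hz']
      linear_combination (V π δ u j0 * f j0 g) * (sq j0 n0) + (V π δ u j1 * f j1 g) * (sq j1 n1) +
        (V π δ u j2 * f j2 g) * (sq j2 n2) + (V π δ u j3 * f j3 g) * (sq j3 n3))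
    (by
      obtain ⟨g, hg⟩ := S.ne
      refine ⟨g * u'⁻¹, ?_⟩
      have h1 := S.trans u' (g * u'⁻¹)
      rw [inv_mul_cancel_right, hsum, hz] at h1
      intro h2
      apply hg
      rw [h1]
      linear_combination h2)
  have fin : ∀ e : ℤ, V π δ u j0 * V π δ u' j0 = e → V π δ u j1 * V π δ u' j1 = e →
      V π δ u j2 * V π δ u' j2 = e → V π δ u j3 * V π δ u' j3 = e →
      ∀ j, V π δ u j = e * V π δ u' j := by
    intro e e0 e1 e2 e3 j
    rcases hall j with rfl | rfl | rfl | rfl | rfl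
    · rw [hz, hz']; ring
    · linear_combination (-V π δ u j) * (sq j n0) + V π δ u' j * e0
    · linear_combination (-V π δ u j) * (sq j n1) + V π δ u' j * e1
    · linear_combination (-V π δ u j) * (sq j n2) + V π δ u' j * e2
    · linear_combination (-V π δ u j) * (sq j n3) + V π δ u' j * e3
  rcases key with ⟨e0, e1, e2, e3⟩ | ⟨e0, e1, e2, e3⟩
  · left
    intro j
    rw [fin 1 e0 e1 e2 e3 j, one_mul]
  · right
    intro j
    rw [fin (-1) e0 e1 e2 e3 j, neg_one_mul]

theorem same_sum {u u' : G} (h : π u 4 = π u' 4) :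
    (∀ g, B5 f (g * u) = B5 f (g * u')) ∨ (∀ g, B5 f (g * u) = - B5 f (g * u')) := by
  rcases S.same h with h1 | h1
  · left
    intro g
    rw [S.trans, S.trans]
    exact Finset.sum_congr rfl fun j _ => by rw [h1]
  · right
    intro g
    rw [S.trans, S.trans, ← Finset.sum_neg_distrib]
    exact Finset.sum_congr rfl fun j _ => by rw [h1]; ring

theorem same_one {u : G} (h : π u 4 = 4) :
    (∀ g, B5 f (g * u) = B5 f g) ∨ (∀ g, B5 f (g * u) = - B5 f g) := by
  have h1 := S.same_sum (u := u) (u' := 1) (by rw [h, S.one])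
  simpa only [mul_one] using h1

/-- Not all translates agree up to the sign. -/
theorem false_of_const (h : ∀ u, (∀ g, B5 f (g * u) = B5 f g) ∨ (∀ g, B5 f (g * u) = - B5 f g)) :
    False := by
  obtain ⟨g, hg⟩ := S.ne
  exact hg (S.kilc (InW.one _) h g)

/-- The missing index moves. -/
theorem moves : ∃ u, π u 4 ≠ 4 := by
  by_contra hcon
  push Not at hcon
  exact S.false_of_const fun u => S.same_one (hcon u)

end Bad

end Five

end Pool.Agent.H86.CM5
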