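import Pool.Agent.H86.CM5.FourOrb2

/-!
# Five pairs: the missing index has five conjugates
-/

set_option autoImplicit false
set_option linter.unusedSectionVars false

namespace Pool.Agent.H86.CM5

open Pool.Agent.W537.PC

theorem coef5 {e1 e2 e3 e4 : ℤ} (s1 : e1 = 1 ∨ e1 = -1) (s2 : e2 = 1 ∨ e2 = -1)
    (s3 : e3 = 1 ∨ e3 = -1) (s4 : e4 = 1 ∨ e4 = -1) : ∃ (N : ℕ) (q0 q1 q2 q3 q4 : ℤ), 0 < N ∧
      q1 * e4 + q2 * e3 + q3 * e2 + q4 * e1 = -N ∧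
      q0 * e1 + q2 * e4 + q3 * e3 + q4 * e2 = N ∧
      q0 * e2 + q1 * e1 + q3 * e4 + q4 * e3 = 0 ∧
      q0 * e3 + q1 * e2 + q2 * e1 + q4 * e4 = 0 ∧
      q0 * e4 + q1 * e3 + q2 * e2 + q3 * e1 = 0 := by
  rcases s1 with rfl | rfl <;> rcases s2 with rfl | rfl <;> rcases s3 with rfl | rfl <;>
    rcases s4 with rfl | rfl
  · exact ⟨1, 1, -1, 0, 0, 0, by norm_num⟩
  · exact ⟨11, 1, 5, -8, 4, -2, by norm_num⟩
  · exact ⟨11, 3, 1, 4, -6, -2, by norm_num⟩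
  · exact ⟨1, -1, -1, 0, -2, 0, by norm_num⟩
  · exact ⟨11, -1, -3, 2, 6, -4, by norm_num⟩
  · exact ⟨1, 1, 1, 0, 0, 0, by norm_num⟩
  · exact ⟨5, 3, 1, 4, 2, 0, by norm_num⟩
  · exact ⟨11, 5, 1, -2, 4, -8, by norm_num⟩
  · exact ⟨11, -5, -1, 2, -4, 8, by norm_num⟩
  · exact ⟨5, -3, -1, -4, -2, 0, by norm_num⟩
  · exact ⟨1, -1, -1, 0, 0, 0, by norm_num⟩
  · exact ⟨11, 1, 3, -2, -6, 4, by norm_num⟩
  · exact ⟨1, 1, 1, 0, 2, 0, by norm_num⟩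
  · exact ⟨11, -3, -1, -4, 6, 2, by norm_num⟩
  · exact ⟨11, -1, -5, 8, -4, 2, by norm_num⟩
  · exact ⟨1, -1, 1, 0, 0, 0, by norm_num⟩

section Cyc

variable {G : Type} [Group G] [Fintype G] {c : G} {B : G → ℤ}

theorem cyc5 (K : ∀ {F : G → ℤ}, InW B F → ∀ N : ℕ, (∀ g, F g = 0 ∨ F g = N ∨ F g = -N) →
      ∀ g, F g = 0) {a0 a1 a2 a3 a4 : G → ℤ}
    (s0 : ∀ g, a0 g = 1 ∨ a0 g = -1) (s1 : ∀ g, a1 g = 1 ∨ a1 g = -1) {e1 e2 e3 e4 : ℤ}
    (t1 : e1 = 1 ∨ e1 = -1) (t2 : e2 = 1 ∨ e2 = -1)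
    (t3 : e3 = 1 ∨ e3 = -1) (t4 : e4 = 1 ∨ e4 = -1)
    (h0 : InW B fun g => e1 * a1 g + e2 * a2 g + e3 * a3 g + e4 * a4 g)
    (h1 : InW B fun g => e1 * a2 g + e2 * a3 g + e3 * a4 g + e4 * a0 g)
    (h2 : InW B fun g => e1 * a3 g + e2 * a4 g + e3 * a0 g + e4 * a1 g)
    (h3 : InW B fun g => e1 * a4 g + e2 * a0 g + e3 * a1 g + e4 * a2 g)
    (h4 : InW B fun g => e1 * a0 g + e2 * a1 g + e3 * a2 g + e4 * a3 g) (g : G) :
    a1 g = a0 g := by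
  obtain ⟨N, q0, q1, q2, q3, q4, hN, c0, c1, c2, c3, c4⟩ := coef5 t1 t2 t3 t4
  have key := K (((((h0.smul q0).add (h1.smul q1)).add (h2.smul q2)).add
    ((h3.smul q3).add (h4.smul q4))).congr (f' := fun g => N * (a1 g - a0 g)) fun g => by
      linear_combination (-a0 g) * c0 - a1 g * c1 - a2 g * c2 - a3 g * c3 - a4 g * c4) (N * 2)
    (fun g => by
      push_cast
      rcases s0 g with h | h <;> rcases s1 g with h' | h' <;> rw [h, h']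
      · left; ring
      · right; right; ring
      · right; left; ring
      · left; ring) g
  have hN' : (N : ℤ) ≠ 0 := by exact_mod_cast hN.ne'
  rcases mul_eq_zero.1 key with h | h
  · exact absurd h hN'
  · linarith

end Cyc

section FiveOrb

variable {G : Type} [Group G] [Fintype G] {c : G} {f : Fin 5 → G → ℤ}
  {π : G → Equiv.Perm (Fin 5)} {δ : G → Fin 5 → ℤ}

namespace Bad

variable (S : Bad c f π δ)
include S

/-- A five-cycle: impossible. -/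
theorem five_cycle {a1 a2 a3 a4 : Fin 5} (L : Labels a1 a2 a3 a4) (v : G) (h0 : π v 4 = a1)
    (h1 : π v a1 = a2) (h2 : π v a2 = a3) (h3 : π v a3 = a4) (h4 : π v a4 = 4) : False := by
  have d0 := S.dsign v 4
  have d1 := S.dsign v a1
  have d2 := S.dsign v a2
  have d3 := S.dsign v a3
  have d4 := S.dsign v a4
  obtain ⟨x0, hx0⟩ : ∃ x, x = δ v 4 := ⟨_, rfl⟩
  obtain ⟨x1, hx1⟩ : ∃ x, x = δ v a1 := ⟨_, rfl⟩
  obtain ⟨x2, hx2⟩ : ∃ x, x = δ v a2 := ⟨_, rfl⟩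
  obtain ⟨x3, hx3⟩ : ∃ x, x = δ v a3 := ⟨_, rfl⟩
  obtain ⟨x4, hx4⟩ : ∃ x, x = δ v a4 := ⟨_, rfl⟩
  rw [← hx0] at d0
  rw [← hx1] at d1
  rw [← hx2] at d2
  rw [← hx3] at d3
  rw [← hx4] at d4
  have m0 : ∀ g, f 4 (g * v) = x0 * f a1 g := fun g => by rw [S.act, h0, hx0]
  have m1 : ∀ g, f a1 (g * v) = x1 * f a2 g := fun g => by rw [S.act, h1, hx1]
  have m2 : ∀ g, f a2 (g * v) = x2 * f a3 g := fun g => by rw [S.act, h2, hx2]
  have m3 : ∀ g, f a3 (g * v) = x3 * f a4 g := fun g => by rw [S.act, h3, hx3]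
  have m4 : ∀ g, f a4 (g * v) = x4 * f 4 g := fun g => by rw [S.act, h4, hx4]
  have q0 : x0 * x0 = 1 := by rcases d0 with h | h <;> rw [h] <;> norm_num
  have q1 : x1 * x1 = 1 := by rcases d1 with h | h <;> rw [h] <;> norm_num
  have q2 : x2 * x2 = 1 := by rcases d2 with h | h <;> rw [h] <;> norm_num
  have q3 : x3 * x3 = 1 := by rcases d3 with h | h <;> rw [h] <;> norm_num
  have q4 : x4 * x4 = 1 := by rcases d4 with h | h <;> rw [h] <;> norm_num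
  obtain ⟨D, hD⟩ : ∃ D, D = x0 * x1 * x2 * x3 * x4 := ⟨_, rfl⟩
  have sD : D = 1 ∨ D = -1 := by
    rw [hD]
    exact sm (sm (sm (sm d0 d1) d2) d3) d4
  have qD : D * D = 1 := by rcases sD with h | h <;> rw [h] <;> norm_num
  -- the functions
  obtain ⟨p0, hp0⟩ : ∃ p : G → ℤ, p = f 4 := ⟨_, rfl⟩
  obtain ⟨p1, hp1⟩ : ∃ p : G → ℤ, ∀ g, p g = D * x0 * f a1 g := ⟨_, fun g => rfl⟩
  obtain ⟨p2, hp2⟩ : ∃ p : G → ℤ, ∀ g, p g = x0 * x1 * f a2 g := ⟨_, fun g => rfl⟩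
  obtain ⟨p3, hp3⟩ : ∃ p : G → ℤ, ∀ g, p g = D * x0 * x1 * x2 * f a3 g := ⟨_, fun g => rfl⟩
  obtain ⟨p4, hp4⟩ : ∃ p : G → ℤ, ∀ g, p g = x0 * x1 * x2 * x3 * f a4 g := ⟨_, fun g => rfl⟩
  have T0 : ∀ g, D * p0 (g * v) = p1 g := fun g => by
    rw [hp0, m0, hp1]; ring
  have T1 : ∀ g, D * p1 (g * v) = p2 g := fun g => by
    rw [hp1, m1, hp2]
    linear_combination (x0 * x1 * f a2 g) * qD
  have T2 : ∀ g, D * p2 (g * v) = p3 g := fun g => by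
    rw [hp2, m2, hp3]; ring
  have T3 : ∀ g, D * p3 (g * v) = p4 g := fun g => by
    rw [hp3, m3, hp4]
    linear_combination (x0 * x1 * x2 * x3 * f a4 g) * qD
  have T4 : ∀ g, D * p4 (g * v) = p0 g := fun g => by
    rw [hp4, m4, hp0]
    have : D * (x0 * x1 * x2 * x3 * (x4 * f 4 g)) = D * D * f 4 g := by
      nth_rewrite 3 [hD]
      ring
    rw [this, qD, one_mul]
  have b0 : ∀ g, B5 f g = (D * x0) * p1 g + (x0 * x1) * p2 g + (D * x0 * x1 * x2) * p3 g +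
      (x0 * x1 * x2 * x3) * p4 g := by
    intro g
    rw [S.B_eq L, hp1, hp2, hp3, hp4]
    have r1 : (D * x0) * (D * x0 * f a1 g) = f a1 g := by
      have : (D * x0) * (D * x0 * f a1 g) = (D * D) * (x0 * x0) * f a1 g := by ring
      rw [this, qD, q0]; ring
    have r2 : (x0 * x1) * (x0 * x1 * f a2 g) = f a2 g := by
      have : (x0 * x1) * (x0 * x1 * f a2 g) = (x0 * x0) * (x1 * x1) * f a2 g := by ring
      rw [this, q0, q1]; ring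
    have r3 : (D * x0 * x1 * x2) * (D * x0 * x1 * x2 * f a3 g) = f a3 g := by
      have : (D * x0 * x1 * x2) * (D * x0 * x1 * x2 * f a3 g) =
        (D * D) * (x0 * x0) * (x1 * x1) * (x2 * x2) * f a3 g := by ring
      rw [this, qD, q0, q1, q2]; ring
    have r4 : (x0 * x1 * x2 * x3) * (x0 * x1 * x2 * x3 * f a4 g) = f a4 g := by
      have : (x0 * x1 * x2 * x3) * (x0 * x1 * x2 * x3 * f a4 g) =
        (x0 * x0) * (x1 * x1) * (x2 * x2) * (x3 * x3) * f a4 g := by ring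
      rw [this, q0, q1, q2, q3]; ring
    rw [r1, r2, r3, r4]
  have s0 : ∀ g, p0 g = 1 ∨ p0 g = -1 := fun g => by rw [hp0]; exact S.sgn 4 g
  have s1 : ∀ g, p1 g = 1 ∨ p1 g = -1 := fun g => by rw [hp1]; exact sm (sm sD d0) (S.sgn a1 g)
  obtain ⟨e1, he1⟩ : ∃ e, e = D * x0 := ⟨_, rfl⟩
  obtain ⟨e2, he2⟩ : ∃ e, e = x0 * x1 := ⟨_, rfl⟩
  obtain ⟨e3, he3⟩ : ∃ e, e = D * x0 * x1 * x2 := ⟨_, rfl⟩
  obtain ⟨e4, he4⟩ : ∃ e, e = x0 * x1 * x2 * x3 := ⟨_, rfl⟩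
  have t1 : e1 = 1 ∨ e1 = -1 := by rw [he1]; exact sm sD d0
  have t2 : e2 = 1 ∨ e2 = -1 := by rw [he2]; exact sm d0 d1
  have t3 : e3 = 1 ∨ e3 = -1 := by rw [he3]; exact sm (sm (sm sD d0) d1) d2
  have t4 : e4 = 1 ∨ e4 = -1 := by rw [he4]; exact sm (sm (sm d0 d1) d2) d3
  replace b0 : ∀ g, B5 f g = e1 * p1 g + e2 * p2 g + e3 * p3 g + e4 * p4 g := fun g => by
    rw [b0 g, he1, he2, he3, he4]
  have w0 : InW (B5 f) fun g => e1 * p1 g + e2 * p2 g + e3 * p3 g + e4 * p4 g :=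
    (InW.one _).congr fun g => (b0 g).symm
  have w1 : InW (B5 f) fun g => e1 * p2 g + e2 * p3 g + e3 * p4 g + e4 * p0 g :=
    ((w0.translate v).smul D).congr fun g => by rw [← T1, ← T2, ← T3, ← T4]; ring
  have w2 : InW (B5 f) fun g => e1 * p3 g + e2 * p4 g + e3 * p0 g + e4 * p1 g :=
    ((w1.translate v).smul D).congr fun g => by rw [← T2, ← T3, ← T4, ← T0]; ring
  have w3 : InW (B5 f) fun g => e1 * p4 g + e2 * p0 g + e3 * p1 g + e4 * p2 g :=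
    ((w2.translate v).smul D).congr fun g => by rw [← T3, ← T4, ← T0, ← T1]; ring
  have w4 : InW (B5 f) fun g => e1 * p0 g + e2 * p1 g + e3 * p2 g + e4 * p3 g :=
    ((w3.translate v).smul D).congr fun g => by rw [← T4, ← T0, ← T1, ← T2]; ring
  have E : ∀ g, p1 g = p0 g :=
    cyc5 (fun h N hv g => S.kil h N hv g) s0 s1 t1 t2 t3 t4 w0 w1 w2 w3 w4
  have E2 : ∀ g, p2 g = p0 g := fun g => by rw [← T1, E, T0, E]
  have E3 : ∀ g, p3 g = p0 g := fun g => by rw [← T2, E2, T0, E]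
  have E4 : ∀ g, p4 g = p0 g := fun g => by rw [← T3, E3, T0, E]
  have bb : ∀ g, B5 f g = (e1 + e2 + e3 + e4) * p0 g := fun g => by
    rw [b0, E, E2, E3, E4]; ring
  obtain ⟨g, hg⟩ := S.ne
  apply hg
  refine S.kil (InW.one _) (e1 + e2 + e3 + e4).natAbs (fun g => ?_) g
  rw [bb]
  right
  rcases s0 g with h | h <;> rw [h]
  · rw [mul_one]
    rcases Int.natAbs_eq (e1 + e2 + e3 + e4) with h' | h'
    · left; exact h'
    · right; exact h'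
  · rcases Int.natAbs_eq (e1 + e2 + e3 + e4) with h' | h'
    · right; rw [mul_neg_one]; exact congrArg Neg.neg h'
    · left
      rw [mul_neg_one]
      omega

end Bad

end FiveOrb

end Pool.Agent.H86.CM5
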