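import Pool.Agent.H86.CM5.Comb

/-!
# Four signs
-/

set_option autoImplicit false
set_option linter.unusedSectionVars false

namespace Pool.Agent.H86.CM5

open Pool.Agent.W537.PC

section Four

variable {G : Type} [Group G] [Fintype G] {c : G} {B : G → ℤ}

theorem four (hodd : ∀ g, B (c * g) = - B g) (hns : ¬ Small c B) (h0 h1 h2 h3 : G → ℤ)
    (s0 : ∀ g, h0 g = 1 ∨ h0 g = -1) (s1 : ∀ g, h1 g = 1 ∨ h1 g = -1)
    (s2 : ∀ g, h2 g = 1 ∨ h2 g = -1) (s3 : ∀ g, h3 g = 1 ∨ h3 g = -1) (w0 w1 w2 w3 : ℤ)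
    (e0 : w0 = 1 ∨ w0 = -1) (e1 : w1 = 1 ∨ w1 = -1) (e2 : w2 = 1 ∨ w2 = -1)
    (e3 : w3 = 1 ∨ w3 = -1)
    (k1 : InW B (fun g => h0 g + h1 g + h2 g + h3 g))
    (k2 : InW B (fun g => w0 * h0 g + w1 * h1 g + w2 * h2 g + w3 * h3 g))
    (hne : ∃ g, h0 g + h1 g + h2 g + h3 g ≠ 0) :
    (w0 = 1 ∧ w1 = 1 ∧ w2 = 1 ∧ w3 = 1) ∨ (w0 = -1 ∧ w1 = -1 ∧ w2 = -1 ∧ w3 = -1) := by
  have ha := fun N hval => kill hodd hns (k1.add k2) N hval
  have hd := fun N hval => kill hodd hns (k1.sub k2) N hval
  rcases e0 with rfl | rfl <;> rcases e1 with rfl | rfl <;> rcases e2 with rfl | rfl <;>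
    rcases e3 with rfl | rfl <;>
  first
  | (left; exact ⟨rfl, rfl, rfl, rfl⟩)
  | (right; exact ⟨rfl, rfl, rfl, rfl⟩)
  | (exfalso
     have h5 := ha 2 (fun g => by
       have := s0 g; have := s1 g; have := s2 g; have := s3 g
       simp only [Nat.cast_ofNat]
       omega) 1
     have := s0 1; have := s1 1; have := s2 1; have := s3 1
     try simp only at h5
     omega)
  | (exfalso
     have h5 := hd 2 (fun g => by
       have := s0 g; have := s1 g; have := s2 g; have := s3 g
       simp only [Nat.cast_ofNat]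
       omega) 1
     have := s0 1; have := s1 1; have := s2 1; have := s3 1
     try simp only at h5
     omega)
  | (exfalso
     obtain ⟨g0, hg0⟩ := hne
     have h5 := ha 4 (fun g => by
       have := s0 g; have := s1 g; have := s2 g; have := s3 g
       simp only [Nat.cast_ofNat]
       omega) g0
     have h6 := hd 4 (fun g => by
       have := s0 g; have := s1 g; have := s2 g; have := s3 g
       simp only [Nat.cast_ofNat]
       omega) g0
     try simp only at h5
     try simp only at h6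
     omega)

end Four

end Pool.Agent.H86.CM5
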