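import Pool.Agent.H86.CM5.Three

/-!
# Five pairs: the missing index has four conjugates
-/

set_option autoImplicit false
set_option linter.unusedSectionVars false

namespace Pool.Agent.H86.CM5

open Pool.Agent.W537.PC

section Fin4

variable {G : Type} [Group G] [Fintype G] {c : G} {B : G → ℤ}

theorem inv4 (K : ∀ {F : G → ℤ}, InW B F → ∀ N : ℕ, (∀ g, F g = 0 ∨ F g = N ∨ F g = -N) →
      ∀ g, F g = 0) {t x y z w : G → ℤ}
    (st : ∀ g, t g = 1 ∨ t g = -1) (sx : ∀ g, x g = 1 ∨ x g = -1)
    (sy : ∀ g, y g = 1 ∨ y g = -1) (sz : ∀ g, z g = 1 ∨ z g = -1)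
    (sw : ∀ g, w g = 1 ∨ w g = -1)
    (h1 : InW B fun g => t g - y g + z g + w g) (h2 : InW B fun g => t g - x g + z g + w g)
    (h3 : InW B fun g => t g + x g + y g - w g) (h4 : InW B fun g => t g + x g + y g - z g)
    (g : G) : t g - y g + z g + w g = 0 := by
  have e1 := K ((h1.sub h2).congr (f' := fun g => x g - y g) fun g => by ring) 2 (fun g => by
    have := sx g; have := sy g
    simp only [Nat.cast_ofNat]
    omega)
  have e2 := K ((h3.sub h4).congr (f' := fun g => z g - w g) fun g => by ring) 2 (fun g => by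
    have := sz g; have := sw g
    simp only [Nat.cast_ofNat]
    omega)
  have e3 := K ((h1.sub h3).congr (f' := fun g => t g - y g + z g + w g -
      (t g + x g + y g - w g)) fun g => rfl) 6 (fun g => by
    have := sx g; have := sy g; have := sz g; have := sw g; have := e1 g; have := e2 g
    simp only [Nat.cast_ofNat]
    omega)
  refine K h1 2 (fun g => ?_) g
  have := sx g; have := sy g; have := sz g; have := sw g; have := e1 g; have := e2 g
  have := e3 g; have := st g
  simp only [Nat.cast_ofNat]
  omega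

theorem cyc4 (K : ∀ {F : G → ℤ}, InW B F → ∀ N : ℕ, (∀ g, F g = 0 ∨ F g = N ∨ F g = -N) →
      ∀ g, F g = 0) {t x y z w : G → ℤ}
    (st : ∀ g, t g = 1 ∨ t g = -1) (sx : ∀ g, x g = 1 ∨ x g = -1)
    (sy : ∀ g, y g = 1 ∨ y g = -1) (sz : ∀ g, z g = 1 ∨ z g = -1)
    (sw : ∀ g, w g = 1 ∨ w g = -1)
    (h1 : InW B fun g => t g - y g + z g + w g) (h2 : InW B fun g => t g + x g - z g + w g)
    (h3 : InW B fun g => t g + x g + y g - w g) (h4 : InW B fun g => t g - x g + y g + z g)
    (g : G) : t g - y g + z g + w g = 0 := by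
  have e1 := K ((((h2.sub h4).smul 2).sub (h1.sub h3)).congr
      (f' := fun g => 5 * (x g - z g)) fun g => by ring) 10 (fun g => by
    have := sx g; have := sz g
    simp only [Nat.cast_ofNat]
    omega)
  have e2 := K ((((h1.sub h3).smul 2).add (h2.sub h4)).congr
      (f' := fun g => (-5) * (y g - w g)) fun g => by ring) 10 (fun g => by
    have := sy g; have := sw g
    simp only [Nat.cast_ofNat]
    omega)
  refine K h1 2 (fun g => ?_) g
  have := sx g; have := sy g; have := sz g; have := sw g; have := e1 g; have := e2 g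
  have := st g
  simp only [Nat.cast_ofNat]
  omega

theorem row3 {a b d : ℤ} (ha : a = 1 ∨ a = -1) (hb : b = 1 ∨ b = -1) (hd : d = 1 ∨ d = -1)
    (h : a + b + d = 1) : (a = -1 ∧ b = 1 ∧ d = 1) ∨ (a = 1 ∧ b = -1 ∧ d = 1) ∨
      (a = 1 ∧ b = 1 ∧ d = -1) := by
  omega

theorem fin4 (K : ∀ {F : G → ℤ}, InW B F → ∀ N : ℕ, (∀ g, F g = 0 ∨ F g = N ∨ F g = -N) →
      ∀ g, F g = 0) {t x y z w : G → ℤ}
    (st : ∀ g, t g = 1 ∨ t g = -1) (sx : ∀ g, x g = 1 ∨ x g = -1)
    (sy : ∀ g, y g = 1 ∨ y g = -1) (sz : ∀ g, z g = 1 ∨ z g = -1)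
    (sw : ∀ g, w g = 1 ∨ w g = -1) {xy xz xw yx yz yw zx zy zw wx wy wz : ℤ}
    (sxy : xy = 1 ∨ xy = -1) (sxz : xz = 1 ∨ xz = -1) (sxw : xw = 1 ∨ xw = -1)
    (syx : yx = 1 ∨ yx = -1) (syz : yz = 1 ∨ yz = -1) (syw : yw = 1 ∨ yw = -1)
    (szx : zx = 1 ∨ zx = -1) (szy : zy = 1 ∨ zy = -1) (szw : zw = 1 ∨ zw = -1)
    (swx : wx = 1 ∨ wx = -1) (swy : wy = 1 ∨ wy = -1) (swz : wz = 1 ∨ wz = -1)
    (rx : xy + xz + xw = 1) (ry : yx + yz + yw = 1) (rz : zx + zy + zw = 1)
    (rw' : wx + wy + wz = 1) (cx : yx + zx + wx = 1) (cy : xy + zy + wy = 1)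
    (cz : xz + yz + wz = 1) (cw : xw + yw + zw = 1)
    (h1 : InW B fun g => t g + xy * y g + xz * z g + xw * w g)
    (h2 : InW B fun g => t g + yx * x g + yz * z g + yw * w g)
    (h3 : InW B fun g => t g + zx * x g + zy * y g + zw * w g)
    (h4 : InW B fun g => t g + wx * x g + wy * y g + wz * z g)
    (g : G) : t g + xy * y g + xz * z g + xw * w g = 0 := by
  rcases row3 sxy sxz sxw rx with ⟨rfl, rfl, rfl⟩ | ⟨rfl, rfl, rfl⟩ | ⟨rfl, rfl, rfl⟩
  · -- x → y
    rcases row3 syx syz syw ry with ⟨rfl, rfl, rfl⟩ | ⟨rfl, rfl, rfl⟩ | ⟨rfl, rfl, rfl⟩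
    · -- y → x
      have e1 : zx = 1 := by omega
      have e2 : zy = 1 := by omega
      have e3 : zw = -1 := by omega
      have e4 : wx = 1 := by omega
      have e5 : wy = 1 := by omega
      have e6 : wz = -1 := by omega
      subst e1 e2 e3 e4 e5 e6
      have := inv4 K st sx sy sz sw (h1.congr fun g => by ring) (h2.congr fun g => by ring)
        (h3.congr fun g => by ring) (h4.congr fun g => by ring) g
      linarith
    · -- y → z
      have e1 : zx = 1 := by omega
      have e2 : zy = 1 := by omega
      have e3 : zw = -1 := by omega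
      have e4 : wx = -1 := by omega
      have e5 : wy = 1 := by omega
      have e6 : wz = 1 := by omega
      subst e1 e2 e3 e4 e5 e6
      have := cyc4 K st sx sy sz sw (h1.congr fun g => by ring) (h2.congr fun g => by ring)
        (h3.congr fun g => by ring) (h4.congr fun g => by ring) g
      linarith
    · -- y → w
      have e1 : zx = -1 := by omega
      have e2 : zy = 1 := by omega
      have e3 : zw = 1 := by omega
      have e4 : wx = 1 := by omega
      have e5 : wy = 1 := by omega
      have e6 : wz = -1 := by omega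
      subst e1 e2 e3 e4 e5 e6
      have := cyc4 K st sx sy sw sz (h1.congr fun g => by ring) (h2.congr fun g => by ring)
        (h4.congr fun g => by ring) (h3.congr fun g => by ring) g
      linarith
  · -- x → z
    rcases row3 szx szy szw rz with ⟨rfl, rfl, rfl⟩ | ⟨rfl, rfl, rfl⟩ | ⟨rfl, rfl, rfl⟩
    · -- z → x
      have e1 : yx = 1 := by omega
      have e2 : yz = 1 := by omega
      have e3 : yw = -1 := by omega
      have e4 : wx = 1 := by omega
      have e5 : wz = 1 := by omega
      have e6 : wy = -1 := by omega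
      subst e1 e2 e3 e4 e5 e6
      have := inv4 K st sx sz sy sw (h1.congr fun g => by ring) (h3.congr fun g => by ring)
        (h2.congr fun g => by ring) (h4.congr fun g => by ring) g
      linarith
    · -- z → y
      have e1 : yx = 1 := by omega
      have e2 : yz = 1 := by omega
      have e3 : yw = -1 := by omega
      have e4 : wx = -1 := by omega
      have e5 : wy = 1 := by omega
      have e6 : wz = 1 := by omega
      subst e1 e2 e3 e4 e5 e6
      have := cyc4 K st sx sz sy sw (h1.congr fun g => by ring) (h3.congr fun g => by ring)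
        (h2.congr fun g => by ring) (h4.congr fun g => by ring) g
      linarith
    · -- z → w
      have e1 : yx = -1 := by omega
      have e2 : yz = 1 := by omega
      have e3 : yw = 1 := by omega
      have e4 : wx = 1 := by omega
      have e5 : wz = 1 := by omega
      have e6 : wy = -1 := by omega
      subst e1 e2 e3 e4 e5 e6
      have := cyc4 K st sx sz sw sy (h1.congr fun g => by ring) (h3.congr fun g => by ring)
        (h4.congr fun g => by ring) (h2.congr fun g => by ring) g
      linarith
  · -- x → w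
    rcases row3 swx swy swz rw' with ⟨rfl, rfl, rfl⟩ | ⟨rfl, rfl, rfl⟩ | ⟨rfl, rfl, rfl⟩
    · -- w → x
      have e1 : yx = 1 := by omega
      have e2 : yw = 1 := by omega
      have e3 : yz = -1 := by omega
      have e4 : zx = 1 := by omega
      have e5 : zw = 1 := by omega
      have e6 : zy = -1 := by omega
      subst e1 e2 e3 e4 e5 e6
      have := inv4 K st sx sw sy sz (h1.congr fun g => by ring) (h4.congr fun g => by ring)
        (h2.congr fun g => by ring) (h3.congr fun g => by ring) g
      linarith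
    · -- w → y
      have e1 : yx = 1 := by omega
      have e2 : yw = 1 := by omega
      have e3 : yz = -1 := by omega
      have e4 : zx = -1 := by omega
      have e5 : zy = 1 := by omega
      have e6 : zw = 1 := by omega
      subst e1 e2 e3 e4 e5 e6
      have := cyc4 K st sx sw sy sz (h1.congr fun g => by ring) (h4.congr fun g => by ring)
        (h2.congr fun g => by ring) (h3.congr fun g => by ring) g
      linarith
    · -- w → z
      have e1 : yx = -1 := by omega
      have e2 : yw = 1 := by omega
      have e3 : yz = 1 := by omega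
      have e4 : zx = 1 := by omega
      have e5 : zw = 1 := by omega
      have e6 : zy = -1 := by omega
      subst e1 e2 e3 e4 e5 e6
      have := cyc4 K st sx sw sz sy (h1.congr fun g => by ring) (h4.congr fun g => by ring)
        (h3.congr fun g => by ring) (h2.congr fun g => by ring) g
      linarith

end Fin4

end Pool.Agent.H86.CM5
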