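import Pool.Agent.H86.CM5.FourOrb

/-!
# Five pairs: the missing index has four conjugates, conclusion
-/

set_option autoImplicit false
set_option linter.unusedSectionVars false

namespace Pool.Agent.H86.CM5

open Pool.Agent.W537.PC

theorem sum3 {a b d : ℤ} (ha : a = 1 ∨ a = -1) (hb : b = 1 ∨ b = -1) (hd : d = 1 ∨ d = -1) :
    a + b + d = 3 ∨ a + b + d = -3 ∨ a + b + d = 1 ∨ a + b + d = -1 := by
  omega

theorem sm {a b : ℤ} (ha : a = 1 ∨ a = -1) (hb : b = 1 ∨ b = -1) : a * b = 1 ∨ a * b = -1 := by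
  rcases ha with rfl | rfl <;> rcases hb with rfl | rfl <;> norm_num

theorem dif2 {a b : ℤ} (ha : a = 1 ∨ a = -1) (hb : b = 1 ∨ b = -1) :
    a - b = 0 ∨ a - b = ((2 : ℕ) : ℤ) ∨ a - b = -((2 : ℕ) : ℤ) := by
  simp only [Nat.cast_ofNat]
  omega

theorem sum3_ext {a b d k : ℤ} (ha : a = 1 ∨ a = -1) (hb : b = 1 ∨ b = -1) (hd : d = 1 ∨ d = -1)
    (hk : k = a + b + d) (h : k = 3 ∨ k = -3) :
    ∃ e : ℤ, (e = 1 ∨ e = -1) ∧ a = e ∧ b = e ∧ d = e := by
  rcases h with h | h
  · exact ⟨1, Or.inl rfl, by omega, by omega, by omega⟩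
  · exact ⟨-1, Or.inr rfl, by omega, by omega, by omega⟩

section FourOrb

variable {G : Type} [Group G] [Fintype G] {c : G} {f : Fin 5 → G → ℤ}
  {π : G → Equiv.Perm (Fin 5)} {δ : G → Fin 5 → ℤ}

namespace Bad

variable (S : Bad c f π δ)
include S

/-- The index `4` has four conjugates: impossible. -/
theorem four_orb {t p q r : Fin 5} (L : Labels t p q r) (ht : ∀ v, π v t = t)
    (hU : ∀ x, x ≠ t → ∃ u, π u 4 = x) : False := by
  classical
  choose! U hU using hU
  have h4t : (4 : Fin 5) ≠ t := L.i4.symm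
  have nt : ∀ v x, x ≠ t → π v x ≠ t := fun v x hx h => hx ((π v).injective (h.trans (ht v).symm))
  obtain ⟨ν, hν⟩ : ∃ ν : Fin 5 → Fin 5 → ℤ, ν = fun x y => V π δ (U x) t * V π δ (U x) y :=
    ⟨_, rfl⟩
  have Vt : ∀ v, V π δ v t * V π δ v t = 1 := by
    intro v
    rcases S.Vsign (u := v) (j := t) (nt v 4 h4t).symm with h | h <;> rw [h] <;> norm_num
  have Vts : ∀ v, V π δ v t = 1 ∨ V π δ v t = -1 := fun v => S.Vsign (nt v 4 h4t).symm
  have νxx : ∀ x, x ≠ t → ν x x = 0 := by
    intro x hx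
    simp only [hν]
    rw [S.Vzero' (hU x hx), mul_zero]
  have νs : ∀ x y, x ≠ t → y ≠ x → ν x y = 1 ∨ ν x y = -1 := by
    intro x y hx hy
    simp only [hν]
    rcases Vts (U x) with h | h <;> rcases S.Vsign' (hU x hx) hy with h' | h' <;> rw [h, h'] <;>
      norm_num
  have νt : ∀ x, ν x t = 1 := fun x => by simp only [hν]; exact Vt (U x)
  have hV : ∀ v y, V π δ v y = V π δ v t * ν (π v 4) y := by
    intro v y
    have h1 : π v 4 = π (U (π v 4)) 4 := (hU _ (nt v 4 h4t)).symm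
    simp only [hν]
    have h3 := Vt (U (π v 4))
    rcases S.same h1 with h2 | h2
    · rw [h2 y, h2 t]
      linear_combination (-V π δ (U (π v 4)) y) * h3
    · rw [h2 y, h2 t]
      linear_combination (V π δ (U (π v 4)) y) * h3
  have hE : ∀ v x y, x ≠ t → δ v t * ν (π v x) (π v y) = δ v y * ν x y := by
    intro v x y hx
    have h1 := S.Vmul v (U x) y
    have h2 := S.Vmul v (U x) t
    have h3 := hV (v * U x) (π v y)
    rw [S.mul, hU x hx] at h3
    rw [ht] at h2
    rw [h2, h1] at h3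
    have h4 := Vt (U x)
    simp only [hν] at h3 ⊢
    linear_combination (-V π δ (U x) t) * h3 -
      (δ v t * (V π δ (U (π v x)) t * V π δ (U (π v x)) (π v y))) * h4
  -- the column sums
  obtain ⟨κ, hκ⟩ : ∃ κ : Fin 5 → ℤ, κ = fun y => ν p y + ν q y + ν r y + ν 4 y := ⟨_, rfl⟩
  have κsum : ∀ y, κ y = ∑ x, (if x = t then 0 else ν x y) := by
    intro y
    rw [L.sum]
    rw [if_pos rfl, if_neg L.ij.symm, if_neg L.ik.symm, if_neg L.ia.symm, if_neg h4t]
    simp only [hκ]
    ring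
  have hκE : ∀ v y, δ v t * κ (π v y) = δ v y * κ y := by
    intro v y
    rw [κsum, κsum, ← Equiv.sum_comp (π v) (fun x => if x = t then 0 else ν x (π v y)),
      Finset.mul_sum, Finset.mul_sum]
    refine Finset.sum_congr rfl fun x _ => ?_
    by_cases hx : x = t
    · rw [hx, if_pos (ht v), if_pos rfl]
      ring
    · rw [if_neg (nt v x hx), if_neg hx, hE v x y hx]
  have hκsq : ∀ y, y ≠ t → κ y * κ y = κ 4 * κ 4 := by
    intro y hy
    have h1 := hκE (U y) 4
    rw [hU y hy] at h1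
    have h2 := S.dsq (U y) t
    have h3 := S.dsq (U y) 4
    linear_combination (δ (U y) t * κ y + δ (U y) 4 * κ 4) * h1 - κ y * κ y * h2 +
      κ 4 * κ 4 * h3
  have n4p : ν 4 p = 1 ∨ ν 4 p = -1 := νs 4 p h4t L.j4
  have n4q : ν 4 q = 1 ∨ ν 4 q = -1 := νs 4 q h4t L.k4
  have n4r : ν 4 r = 1 ∨ ν 4 r = -1 := νs 4 r h4t L.a4
  have npt : p ≠ t := L.ij.symm
  have nqt : q ≠ t := L.ik.symm
  have nrt : r ≠ t := L.ia.symm
  have np4 : ν p 4 = 1 ∨ ν p 4 = -1 := νs p 4 npt L.j4.symm
  have nq4 : ν q 4 = 1 ∨ ν q 4 = -1 := νs q 4 nqt L.k4.symm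
  have nr4 : ν r 4 = 1 ∨ ν r 4 = -1 := νs r 4 nrt L.a4.symm
  have npq : ν p q = 1 ∨ ν p q = -1 := νs p q npt L.jk.symm
  have npr : ν p r = 1 ∨ ν p r = -1 := νs p r npt L.ja.symm
  have nqp : ν q p = 1 ∨ ν q p = -1 := νs q p nqt L.jk
  have nqr : ν q r = 1 ∨ ν q r = -1 := νs q r nqt L.ka.symm
  have nrp : ν r p = 1 ∨ ν r p = -1 := νs r p nrt L.ja
  have nrq : ν r q = 1 ∨ ν r q = -1 := νs r q nrt L.ka
  have z4 : ν 4 4 = 0 := νxx 4 h4t
  have zp : ν p p = 0 := νxx p npt
  have zq : ν q q = 0 := νxx q nqt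
  have zr : ν r r = 0 := νxx r nrt
  have k4 : κ 4 = ν p 4 + ν q 4 + ν r 4 := by simp only [hκ]; rw [z4]; ring
  have kp : κ p = ν q p + ν r p + ν 4 p := by simp only [hκ]; rw [zp]; ring
  have kq : κ q = ν p q + ν r q + ν 4 q := by simp only [hκ]; rw [zq]; ring
  have kr : κ r = ν p r + ν q r + ν 4 r := by simp only [hκ]; rw [zr]; ring
  have hsqp := hκsq p npt
  have hsqq := hκsq q nqt
  have hsqr := hκsq r nrt
  -- the translates
  have hT : ∀ v g, B5 f (g * v) = V π δ v t * (f t g + ν (π v 4) p * f p g +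
      ν (π v 4) q * f q g + ν (π v 4) r * f r g + ν (π v 4) 4 * f 4 g) := by
    intro v g
    rw [S.trans, L.sum, hV v p, hV v q, hV v r, hV v 4]
    ring
  have hW : ∀ x, x ≠ t → InW (B5 f) (fun g => f t g + ν x p * f p g + ν x q * f q g +
      ν x r * f r g + ν x 4 * f 4 g) := by
    intro x hx
    refine ((InW.self (B5 f) (U x)).smul (V π δ (U x) t)).congr fun g => ?_
    rw [hT, hU x hx]
    linear_combination (-(f t g + ν x p * f p g + ν x q * f q g +
      ν x r * f r g + ν x 4 * f 4 g)) * Vt (U x)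
  have w4 := hW 4 h4t
  have wp := hW p npt
  have wq := hW q nqt
  have wr := hW r nrt
  rw [z4] at w4
  rw [zp] at wp
  rw [zq] at wq
  rw [zr] at wr
  have st := S.sgn t
  have sp := S.sgn p
  have sq := S.sgn q
  have sr := S.sgn r
  have s4 := S.sgn 4
  have hc : κ 4 = 3 ∨ κ 4 = -3 ∨ κ 4 = 1 ∨ κ 4 = -1 := by
    rw [k4]
    exact sum3 np4 nq4 nr4
  have hsign : ∀ (k : ℤ), (k = 3 ∨ k = -3 ∨ k = 1 ∨ k = -1) → (k * k = 9 ↔ (k = 3 ∨ k = -3)) ∧
      (k * k = 1 ↔ (k = 1 ∨ k = -1)) := by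
    intro k hk
    rcases hk with rfl | rfl | rfl | rfl <;> norm_num
  have hcp : κ p = 3 ∨ κ p = -3 ∨ κ p = 1 ∨ κ p = -1 := by rw [kp]; exact sum3 nqp nrp n4p
  have hcq : κ q = 3 ∨ κ q = -3 ∨ κ q = 1 ∨ κ q = -1 := by rw [kq]; exact sum3 npq nrq n4q
  have hcr : κ r = 3 ∨ κ r = -3 ∨ κ r = 1 ∨ κ r = -1 := by rw [kr]; exact sum3 npr nqr n4r
  have hcase : κ 4 * κ 4 = 9 ∨ κ 4 * κ 4 = 1 := by
    rcases hc with h | h | h | h <;> rw [h] <;> norm_num
  rcases hcase with h9 | h1
  · -- all columns are constant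
    rw [h9] at hsqp hsqq hsqr
    have c4 := ((hsign _ hc).1).1 h9
    have cp := ((hsign _ hcp).1).1 hsqp
    have cq := ((hsign _ hcq).1).1 hsqq
    have cr := ((hsign _ hcr).1).1 hsqr
    -- the common values
    obtain ⟨e4, he4, a1, a2, a3⟩ := sum3_ext np4 nq4 nr4 k4 c4
    obtain ⟨ep, hep, b1, b2, b3⟩ := sum3_ext nqp nrp n4p kp cp
    obtain ⟨eq, heq, d1, d2, d3⟩ := sum3_ext npq nrq n4q kq cq
    obtain ⟨er, her, g1, g2, g3⟩ := sum3_ext npr nqr n4r kr cr
    rw [b3, d3, g3] at w4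
    rw [a1, d1, g1] at wp
    rw [a2, b1, g2] at wq
    rw [a3, b2, d2] at wr
    have x1 : ∀ g, ep * f p g = e4 * f 4 g := by
      intro g
      have := S.kil ((w4.sub wp).congr (f' := fun g => ep * f p g - e4 * f 4 g) fun g => by ring) 2
        (fun g => dif2 (sm hep (sp g)) (sm he4 (s4 g))) g
      linarith
    have x2 : ∀ g, eq * f q g = e4 * f 4 g := by
      intro g
      have := S.kil ((w4.sub wq).congr (f' := fun g => eq * f q g - e4 * f 4 g) fun g => by ring) 2
        (fun g => dif2 (sm heq (sq g)) (sm he4 (s4 g))) g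
      linarith
    have x3 : ∀ g, er * f r g = e4 * f 4 g := by
      intro g
      have := S.kil ((w4.sub wr).congr (f' := fun g => er * f r g - e4 * f 4 g) fun g => by ring) 2
        (fun g => dif2 (sm her (sr g)) (sm he4 (s4 g))) g
      linarith
    have key : ∀ v g, B5 f (g * v) = V π δ v t * (f t g + 3 * (e4 * f 4 g)) := by
      intro v g
      rw [hT]
      congr 1
      rcases L.all (π v 4) with h | h | h | h | h
      · exact absurd h (nt v 4 h4t)
      · rw [h, zp, a1, d1, g1]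
        linear_combination x2 g + x3 g
      · rw [h, zq, a2, b1, g2]
        linear_combination x1 g + x3 g
      · rw [h, zr, a3, b2, d2]
        linear_combination x1 g + x2 g
      · rw [h, z4, b3, d3, g3]
        linear_combination x1 g + x2 g + x3 g
    refine S.false_of_const fun v => ?_
    have k1 : ∀ g, B5 f g = V π δ 1 t * (f t g + 3 * (e4 * f 4 g)) := by
      intro g
      have := key 1 g
      rwa [mul_one] at this
    rcases Vts v with h | h <;> rcases Vts 1 with h' | h'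
    · left; intro g; rw [key, k1, h, h']
    · right; intro g; rw [key, k1, h, h']; ring
    · right; intro g; rw [key, k1, h, h']; ring
    · left; intro g; rw [key, k1, h, h']
  · -- the other case
    rw [h1] at hsqp hsqq hsqr
    have c4 := ((hsign _ hc).2).1 h1
    have cp := ((hsign _ hcp).2).1 hsqp
    have cq := ((hsign _ hcq).2).1 hsqq
    have cr := ((hsign _ hcr).2).1 hsqr
    have κs : ∀ y, y ≠ t → κ y * κ y = 1 := fun y hy => (hκsq y hy).trans h1
    -- the row sums
    have hrow : ∀ x, x ≠ t → ν x p * κ p + ν x q * κ q + ν x r * κ r + ν x 4 * κ 4 =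
        ν 4 p * κ p + ν 4 q * κ q + ν 4 r * κ r + ν 4 4 * κ 4 := by
      intro x hx
      have h2 : ∀ x', ν x' p * κ p + ν x' q * κ q + ν x' r * κ r + ν x' 4 * κ 4 =
          (∑ y, ν x' y * κ y) - ν x' t * κ t := by
        intro x'
        rw [L.sum]
        ring
      have h3 := hκE (U x) t
      rw [ht] at h3
      rw [h2, h2, νt, νt]
      have h4 : ∑ y, ν x y * κ y = ∑ y, ν 4 y * κ y := by
        rw [← Equiv.sum_comp (π (U x)) (fun y => ν x y * κ y)]
        refine Finset.sum_congr rfl fun y _ => ?_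
        have h5 := hE (U x) 4 y h4t
        have h6 := hκE (U x) y
        rw [hU x hx] at h5
        have h7 := S.dsq (U x) t
        have h8 := S.dsq (U x) y
        linear_combination (δ (U x) t * κ (π (U x) y)) * h5 + (δ (U x) y * ν 4 y) * h6 -
          ν x (π (U x) y) * κ (π (U x) y) * h7 + ν 4 y * κ y * h8
      rw [h4]
    have r4 : ν 4 p * κ p + ν 4 q * κ q + ν 4 r * κ r = 1 := by
      have h2 := hrow p npt
      have h3 := hrow q nqt
      have h4 := hrow r nrt
      have h5 := κs p npt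
      have h6 := κs q nqt
      have h7 := κs r nrt
      have h8 := h1
      rw [zp] at h2
      rw [zq] at h3
      rw [zr] at h4
      rw [z4] at h2 h3 h4
      have t1 : κ p * κ p = κ p * (ν q p + ν r p + ν 4 p) := by rw [kp]
      have t2 : κ q * κ q = κ q * (ν p q + ν r q + ν 4 q) := by rw [kq]
      have t3 : κ r * κ r = κ r * (ν p r + ν q r + ν 4 r) := by rw [kr]
      have t4 : κ 4 * κ 4 = κ 4 * (ν p 4 + ν q 4 + ν r 4) := by rw [k4]
      linarith
    have rp : ν p 4 * κ 4 + ν p q * κ q + ν p r * κ r = 1 := by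
      have h2 := hrow p npt
      rw [z4, zp] at h2
      linarith
    have rq : ν q 4 * κ 4 + ν q p * κ p + ν q r * κ r = 1 := by
      have h2 := hrow q nqt
      rw [z4, zq] at h2
      linarith
    have rr : ν r 4 * κ 4 + ν r p * κ p + ν r q * κ q = 1 := by
      have h2 := hrow r nrt
      rw [z4, zr] at h2
      linarith
    have fin := fin4 (B := B5 f) (fun h N hv g => S.kil h N hv g) (t := f t)
      (x := fun g => κ 4 * f 4 g) (y := fun g => κ p * f p g) (z := fun g => κ q * f q g)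
      (w := fun g => κ r * f r g) st (fun g => sm c4 (s4 g)) (fun g => sm cp (sp g))
      (fun g => sm cq (sq g)) (fun g => sm cr (sr g))
      (xy := ν 4 p * κ p) (xz := ν 4 q * κ q) (xw := ν 4 r * κ r)
      (yx := ν p 4 * κ 4) (yz := ν p q * κ q) (yw := ν p r * κ r)
      (zx := ν q 4 * κ 4) (zy := ν q p * κ p) (zw := ν q r * κ r)
      (wx := ν r 4 * κ 4) (wy := ν r p * κ p) (wz := ν r q * κ q)
      (sm n4p cp) (sm n4q cq) (sm n4r cr) (sm np4 c4) (sm npq cq) (sm npr cr)
      (sm nq4 c4) (sm nqp cp) (sm nqr cr) (sm nr4 c4) (sm nrp cp) (sm nrq cq)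
      r4 rp rq rr
      (by
        have : κ 4 * κ 4 = κ 4 * (ν p 4 + ν q 4 + ν r 4) := by rw [k4]
        linarith)
      (by
        have h5 := κs p npt
        have : κ p * κ p = κ p * (ν q p + ν r p + ν 4 p) := by rw [kp]
        linarith)
      (by
        have h5 := κs q nqt
        have : κ q * κ q = κ q * (ν p q + ν r q + ν 4 q) := by rw [kq]
        linarith)
      (by
        have h5 := κs r nrt
        have : κ r * κ r = κ r * (ν p r + ν q r + ν 4 r) := by rw [kr]
        linarith)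
      (w4.congr fun g => by
        linear_combination (ν 4 p * f p g) * κs p npt + (ν 4 q * f q g) * κs q nqt +
          (ν 4 r * f r g) * κs r nrt)
      (wp.congr fun g => by
        linear_combination (ν p 4 * f 4 g) * h1 + (ν p q * f q g) * κs q nqt +
          (ν p r * f r g) * κs r nrt)
      (wq.congr fun g => by
        linear_combination (ν q 4 * f 4 g) * h1 + (ν q p * f p g) * κs p npt +
          (ν q r * f r g) * κs r nrt)
      (wr.congr fun g => by
        linear_combination (ν r 4 * f 4 g) * h1 + (ν r p * f p g) * κs p npt +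
          (ν r q * f q g) * κs q nqt)
    obtain ⟨g, hg⟩ := S.ne
    apply hg
    have h2 := fin (g * (U 4)⁻¹)
    have h3 := hT (U 4) (g * (U 4)⁻¹)
    rw [inv_mul_cancel_right, hU 4 h4t, z4] at h3
    rw [h3]
    have h4 := κs p npt
    have h5 := κs q nqt
    have h6 := κs r nrt
    linear_combination (V π δ (U 4) t) * h2 -
      V π δ (U 4) t * ((ν 4 p * f p (g * (U 4)⁻¹)) * h4 + (ν 4 q * f q (g * (U 4)⁻¹)) * h5 +
          (ν 4 r * f r (g * (U 4)⁻¹)) * h6)

end Bad

end FourOrb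

end Pool.Agent.H86.CM5
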