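import Pool.Agent.H86.CM5.Few

/-!
# De Rham-Betti classes and Hodge classes: the criterion of small functions, for the monomials that
# occur in a class
-/

set_option autoImplicit false
set_option linter.unusedSectionVars false
set_option linter.unusedVariables false

namespace Pool.Agent.H86.CM5

open NumberField Pool.Agent.H204R3.CM Pool.Agent.W547.KB Pool.Agent.W537.PC Equiv Module

noncomputable section

/-- The monomial `I` occurs in the class `f`. -/
def Coef {X : CMAV} {κ : Type} [Fintype κ] [DecidableEq κ] (f : X.H1 [⋀^κ]→ₗ[ℚ] ℚ)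
    (I : κ → Wt X ℂ) : Prop :=
  ∃ M : MultilinearMap ℂ (fun _ : κ => Wt X ℂ → ℂ) ℂ,
    (∀ v : κ → X.H1, M (fun l => chiX (v l)) = ((f v : ℚ) : ℂ)) ∧ M (eI I) ≠ 0

/-- The letters of a monomial that occurs are different. -/
theorem Coef.injective {X : CMAV} {κ : Type} [Fintype κ] [DecidableEq κ]
    {f : X.H1 [⋀^κ]→ₗ[ℚ] ℚ} {I : κ → Wt X ℂ} (h : Coef f I) : Function.Injective I := by
  classical
  obtain ⟨M, hM, hI⟩ := h
  intro a b hab
  by_contra hne
  apply hI
  have h1 : M.domDomCongr (Equiv.swap a b) = -M := by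
    refine ext_chi fun v => ?_
    have h2 : (M.domDomCongr (Equiv.swap a b)) (fun l => chiX (v l)) =
        M (fun l => chiX ((v ∘ Equiv.swap a b) l)) := rfl
    have h3 := f.map_swap v hne
    rw [h2, hM, h3, _root_.neg_apply, hM]
    push_cast
    rfl
  have h2 := DFunLike.congr_fun h1 (eI I)
  rw [_root_.neg_apply, MultilinearMap.domDomCongr_apply] at h2
  have h3 : (fun i => eI I (Equiv.swap a b i)) = eI I := by
    funext i
    unfold eI
    have h4 : I (Equiv.swap a b i) = I i := by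
      by_cases ha : i = a
      · rw [ha, Equiv.swap_apply_left, hab]
      · by_cases hb : i = b
        · rw [hb, Equiv.swap_apply_right, hab]
        · rw [Equiv.swap_apply_of_ne_of_ne ha hb]
    rw [h4]
  rw [h3] at h2
  exact self_eq_neg.1 h2

variable {L : Type} [Field L] [NumberField L] [IsCMField L] [IsGalois ℚ L] (j : L →+* ℂ)
  (P : PeriodSystem)

theorem hodge_of_drb_gen (hB : P.Bost) (hD : P.Deligne) (X : CMAV)
    (hj : ∀ i, ∀ ψ : (X.factor i).E →+* ℂ, ∃ φ : (X.factor i).E →+* L, j.comp φ = ψ) (k : ℕ)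
    (f : X.H1 [⋀^Fin (2 * k)]→ₗ[ℚ] ℚ)
    (hsm : ∀ I : Fin (2 * k) → Wt X L,
      (∀ σ : L ≃ₐ[ℚ] L, Coef f (fun l => (⟨(I l).1, j.comp (σ • (I l).2)⟩ : Wt X ℂ))) →
      (fun σ : L ≃ₐ[ℚ] L => ∑ l, (⟨X.factor (I l).1, (I l).2⟩ : Letter L).s j σ) ≠ 0 →
      Small (cc L) (fun σ : L ≃ₐ[ℚ] L =>
        ∑ l, (⟨X.factor (I l).1, (I l).2⟩ : Letter L).s j σ))
    (hf : P.IsDRB X k f) : IsHodge X.per f := by
  classical
  obtain ⟨c, hc⟩ := form_coeff (E := fun i : X.I => (X.factor i).E) (fun i : X.I => i) j hj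
    f.toMultilinearMap
  -- the periods of the monomials
  have hper : ∀ I : Fin (2 * k) → Wt X L, c I ≠ 0 → ∀ σ : L ≃ₐ[ℚ] L,
      Coef f (fun l => (⟨(I l).1, j.comp (σ • (I l).2)⟩ : Wt X ℂ)) ∧
      (∏ l, P.th (⟨(I l).1, j.comp (σ • (I l).2)⟩ : Wt X ℂ)) / (2 * Real.pi * Complex.I) ^ k ∈
        algebraicClosure ℚ ℂ := by
    intro I hI σ
    let τ : L →+* ℂ := j.comp (σ : L →+* L)
    have hτ : ∀ i, ∀ ψ : (X.factor i).E →+* ℂ, ∃ φ : (X.factor i).E →+* L, τ.comp φ = ψ := by
      intro i ψ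
      obtain ⟨φ, rfl⟩ := hj i ψ
      refine ⟨σ.symm • φ, RingHom.ext fun x => ?_⟩
      change j (σ (σ.symm (φ x))) = j (φ x)
      rw [AlgEquiv.apply_symm_apply]
    let e : (Fin (2 * k) → Wt X L) ≃ (Fin (2 * k) → Wt X ℂ) :=
      Equiv.arrowCongr (Equiv.refl _)
        (xEquiv (E := fun i : X.I => (X.factor i).E) (fun i : X.I => i) τ hτ)
    let M : MultilinearMap ℂ (fun _ : Fin (2 * k) => Wt X ℂ → ℂ) ℂ :=
      formOf (E := fun i : X.I => (X.factor i).E) (fun i : X.I => i)
        (fun I' => τ (c (e.symm I')))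
    have hM : ∀ v : Fin (2 * k) → X.H1, M (fun l => chiX (v l)) = ((f v : ℚ) : ℂ) := by
      intro v
      change formOf (E := fun i : X.I => (X.factor i).E) (fun i : X.I => i)
        (fun I' => τ (c (e.symm I'))) (fun l => chiX (v l)) = _
      rw [formOf_apply]
      have h2 := congrArg τ (hc v)
      rw [map_ratCast] at h2
      refine Eq.trans ?_ h2.symm
      rw [map_sum]
      refine (Fintype.sum_equiv e _ _ fun I => ?_).symm
      rw [map_mul, map_prod, Equiv.symm_apply_apply]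
      rfl
    have hMe : M (eI (e I)) = τ (c I) := by
      have h3 := formOf_single (E := fun i : X.I => (X.factor i).E) (fun i : X.I => i)
        (fun I' => τ (c (e.symm I'))) (e I) (fun _ => (1 : ℂ))
      rw [Finset.prod_const_one, mul_one, Equiv.symm_apply_apply] at h3
      exact h3
    have h4 := alg_cx P hM hf (e I) (by
      rw [hMe]
      exact fun h0 => hI ((map_eq_zero τ).1 h0)) (by
      rw [hMe, mem_algebraicClosure_iff]
      have h5 : IsAlgebraic ℚ (c I) := Algebra.IsAlgebraic.isAlgebraic _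
      exact (isAlgebraic_algHom_iff (RingHom.equivRatAlgHom L ℂ τ) τ.injective).2 h5)
    refine ⟨⟨M, hM, ?_⟩, h4⟩
    have h6 : M (eI (e I)) ≠ 0 := by
      rw [hMe]
      exact fun h0 => hI ((map_eq_zero τ).1 h0)
    exact h6
  -- the monomials are balanced
  have hbal : ∀ I : Fin (2 * k) → Wt X L, c I ≠ 0 → Balanced (fun l => St j (I l)) := by
    intro I hI σ
    let w : Multiset (Letter L) := (Finset.univ : Finset (Fin (2 * k))).val.map
      (fun l => (⟨X.factor (I l).1, (I l).2⟩ : Letter L))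
    have hw : ∀ τ, AlgW j P (w.map (Letter.act τ)) := by
      intro τ
      have h1 := pow_mem (hper I hI τ).2 2
      unfold AlgW
      have h2 : ((w.map (Letter.act τ)).map (P.rl j)).prod =
          ∏ l, P.rl j ((⟨X.factor (I l).1, (I l).2⟩ : Letter L).act τ) := by
        simp only [w]
        rw [Multiset.map_map, Multiset.map_map]
        rfl
      rw [h2]
      have h3 : ((∏ l, P.th (⟨(I l).1, j.comp (τ • (I l).2)⟩ : Wt X ℂ)) /
          (2 * Real.pi * Complex.I) ^ k) ^ 2 =
          ∏ l, P.rl j ((⟨X.factor (I l).1, (I l).2⟩ : Letter L).act τ) := by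
        unfold PeriodSystem.rl
        rw [Finset.prod_div_distrib, Finset.prod_pow, div_pow, Finset.prod_const,
          Finset.card_univ, Fintype.card_fin, ← pow_mul, mul_comm k 2]
        rfl
      rwa [h3] at h1
    have h2 : ∀ σ : L ≃ₐ[ℚ] L, (w.map (fun x => x.s j σ)).sum =
        ∑ l, (⟨X.factor (I l).1, (I l).2⟩ : Letter L).s j σ := by
      intro σ
      simp only [w]
      rw [Multiset.map_map]
      rfl
    have h1 := balanced_of_rl_small j P hB hD w hw (by
      simp only [h2]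
      exact hsm I fun σ => (hper I hI σ).1) σ
    rw [h2] at h1
    refine Eq.trans (Finset.sum_congr rfl fun l _ => ?_) h1
    by_cases h : σ ∈ St j (I l)
    · rw [if_pos h]
      exact (Letter.s_pos j (⟨X.factor (I l).1, (I l).2⟩ : Letter L) σ h).symm
    · rw [if_neg h]
      exact (Letter.s_neg j (⟨X.factor (I l).1, (I l).2⟩ : Letter L) σ h).symm
  -- the class is a sum of traces
  have hsum : ∀ v : Fin (2 * k) → X.H1,
      ((Fintype.card (Perm (Fin (2 * k))) : ℕ) : L) * ((f v : ℚ) : L) =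
        ∑ I : Fin (2 * k) → Wt X L, c I * mono I v := by
    intro v
    have h1 : ∀ σ : Perm (Fin (2 * k)), ((f v : ℚ) : L) = ((Perm.sign σ : ℤ) : L) *
        ∑ I : Fin (2 * k) → Wt X L, c I * ∏ l, ev (v (σ l)) (I l) := by
      intro σ
      have h2 : ((f (fun l => v (σ l)) : ℚ) : L) =
          ∑ I : Fin (2 * k) → Wt X L, c I * ∏ l, ev (v (σ l)) (I l) := hc (fun l => v (σ l))
      rw [← h2]
      have h3 : f (fun l => v (σ l)) = Perm.sign σ • f v := f.map_perm v σ
      rw [h3, Units.smul_def, zsmul_eq_mul, Rat.cast_mul, Rat.cast_intCast, ← mul_assoc,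
        ← Int.cast_mul, ← Units.val_mul, Int.units_mul_self, Units.val_one, Int.cast_one, one_mul]
    have h4 : ((Fintype.card (Perm (Fin (2 * k))) : ℕ) : L) * ((f v : ℚ) : L) =
        ∑ σ : Perm (Fin (2 * k)), ((Perm.sign σ : ℤ) : L) *
          ∑ I : Fin (2 * k) → Wt X L, c I * ∏ l, ev (v (σ l)) (I l) := by
      rw [← Finset.sum_congr rfl (fun σ _ => h1 σ), Finset.sum_const, Finset.card_univ,
        nsmul_eq_mul]
    rw [h4]
    simp only [Finset.mul_sum]
    rw [Finset.sum_comm]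
    refine Finset.sum_congr rfl fun I _ => ?_
    rw [mono_apply, Finset.mul_sum]
    refine Finset.sum_congr rfl fun σ _ => ?_
    ring
  set q : ℚ := (finrank ℚ L : ℚ) * (Fintype.card (Perm (Fin (2 * k))) : ℕ) with hq
  have hq0 : q ≠ 0 := mul_ne_zero (Nat.cast_ne_zero.2 finrank_pos.ne')
    (Nat.cast_ne_zero.2 Fintype.card_ne_zero)
  have h5 : q • f = ∑ I : Fin (2 * k) → Wt X L, trForm (c I) I := by
    ext v
    let ev0 : (X.H1 [⋀^Fin (2 * k)]→ₗ[ℚ] ℚ) →+ ℚ :=
      { toFun := fun g => g v, map_zero' := rfl, map_add' := fun _ _ => rfl }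
    have h8 : (∑ I : Fin (2 * k) → Wt X L, trForm (c I) I) v =
        ∑ I : Fin (2 * k) → Wt X L, trForm (c I) I v := map_sum ev0 _ _
    rw [AlternatingMap.smul_apply, h8]
    have h6 := congrArg (Algebra.trace ℚ L) (hsum v)
    have h7 : ((Fintype.card (Perm (Fin (2 * k))) : ℕ) : L) * ((f v : ℚ) : L) =
        algebraMap ℚ L ((Fintype.card (Perm (Fin (2 * k))) : ℕ) * f v) := by
      rw [map_mul, map_natCast, eq_ratCast]
    rw [h7, Algebra.trace_algebraMap, map_sum, nsmul_eq_mul] at h6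
    rw [smul_eq_mul, hq, mul_assoc]
    exact h6
  have h6 : IsHodge X.per (q • f) := by
    rw [h5]
    refine hodge_sum _ _ fun I _ => ?_
    by_cases hI : c I = 0
    · have h7 : trForm (c I) I = 0 := by
        ext v
        rw [trForm_apply, hI, zero_mul, map_zero]
        rfl
      rw [h7]
      exact hodge_zero X _
    · exact isHodge_trForm j I (hbal I hI) (c I)
  have h7 := hodge_smul q⁻¹ h6
  rwa [smul_smul, inv_mul_cancel₀ hq0, one_smul] at h7

end

end Pool.Agent.H86.CM5
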