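import Pool.Agent.H86.CM5.Assemble

/-!
# Classes with one level of Hodge types besides the middle
-/

set_option autoImplicit false
set_option linter.unusedSectionVars false
set_option linter.unusedVariables false

namespace Pool.Agent.H86.CM5

open NumberField Pool.Agent.H204R3.CM Pool.Agent.W547.KB Pool.Agent.W537.PC Equiv Module

noncomputable section

/-- Let `T` be the tangent space of a complex torus `A`, let `W = H_1(A, ℚ)` and let `per : W → T` be
the inclusion. The class `f ∈ H^κ(A, ℚ)` has only Hodge components of the types `(p, q)` with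
`p - q = 0`, `N` or `-N`: the multiplication by the complex numbers `z` of absolute value `1` acts on
the real multilinear extension of `f` by the functions `1` and `z ^ N`, `z ^ (-N)` only. -/
def OneLevel {W T : Type*} [AddCommGroup W] [Module ℚ W] [AddCommGroup T] [Module ℂ T]
    (per : W →+ T) {κ : Type*} (N : ℕ) (f : W [⋀^κ]→ₗ[ℚ] ℚ) : Prop :=
  ∃ ψ : MultilinearMap ℝ (fun _ : κ => T) ℝ,
    (∀ v : κ → W, ψ (fun l => per (v l)) = f v) ∧
      ∃ (a : (κ → T) → ℝ) (b : (κ → T) → ℂ), ∀ z : ℂ, ‖z‖ = 1 → ∀ u : κ → T,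
        ψ (fun l => z • u l) = a u + (z ^ N * b u).re

theorem exp_ne {e : ℤ} {M : ℕ} (he : e ≠ 0) (hM : e.natAbs < M) :
    Complex.exp ((2 * Real.pi / M : ℝ) * Complex.I * e) ≠ 1 := by
  intro h
  obtain ⟨n, hn⟩ := Complex.exp_eq_one_iff.1 h
  have hM0 : (M : ℂ) ≠ 0 := by
    have : 0 < M := by omega
    exact_mod_cast this.ne'
  have hpi : (2 * Real.pi * Complex.I : ℂ) ≠ 0 := Complex.two_pi_I_ne_zero
  have h1 : (e : ℂ) = n * M := by
    have h2 : (2 * Real.pi * Complex.I : ℂ) * e = (2 * Real.pi * Complex.I) * (n * M) := by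
      push_cast at hn
      field_simp at hn
      linear_combination (2 * Real.pi * Complex.I : ℂ) * hn
    exact mul_left_cancel₀ hpi h2
  have h3 : e = n * M := by exact_mod_cast h1
  have h4 : n ≠ 0 := by
    rintro rfl
    simp at h3
    exact he h3
  have h5 : e.natAbs = n.natAbs * M := by
    rw [h3, Int.natAbs_mul, Int.natAbs_natCast]
  have h6 : 1 ≤ n.natAbs := Int.natAbs_pos.2 h4
  have h7 : M ≤ n.natAbs * M := Nat.le_mul_of_pos_left M h6
  omega

section Gen

variable {ι J : Type*} [Fintype J] {E : ι → Type*} [∀ i, Field (E i)] [∀ i, NumberField (E i)]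
  {Φ : ∀ i, Set (E i →+* ℂ)} (t : J → ι) (hΦ : ∀ i, IsCMType (Φ i)) {κ : Type*} [Fintype κ]

open Classical in
include hΦ in
/-- The coefficients of a form with one level. -/
theorem level_of_type [DecidableEq κ] (c : (κ → XX E t ℂ) → ℂ) (N : ℕ)
    (ψ : MultilinearMap ℝ (fun _ : κ => Tan Φ t) ℝ)
    (h1 : ∀ v : κ → (∀ j, E (t j)),
      (ψ (fun l => per Φ t (v l)) : ℂ) = ∑ I : κ → XX E t ℂ, c I * ∏ l, chi E t ℂ (v l) (I l))
    (a : (κ → Tan Φ t) → ℝ) (b : (κ → Tan Φ t) → ℂ)
    (h2 : ∀ z : ℂ, ‖z‖ = 1 → ∀ u : κ → Tan Φ t,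
      ψ (fun l => z • u l) = a u + (z ^ N * b u).re)
    (I : κ → XX E t ℂ) (hI : c I ≠ 0) :
    (∑ l, (if (I l).2 ∈ Φ (t (I l).1) then (1 : ℤ) else -1)) = 0 ∨
      (∑ l, (if (I l).2 ∈ Φ (t (I l).1) then (1 : ℤ) else -1)) = N ∨
      (∑ l, (if (I l).2 ∈ Φ (t (I l).1) then (1 : ℤ) else -1)) = -N := by
  let F := formOf t c
  -- the real multilinear maps on the tangent space agree
  let G1 : MultilinearMap ℝ (fun _ : κ => Tan Φ t) ℂ :=
    Complex.ofRealCLM.toLinearMap.compMultilinearMap ψ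
  let G2 : MultilinearMap ℝ (fun _ : κ => Tan Φ t) ℂ :=
    (F.restrictScalars ℝ).compLinearMap (fun _ => theta t hΦ)
  have hG : G1 = G2 := by
    refine multilinear_ext_span _ _ _ (span_per t hΦ) ?_
    intro v hv
    choose w hw using hv
    have hv' : v = fun l => per Φ t (w l) := funext fun l => (hw l).symm
    rw [hv']
    change ((ψ (fun l => per Φ t (w l)) : ℝ) : ℂ) = formOf t c (fun l => theta t hΦ (per Φ t (w l)))
    rw [h1, formOf_apply]
    simp only [theta_per]
  have hG' : ∀ u : κ → Tan Φ t, ((ψ u : ℝ) : ℂ) = F (fun l => theta t hΦ (u l)) := by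
    intro u
    exact DFunLike.congr_fun hG u
  by_contra hne
  push Not at hne
  set e : ℤ := ∑ l, (if (I l).2 ∈ Φ (t (I l).1) then (1 : ℤ) else -1) with he
  obtain ⟨M, hM⟩ : ∃ M : ℕ, M = e.natAbs + N + 1 := ⟨_, rfl⟩
  let D : ℂ → (XX E t ℂ → ℂ) →ₗ[ℂ] (XX E t ℂ → ℂ) := fun z =>
    { toFun := fun w x => dz t Φ z x * w x
      map_add' := fun a b => by funext x; simp only [Pi.add_apply, mul_add]
      map_smul' := fun a b => by
        funext x
        simp only [Pi.smul_apply, smul_eq_mul, RingHom.id_apply]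
        ring }
  -- the real points
  have hR : ∀ z : ℂ, ‖z‖ = 1 → ∀ w : κ → (∀ j, E (t j)),
      F (fun l => D z (theta t hΦ (per Φ t (w l)))) =
        (a (fun l => per Φ t (w l)) : ℂ) + (z ^ N * b (fun l => per Φ t (w l)) +
          starRingEnd ℂ (z ^ N * b (fun l => per Φ t (w l)))) / 2 := by
    intro z hz w
    have h3 := h2 z hz (fun l => per Φ t (w l))
    have h4 := hG' (fun l => z • per Φ t (w l))
    rw [h3] at h4
    have h5 : F (fun l => D z (theta t hΦ (per Φ t (w l)))) =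
        F (fun l => theta t hΦ (z • per Φ t (w l))) := by
      congr 1
      funext l
      exact (theta_smul t hΦ z _).symm
    rw [h5, ← h4]
    push_cast
    rw [Complex.re_eq_add_conj]
  -- the complex numbers
  obtain ⟨ζ, hζ⟩ : ∃ ζ : ℂ, ζ = Complex.exp ((2 * Real.pi / M : ℝ) * Complex.I) := ⟨_, rfl⟩
  have hζ1 : ‖ζ‖ = 1 := by rw [hζ]; exact Complex.norm_exp_ofReal_mul_I _
  have hζn : ∀ n : ℕ, ‖ζ ^ n‖ = 1 := fun n => by rw [norm_pow, hζ1, one_pow]
  obtain ⟨w, hw⟩ : ∃ w : ℂ, w = ζ ^ N := ⟨_, rfl⟩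
  obtain ⟨w', hw'⟩ : ∃ w' : ℂ, w' = starRingEnd ℂ (ζ ^ N) := ⟨_, rfl⟩
  have hww : w * w' = 1 := by
    rw [hw, hw', Complex.mul_conj, Complex.normSq_eq_norm_sq, hζn]
    norm_num
  -- the operator
  have hH : F.compLinearMap (fun _ => D (ζ ^ 3)) - (1 + w + w') • F.compLinearMap (fun _ => D (ζ ^ 2))
      + (1 + w + w') • F.compLinearMap (fun _ => D (ζ ^ 1)) -
      F.compLinearMap (fun _ => D (ζ ^ 0)) = 0 := by
    refine multilinear_ext_span _ _ _ (span_chi t) ?_
    intro v hv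
    choose x hx using hv
    have hv' : v = fun l => theta t hΦ (per Φ t (x l)) :=
      funext fun l => by rw [theta_per, hx l]
    rw [hv']
    simp only [_root_.sub_apply, _root_.add_apply, _root_.smul_apply, smul_eq_mul,
      MultilinearMap.compLinearMap_apply, _root_.zero_apply]
    rw [hR _ (hζn 3), hR _ (hζn 2), hR _ (hζn 1), hR _ (hζn 0)]
    have p : ∀ n : ℕ, (ζ ^ n) ^ N = w ^ n := fun n => by rw [hw, ← pow_mul, ← pow_mul, mul_comm]
    have p' : ∀ n : ℕ, starRingEnd ℂ (w ^ n) = w' ^ n := fun n => by rw [map_pow, hw, hw']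
    simp only [p, map_mul, p']
    generalize (a (fun l => per Φ t (x l)) : ℂ) = A
    generalize (b (fun l => per Φ t (x l)) : ℂ) = B
    generalize (starRingEnd ℂ B) = B'
    linear_combination (B / 2 * (1 - w) + B' / 2 * (1 - w')) * hww
  have h3 := DFunLike.congr_fun hH (fun l => Pi.single (I l) (1 : ℂ))
  simp only [_root_.sub_apply, _root_.add_apply, _root_.smul_apply, smul_eq_mul,
      MultilinearMap.compLinearMap_apply, _root_.zero_apply] at h3
  have h4 : ∀ z, (fun l => D z (Pi.single (I l) (1 : ℂ))) =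
      fun l => Pi.single (I l) (dz t Φ z (I l)) := by
    intro z
    funext l x
    change dz t Φ z x * (Pi.single (I l) (1 : ℂ) : XX E t ℂ → ℂ) x = _
    by_cases h : x = I l
    · subst h
      rw [Pi.single_eq_same, Pi.single_eq_same, mul_one]
    · rw [Pi.single_eq_of_ne h, Pi.single_eq_of_ne h, mul_zero]
  have h5 : ∀ z, F (fun l => D z (Pi.single (I l) (1 : ℂ))) = c I * ∏ l, dz t Φ z (I l) := by
    intro z
    rw [h4]
    simp only [F]
    rw [formOf_single]
  rw [h5, h5, h5, h5] at h3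
  obtain ⟨y, hy⟩ : ∃ y, y = ∏ l, dz t Φ ζ (I l) := ⟨_, rfl⟩
  have h6 : ∀ n : ℕ, ∏ l, dz t Φ (ζ ^ n) (I l) = y ^ n := by
    intro n
    rw [hy, ← Finset.prod_pow]
    refine Finset.prod_congr rfl fun l _ => ?_
    by_cases h : (I l).2 ∈ Φ (t (I l).1)
    · simp only [dz, h, if_true]
    · simp only [dz, h, if_false, map_pow]
  rw [h6, h6, h6, h6] at h3
  have h7 : c I * ((y - 1) * ((y - w) * (y - w'))) = 0 := by
    linear_combination h3 + (c I * (y - 1)) * hww
  have h8 : y = Complex.exp ((2 * Real.pi / M : ℝ) * Complex.I * e) := by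
    have h7 : ∀ l, dz t Φ ζ (I l) = Complex.exp ((2 * Real.pi / M : ℝ) * Complex.I *
        ((if (I l).2 ∈ Φ (t (I l).1) then (1 : ℤ) else -1 : ℤ) : ℂ)) := by
      intro l
      by_cases h : (I l).2 ∈ Φ (t (I l).1)
      · simp only [dz, h, if_true, Int.cast_one, mul_one, hζ]
      · simp only [dz, h, if_false, hζ]
        rw [← Complex.exp_conj, map_mul, Complex.conj_ofReal, Complex.conj_I]
        push_cast
        congr 1
        ring
    rw [hy, Finset.prod_congr rfl (fun l _ => h7 l), ← Complex.exp_sum, ← Finset.mul_sum]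
    congr 2
    rw [he]
    push_cast
    rfl
  have hwe : w = Complex.exp ((2 * Real.pi / M : ℝ) * Complex.I * N) := by
    rw [hw, hζ, ← Complex.exp_nat_mul]
    congr 1
    ring
  have hwe' : w' = Complex.exp (-((2 * Real.pi / M : ℝ) * Complex.I * N)) := by
    rw [Complex.exp_neg, ← hwe]
    exact (eq_inv_of_mul_eq_one_right hww)
  rcases mul_eq_zero.1 h7 with h | h
  · exact hI h
  rcases mul_eq_zero.1 h with h | h
  · refine exp_ne (e := e) (M := M) hne.1 (by omega) ?_
    rw [← h8]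
    exact sub_eq_zero.1 h
  rcases mul_eq_zero.1 h with h | h
  · have h9 : e - N ≠ 0 := sub_ne_zero.2 hne.2.1
    refine exp_ne (e := e - N) (M := M) h9 (by omega) ?_
    push_cast
    have h10 : ((2 * Real.pi / M : ℝ) : ℂ) * Complex.I * (e - N) =
        (2 * Real.pi / M : ℝ) * Complex.I * e - (2 * Real.pi / M : ℝ) * Complex.I * N := by ring
    push_cast at h10
    rw [h10, Complex.exp_sub]
    have h11 := sub_eq_zero.1 h
    rw [h8, hwe] at h11
    push_cast at h11
    rw [h11]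
    exact div_self (Complex.exp_ne_zero _)
  · have h9 : e + N ≠ 0 := fun h => hne.2.2 (by omega)
    refine exp_ne (e := e + N) (M := M) h9 (by omega) ?_
    push_cast
    have h10 : ((2 * Real.pi / M : ℝ) : ℂ) * Complex.I * (e + N) =
        (2 * Real.pi / M : ℝ) * Complex.I * e + (2 * Real.pi / M : ℝ) * Complex.I * N := by ring
    push_cast at h10
    rw [h10, Complex.exp_add]
    have h11 := sub_eq_zero.1 h
    rw [h8, hwe', Complex.exp_neg] at h11
    push_cast at h11
    rw [h11]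
    exact inv_mul_cancel₀ (Complex.exp_ne_zero _)

end Gen

theorem level_of_coef {X : CMAV} {κ : Type} [Fintype κ] [DecidableEq κ] {N : ℕ}
    {f : X.H1 [⋀^κ]→ₗ[ℚ] ℚ} (hf : OneLevel X.per N f) {I : κ → Wt X ℂ} (hI : Coef f I)
    (s : κ → ℤ) (hs : ∀ l, (I l).2 ∈ (X.factor (I l).1).Φ → s l = 1)
    (hs' : ∀ l, (I l).2 ∉ (X.factor (I l).1).Φ → s l = -1) :
    ∑ l, s l = 0 ∨ ∑ l, s l = N ∨ ∑ l, s l = -N := by
  classical
  obtain ⟨M, hM, hMI⟩ := hI
  obtain ⟨ψ, hψ1, a, b, hψ2⟩ := hf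
  have h1 := level_of_type (E := fun i => (X.factor i).E) (Φ := fun i => (X.factor i).Φ)
    (fun i : X.I => i) (fun i => (X.factor i).isCMType) (fun I => M (eI I)) N ψ (by
    intro v
    have h2 := hψ1 v
    have h3 : ((ψ (fun l => X.per (v l)) : ℝ) : ℂ) = ((f v : ℚ) : ℂ) := by
      rw [h2]
      push_cast
      rfl
    refine Eq.trans h3 ?_
    rw [← hM v, expand]
    rfl) a b hψ2 I hMI
  have h2 : ∑ l, s l = ∑ l, (if (I l).2 ∈ (X.factor (I l).1).Φ then (1 : ℤ) else -1) := by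
    refine Finset.sum_congr rfl fun l _ => ?_
    by_cases h : (I l).2 ∈ (X.factor (I l).1).Φ
    · rw [if_pos h, hs l h]
    · rw [if_neg h, hs' l h]
  rw [h2]
  exact h1

variable (P : PeriodSystem)

/-- **One level.** -/
theorem hodge_of_drb_level (hB : P.Bost) (hD : P.Deligne) (X : CMAV) (k N : ℕ)
    (f : X.H1 [⋀^Fin (2 * k)]→ₗ[ℚ] ℚ) (hf : P.IsDRB X k f) (hN : OneLevel X.per N f) :
    IsHodge X.per f := by
  rcases isEmpty_or_nonempty (Fin (2 * k)) with hκ | hκ
  · exact hodge_unit f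
  rcases isEmpty_or_nonempty X.I with hI | hI
  · exact hodge_of_empty f (Or.inr hI)
  obtain ⟨L, _, _, _, _, j, hj, hgen⟩ := exists_cm' X
  refine hodge_of_drb_gen j P hB hD X hj k f (fun I hI hne => ?_) hf
  have hodd : ∀ σ : L ≃ₐ[ℚ] L, ∑ l, (⟨X.factor (I l).1, (I l).2⟩ : Letter L).s j (cc L * σ) =
      - ∑ l, (⟨X.factor (I l).1, (I l).2⟩ : Letter L).s j σ := by
    intro σ
    simp only [Letter.s_cc, Finset.sum_neg_distrib]
  refine small_of_inW hodd (InW.one _) ?_ N fun σ => ?_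
  · by_contra h
    push Not at h
    exact hne (funext h)
  · exact level_of_coef hN (hI σ) (fun l => (⟨X.factor (I l).1, (I l).2⟩ : Letter L).s j σ)
      (fun l h => Letter.s_pos j _ σ h) (fun l h => Letter.s_neg j _ σ h)

end

end Pool.Agent.H86.CM5
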