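import Pool.Agent.H86.CM5.Final5

/-!
# At most five pairs of letters
-/

set_option autoImplicit false
set_option linter.unusedSectionVars false

namespace Pool.Agent.H86.CM5

open Pool.Agent.W537.PC

/-- `e` is a family of representatives of the pairs `{w, cj w}`. -/
structure Sec {W ι : Type} (cj : W → W) (e : ι → W) : Prop where
  inj : Function.Injective e
  disj : ∀ i j, e i ≠ cj (e j)
  surj : ∀ w, ∃ i, w = e i ∨ w = cj (e i)

/-- Letters: signs with an action of the group. -/
structure Lett {G W : Type} [Group G] (c : G) (act : G → W → W) (cj : W → W) (s : W → G → ℤ) :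
    Prop where
  one : ∀ w, act 1 w = w
  mul : ∀ u v w, act (u * v) w = act u (act v w)
  comm : ∀ u w, act u (cj w) = cj (act u w)
  inv : ∀ w, cj (cj w) = w
  sign : ∀ w g, s w g = 1 ∨ s w g = -1
  sact : ∀ w u g, s w (g * u) = s (act u w) g
  scj : ∀ w g, s (cj w) g = - s w g
  odd : ∀ w g, s w (c * g) = - s w g

section Exists

variable {G W : Type} [Group G] [Fintype G] {c : G} {act : G → W → W} {cj : W → W}
  {s : W → G → ℤ}

theorem Lett.ne (H : Lett c act cj s) (w : W) : cj w ≠ w := by
  intro h
  have h1 := H.scj w 1
  rw [h] at h1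
  rcases H.sign w 1 with h2 | h2 <;> rw [h2] at h1 <;> norm_num at h1

theorem Lett.act_inj (H : Lett c act cj s) {u : G} {w w' : W} (h : act u w = act u w') :
    w = w' := by
  have h1 := congrArg (act u⁻¹) h
  rwa [← H.mul, ← H.mul, inv_mul_cancel, H.one, H.one] at h1

theorem Lett.cj_inj (H : Lett c act cj s) {w w' : W} (h : cj w = cj w') : w = w' := by
  rw [← H.inv w, h, H.inv]

theorem exists_sys {ι : Type} [Fintype ι] [DecidableEq ι] (H : Lett c act cj s) {e : ι → W}
    (he : Sec cj e) : ∃ (π : G → Equiv.Perm ι) (δ : G → ι → ℤ), Sys c (fun i => s (e i)) π δ := by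
  classical
  choose p hp using fun (u : G) (i : ι) => he.surj (act u (e i))
  have hpinj : ∀ u, Function.Injective (p u) := by
    intro u i k h
    rcases hp u i with h1 | h1 <;> rcases hp u k with h2 | h2
    · rw [h, ← h2] at h1
      exact he.inj (H.act_inj h1)
    · exfalso
      rw [h] at h1
      have h3 : act u (e i) = act u (cj (e k)) := by rw [H.comm, h2, H.inv, h1]
      exact he.disj i k (H.act_inj h3)
    · exfalso
      rw [h, ← h2, ← H.comm] at h1
      exact he.disj i k (H.act_inj h1)
    · rw [h, ← h2] at h1
      exact he.inj (H.act_inj h1)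
  let δ : G → ι → ℤ := fun u i => if act u (e i) = e (p u i) then 1 else -1
  have hδ : ∀ u i g, s (act u (e i)) g = δ u i * s (e (p u i)) g := by
    intro u i g
    simp only [δ]
    split_ifs with h
    · rw [h, one_mul]
    · rw [(hp u i).resolve_left h, H.scj, neg_one_mul]
  let π : G → Equiv.Perm ι := fun u => Equiv.ofBijective (p u)
    (Finite.injective_iff_bijective.1 (hpinj u))
  have hπ : ∀ u i, π u i = p u i := fun u i => rfl
  -- the sign and the index determine each other
  have key : ∀ (w : W) (i k : ι), (w = e i ∨ w = cj (e i)) → (w = e k ∨ w = cj (e k)) → i = k := by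
    intro w i k h1 h2
    rcases h1 with h1 | h1 <;> rcases h2 with h2 | h2
    · exact he.inj (h1.symm.trans h2)
    · exact absurd (h1.symm.trans h2) (he.disj i k)
    · exact absurd (h2.symm.trans h1) (he.disj k i)
    · exact he.inj (H.cj_inj (h1.symm.trans h2))
  have pmul : ∀ u v i, p (u * v) i = p u (p v i) := by
    intro u v i
    refine key (act (u * v) (e i)) _ _ (hp _ _) ?_
    rw [H.mul]
    rcases hp v i with h1 | h1
    · rw [h1]
      exact hp u _
    · rw [h1, H.comm]
      rcases hp u (p v i) with h2 | h2
      · right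
        rw [h2]
      · left
        rw [h2, H.inv]
  have pone : ∀ i, p 1 i = i := by
    intro i
    refine key (act 1 (e i)) _ _ (hp _ _) (Or.inl (H.one _))
  refine ⟨π, δ, fun i g => H.sign _ _, fun u i => ?_, fun u i g => ?_, fun u v i => ?_,
    fun u v i => ?_, fun i => ?_, fun i => ?_, fun i g => H.odd _ _⟩
  · simp only [δ]
    split_ifs
    · exact Or.inl rfl
    · exact Or.inr rfl
  · rw [H.sact, hδ, hπ]
  · rw [hπ, hπ, hπ, pmul]
  · have h1 := hδ (u * v) i 1
    have h2 := hδ v i (1 * u)
    have h3 := hδ u (p v i) 1
    rw [H.mul] at h1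
    rw [H.sact, H.sact, h3, ← pmul] at h2
    rw [h1] at h2
    rw [hπ]
    have h4 := H.sign (e (p (u * v) i)) 1
    rcases h4 with h4 | h4
    · rw [h4] at h2
      linear_combination h2
    · rw [h4] at h2
      linear_combination -h2
  · rw [hπ, pone]
  · simp only [δ]
    rw [if_pos]
    rw [H.one, pone]

end Exists

section Four

variable {G : Type} [Group G] [Fintype G] {c : G} {f : Fin 4 → G → ℤ}
  {π : G → Equiv.Perm (Fin 4)} {δ : G → Fin 4 → ℤ}

/-- All of four pairs of signs: if the sum does not vanish, there is a small combination. -/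
theorem small_of_sys4 (S : Sys c f π δ) (hne : ∃ g, ∑ i, f i g ≠ 0) :
    Small c (fun g => ∑ i, f i g) := by
  by_contra hns
  have hodd : ∀ g, (fun g => ∑ i, f i g) (c * g) = - (fun g => ∑ i, f i g) g := by
    intro g
    simp only [S.odd, Finset.sum_neg_distrib]
  obtain ⟨g, hg⟩ := hne
  apply hg
  refine kill_const hodd hns (InW.one _) (fun u => ?_) g
  have h1 : ∀ g, ∑ i, f i (g * u) = ∑ k, δ u ((π u).symm k) * f k g := by
    intro g
    rw [← Equiv.sum_comp (π u) (fun k => δ u ((π u).symm k) * f k g)]
    refine Finset.sum_congr rfl fun i _ => ?_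
    rw [S.act, Equiv.symm_apply_apply]
  have h2 := four hodd hns (f 0) (f 1) (f 2) (f 3) (S.sign 0) (S.sign 1) (S.sign 2) (S.sign 3)
    (δ u ((π u).symm 0)) (δ u ((π u).symm 1)) (δ u ((π u).symm 2)) (δ u ((π u).symm 3))
    (S.dsign _ _) (S.dsign _ _) (S.dsign _ _) (S.dsign _ _)
    ((InW.one _).congr fun g => by simp only [Fin.sum_univ_four])
    ((InW.self _ u).congr fun g => by rw [h1, Fin.sum_univ_four])
    ⟨g, by rwa [Fin.sum_univ_four] at hg⟩
  rcases h2 with ⟨a0, a1, a2, a3⟩ | ⟨a0, a1, a2, a3⟩
  · left
    intro g
    rw [h1, Fin.sum_univ_four, Fin.sum_univ_four, a0, a1, a2, a3]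
    ring
  · right
    intro g
    rw [h1, Fin.sum_univ_four, Fin.sum_univ_four, a0, a1, a2, a3]
    ring

end Four

section Reduce

variable {G W : Type} [Group G] [Fintype G] {c : G} {act : G → W → W} {cj : W → W}
  {s : W → G → ℤ}

/-- Omit the pairs. -/
theorem Lett.reduce [DecidableEq W] (H : Lett c act cj s) (R : Finset W) (g : G) :
    ∑ w ∈ R, s w g = ∑ w ∈ R.filter (fun w => cj w ∉ R), s w g := by
  rw [← Finset.sum_filter_add_sum_filter_not R (fun w => cj w ∉ R)]
  have h : ∑ w ∈ R.filter (fun w => ¬ (cj w ∉ R)), s w g = 0 := by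
    refine Finset.sum_involution (fun w _ => cj w) ?_ ?_ ?_ ?_
    · intro w _
      rw [H.scj]
      ring
    · intro w _ _
      exact H.ne w
    · intro w hw
      rw [Finset.mem_filter, not_not] at hw ⊢
      exact ⟨hw.2, by rw [H.inv]; exact hw.1⟩
    · intro w _
      exact H.inv w
  rw [h, add_zero]

theorem Lett.even_sub (H : Lett c act cj s) {ι : Type} (R : Finset ι) (t : ι → W) (g : G) :
    (2 : ℤ) ∣ (R.card : ℤ) - ∑ i ∈ R, s (t i) g := by
  have h : (R.card : ℤ) - ∑ i ∈ R, s (t i) g = ∑ i ∈ R, (1 - s (t i) g) := by
    rw [Finset.sum_sub_distrib]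
    simp
  rw [h]
  refine Finset.dvd_sum fun i _ => ?_
  rcases H.sign (t i) g with h | h <;> rw [h] <;> norm_num

theorem Lett.card_le [Fintype W] [DecidableEq W] (H : Lett c act cj s) (T : Finset W)
    (hT : ∀ w ∈ T, cj w ∉ T) : 2 * T.card ≤ Fintype.card W := by
  have hd : Disjoint T (T.image cj) := by
    rw [Finset.disjoint_left]
    intro w hw hw'
    obtain ⟨w', h1, rfl⟩ := Finset.mem_image.1 hw'
    exact hT w' h1 hw
  have hc : (T.image cj).card = T.card := Finset.card_image_of_injective _ fun _ _ h => H.cj_inj h
  have h1 := Finset.card_le_univ (T ∪ T.image cj)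
  rw [Finset.card_union_of_disjoint hd, hc] at h1
  omega

/-- At most five pairs of letters: sums of an even number of different letters have small
combinations. -/
theorem Lett.small [Fintype W] (H : Lett c act cj s) (hW : Fintype.card W ≤ 10) {k : ℕ}
    (I : Fin (2 * k) → W) (hI : Function.Injective I) (hne : (fun g => ∑ l, s (I l) g) ≠ 0) :
    Small c (fun g => ∑ l, s (I l) g) := by
  classical
  set R : Finset W := Finset.univ.image I with hR
  set T : Finset W := R.filter (fun w => cj w ∉ R) with hTdef
  have hB : ∀ g, ∑ l, s (I l) g = ∑ w ∈ T, s w g := by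
    intro g
    rw [hTdef, ← H.reduce, hR, Finset.sum_image fun a _ b _ h => hI h]
  have hTT : ∀ w ∈ T, cj w ∉ T := by
    intro w hw hw'
    exact (Finset.mem_filter.1 hw).2 (Finset.mem_filter.1 hw').1
  have hcard := H.card_le T hTT
  have heven : (2 : ℤ) ∣ (T.card : ℤ) := by
    have h1 := H.even_sub (Finset.univ : Finset (Fin (2 * k))) I 1
    have h2 := H.even_sub T id 1
    simp only [id] at h2
    rw [hB, Finset.card_univ, Fintype.card_fin] at h1
    push_cast at h1
    omega
  simp only [hB] at hne ⊢
  have hne' : ∃ g, ∑ w ∈ T, s w g ≠ 0 := by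
    by_contra h
    push Not at h
    exact hne (funext h)
  have hT5 : T.card = 0 ∨ T.card = 2 ∨ T.card = 4 := by omega
  have hodd : ∀ g, (fun g => ∑ w ∈ T, s w g) (c * g) = - (fun g => ∑ w ∈ T, s w g) g := by
    intro g
    simp only [H.odd, Finset.sum_neg_distrib]
  rcases hT5 with h0 | h2 | h4
  · exfalso
    obtain ⟨g, hg⟩ := hne'
    rw [Finset.card_eq_zero.1 h0, Finset.sum_empty] at hg
    exact hg rfl
  · obtain ⟨a, b, hab, hTab⟩ := Finset.card_eq_two.1 h2
    refine small_of_inW hodd (InW.one _) hne' 2 fun g => ?_
    rw [hTab, Finset.sum_pair hab]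
    simp only [Nat.cast_ofNat]
    rcases H.sign a g with h | h <;> rcases H.sign b g with h' | h' <;> rw [h, h'] <;> norm_num
  · let eT := (T.equivFinOfCardEq h4).symm
    let a : Fin 4 → W := fun i => (eT i : W)
    have ainj : Function.Injective a := fun i k h => eT.injective (Subtype.ext h)
    have amem : ∀ i, a i ∈ T := fun i => (eT i).2
    have asurj : ∀ w ∈ T, ∃ i, w = a i := fun w hw => ⟨eT.symm ⟨w, hw⟩, by
      simp only [a, Equiv.apply_symm_apply]⟩
    have hsum : ∀ g, ∑ w ∈ T, s w g = ∑ i, s (a i) g := by
      intro g
      have : T = Finset.univ.image a := by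
        ext w
        constructor
        · intro hw
          obtain ⟨i, hi⟩ := asurj w hw
          exact Finset.mem_image.2 ⟨i, Finset.mem_univ _, hi.symm⟩
        · intro hw
          obtain ⟨i, _, rfl⟩ := Finset.mem_image.1 hw
          exact amem i
      rw [this, Finset.sum_image fun a _ b _ h => ainj h]
    simp only [hsum]
    simp only [hsum] at hne'
    have adisj : ∀ i k, a i ≠ cj (a k) := fun i k h => hTT (a k) (amem k) (by rw [← h]; exact amem i)
    by_cases hall : ∀ w, ∃ i, w = a i ∨ w = cj (a i)
    · obtain ⟨π, δ, S⟩ := exists_sys H (e := a) ⟨ainj, adisj, hall⟩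
      exact small_of_sys4 S hne'
    · push Not at hall
      obtain ⟨w0, hw0⟩ := hall
      let e : Fin 5 → W := Fin.snoc (α := fun _ => W) a w0
      have elast : e (Fin.last 4) = w0 := Fin.snoc_last _ _
      have ecast : ∀ i : Fin 4, e i.castSucc = a i := fun i => Fin.snoc_castSucc _ _ i
      have he : Sec cj e := by
        refine ⟨?_, ?_, ?_⟩
        · intro i k
          refine Fin.lastCases ?_ (fun i => ?_) i <;> refine Fin.lastCases ?_ (fun k => ?_) k
          · intro _; rfl
          · rw [elast, ecast]
            exact fun h => absurd h (hw0 k).1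
          · rw [elast, ecast]
            exact fun h => absurd h.symm (hw0 i).1
          · rw [ecast, ecast]
            exact fun h => by rw [ainj h]
        · intro i k
          refine Fin.lastCases ?_ (fun i => ?_) i <;> refine Fin.lastCases ?_ (fun k => ?_) k
          · rw [elast]
            exact (H.ne w0).symm
          · rw [elast, ecast]
            exact (hw0 k).2
          · rw [elast, ecast]
            intro h
            apply (hw0 i).2
            rw [h, H.inv]
          · rw [ecast, ecast]
            exact adisj i k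
        · intro w
          by_contra hw
          push Not at hw
          -- six pairs
          have h5 : (insert w (insert w0 T)).card = 6 := by
            rw [Finset.card_insert_of_notMem, Finset.card_insert_of_notMem, h4]
            · intro h
              obtain ⟨i, hi⟩ := asurj w0 h
              exact (hw0 i).1 hi
            · intro h
              rcases Finset.mem_insert.1 h with h | h
              · exact (hw (Fin.last 4)).1 (by rw [elast, h])
              · obtain ⟨i, hi⟩ := asurj w h
                exact (hw i.castSucc).1 (by rw [ecast, hi])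
          have h6 := H.card_le (insert w (insert w0 T)) (by
            intro x hx hx'
            have c1 : ∀ i, cj (a i) ≠ w0 := fun i h => (hw0 i).2 h.symm
            have c2 : ∀ i, cj w0 ≠ a i := fun i h => (hw0 i).2 (by rw [← h, H.inv])
            have c3 : ∀ i, cj (a i) ≠ w := fun i h => (hw i.castSucc).2 (by rw [ecast, h])
            have c4 : ∀ i, cj w ≠ a i := fun i h => (hw i.castSucc).2 (by rw [ecast, ← h, H.inv])
            have c5 : cj w ≠ w0 := fun h => (hw (Fin.last 4)).2 (by rw [elast, ← h, H.inv])
            have c6 : cj w0 ≠ w := fun h => (hw (Fin.last 4)).2 (by rw [elast, h])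
            rcases Finset.mem_insert.1 hx with rfl | hx
            · rcases Finset.mem_insert.1 hx' with h | h
              · exact H.ne _ h
              · rcases Finset.mem_insert.1 h with h | h
                · exact c5 h
                · obtain ⟨i, hi⟩ := asurj _ h
                  exact c4 i hi
            · rcases Finset.mem_insert.1 hx with rfl | hx
              · rcases Finset.mem_insert.1 hx' with h | h
                · exact c6 h
                · rcases Finset.mem_insert.1 h with h | h
                  · exact H.ne _ h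
                  · obtain ⟨i, hi⟩ := asurj _ h
                    exact c2 i hi
              · obtain ⟨i, rfl⟩ := asurj _ hx
                rcases Finset.mem_insert.1 hx' with h | h
                · exact c3 i h
                · rcases Finset.mem_insert.1 h with h | h
                  · exact c1 i h
                  · exact hTT _ hx h)
          omega
      obtain ⟨π, δ, S⟩ := exists_sys H he
      have hb : ∀ g, B5 (fun i => s (e i)) g = ∑ i, s (a i) g := by
        intro g
        unfold B5
        rw [Fin.sum_univ_castSucc]
        have h1 : b5 (Fin.last 4) = 0 := rfl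
        rw [h1, zero_mul, add_zero]
        refine Finset.sum_congr rfl fun i _ => ?_
        have h2 : b5 i.castSucc = 1 := by
          unfold b5
          rw [if_neg]
          exact (Fin.castSucc_lt_last i).ne
        rw [h2, one_mul]
        change s (e i.castSucc) g = _
        rw [ecast]
      have h7 := small_of_sys5 S (by simpa only [hb] using hne')
      have h8 : B5 (fun i => s (e i)) = fun g => ∑ i, s (a i) g := funext hb
      rwa [h8] at h7

end Reduce

end Pool.Agent.H86.CM5
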