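import Pool.Agent.H86.CM5.Two

/-!
# Five pairs: the missing index has three conjugates
-/

set_option autoImplicit false
set_option linter.unusedSectionVars false

namespace Pool.Agent.H86.CM5

open Pool.Agent.W537.PC

theorem Labels.swap {i j k a : Fin 5} (L : Labels i j k a) : Labels i j a k where
  sum := fun F => by rw [L.sum]; ring
  all := fun x => by
    rcases L.all x with h | h | h | h | h <;> simp [h]
  i4 := L.i4
  j4 := L.j4
  k4 := L.a4
  a4 := L.k4
  ia := L.ik
  ja := L.jk
  ka := L.ka.symm
  ij := L.ij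
  ik := L.ia
  jk := L.ja

section Three

variable {G : Type} [Group G] [Fintype G] {c : G} {f : Fin 5 → G → ℤ}
  {π : G → Equiv.Perm (Fin 5)} {δ : G → Fin 5 → ℤ}

namespace Bad

variable (S : Bad c f π δ)
include S

theorem dsq (u : G) (i : Fin 5) : δ u i * δ u i = 1 := by
  rcases S.dsign u i with h | h <;> rw [h] <;> norm_num

theorem three_core {i j p q : Fin 5} (L : Labels i j p q)
    (hO : ∀ v, π v 4 = 4 ∨ π v 4 = p ∨ π v 4 = q)
    (hij : ∀ v, (π v i = i ∧ π v j = j) ∨ (π v i = j ∧ π v j = i))
    (hpO : ∀ v, π v p = 4 ∨ π v p = p ∨ π v p = q)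
    (w : G) (h4 : π w 4 = p) (hp : π w p = q) (hq : π w q = 4) (hi : π w i = i)
    (hj : π w j = j) (di : δ w i = 1) (dj : δ w j = 1) (d3 : δ w 4 * δ w p * δ w q = 1) :
    False := by
  have ai : ∀ g, f i (g * w) = f i g := fun g => by rw [S.act, hi, di, one_mul]
  have aj : ∀ g, f j (g * w) = f j g := fun g => by rw [S.act, hj, dj, one_mul]
  have a4 : ∀ g, f 4 (g * w) = δ w 4 * f p g := fun g => by rw [S.act, h4]
  have ap : ∀ g, f p (g * w) = δ w p * f q g := fun g => by rw [S.act, hp]
  have aq : ∀ g, f q (g * w) = δ w q * f 4 g := fun g => by rw [S.act, hq]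
  have b0 : ∀ g, B5 f g = f i g + f j g + f p g + f q g := S.B_eq L
  have b1 : ∀ g, B5 f (g * w) = f i g + f j g + δ w p * f q g + δ w q * f 4 g := fun g => by
    rw [b0, ai, aj, ap, aq]
  have b2 : ∀ g, B5 f (g * w * w) = f i g + f j g + δ w p * (δ w q * f 4 g) +
      δ w q * (δ w 4 * f p g) := fun g => by
    rw [b1, ai, aj, aq, a4]
  have i0 := InW.one (B5 f)
  have i1 := InW.self (B5 f) w
  have i2 : InW (B5 f) (fun g => B5 f (g * w * w)) := i1.translate w
  have sgi := S.sgn i
  have sgj := S.sgn j
  have sgp := S.sgn p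
  have sgq := S.sgn q
  have sg4 := S.sgn 4
  obtain ⟨g0, hg0⟩ := S.ne
  rcases S.dsign w p with hdp | hdp
  · -- the three signs agree
    have hdq : δ w q = δ w 4 := by
      rw [hdp] at d3
      rcases S.dsign w q with h | h <;> rcases S.dsign w 4 with h' | h' <;> rw [h, h'] at d3 ⊢ <;>
        omega
    set d := δ w 4 with hd
    have hdd : d * d = 1 := S.dsq w 4
    have hds : d = 1 ∨ d = -1 := S.dsign w 4
    have e1 : ∀ g, f p g - d * f 4 g = 0 := by
      refine S.kil ((i0.sub i1).congr fun g => ?_) 2 fun g => ?_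
      · rw [b0, b1, hdp, hdq]
        ring
      · have h1 := sgp g
        have h2 := sg4 g
        rcases hds with h | h <;> rw [h] <;> simp only [Nat.cast_ofNat] <;> omega
    have e2 : ∀ g, f q g = f p g := by
      intro g
      have h1 := e1 (g * w)
      rw [ap, a4, hdp] at h1
      linear_combination h1 + f p g * hdd
    have e4 : ∀ g, f 4 g = d * f p g := by
      intro g
      linear_combination (-d) * e1 g - f 4 g * hdd
    refine S.false_of_const fun v => ?_
    -- the translates by `v`
    obtain ⟨γ, hγ, hf⟩ : ∃ γ : ℤ, (γ = 1 ∨ γ = -1) ∧ ∀ g, f p (g * v) = γ * f p g := by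
      rcases hpO v with h | h | h
      · refine ⟨δ v p * d, ?_, fun g => by rw [S.act, h, e4]; ring⟩
        rcases S.dsign v p with h1 | h1 <;> rcases hds with h2 | h2 <;> rw [h1, h2] <;> norm_num
      · exact ⟨δ v p, S.dsign v p, fun g => by rw [S.act, h]⟩
      · exact ⟨δ v p, S.dsign v p, fun g => by rw [S.act, h, e2]⟩
    obtain ⟨α, β, hα, hβ, hfg⟩ : ∃ α β : ℤ, (α = 1 ∨ α = -1) ∧ (β = 1 ∨ β = -1) ∧
        ∀ g, f i (g * v) + f j (g * v) = α * f i g + β * f j g := by
      rcases hij v with ⟨h, h'⟩ | ⟨h, h'⟩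
      · exact ⟨δ v i, δ v j, S.dsign v i, S.dsign v j, fun g => by rw [S.act, S.act, h, h']⟩
      · exact ⟨δ v j, δ v i, S.dsign v j, S.dsign v i, fun g => by
          rw [S.act, S.act, h, h']; ring⟩
    have bv : ∀ g, B5 f (g * v) = α * f i g + β * f j g + 2 * (γ * f p g) := by
      intro g
      rw [b0, e2, hf]
      linear_combination hfg g
    have bb : ∀ g, B5 f g = f i g + f j g + 2 * f p g := by
      intro g
      rw [b0, e2]
      ring
    have hF : InW (B5 f) (fun g => (1 - γ * α) * f i g + (1 - γ * β) * f j g) := by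
      refine (i0.sub ((InW.self (B5 f) v).smul γ)).congr fun g => ?_
      rw [bb, bv]
      have hγγ : γ * γ = 1 := by rcases hγ with h | h <;> rw [h] <;> norm_num
      linear_combination (2 * f p g) * hγγ
    have fin1 : γ * α = 1 → γ * β = 1 → (∀ g, B5 f (g * v) = B5 f g) ∨
        (∀ g, B5 f (g * v) = -B5 f g) := by
      intro h1 h2
      rcases hγ with h | h
      · left
        intro g
        rw [h, one_mul] at h1 h2
        rw [bv, bb, h1, h2, h]
        ring
      · right
        intro g
        rw [h] at h1 h2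
        have h1' : α = -1 := by linarith
        have h2' : β = -1 := by linarith
        rw [bv, bb, h1', h2', h]
        ring
    have cases1 : γ * α = 1 ∨ γ * α = -1 := by
      rcases hγ with h | h <;> rcases hα with h' | h' <;> rw [h, h'] <;> norm_num
    have cases2 : γ * β = 1 ∨ γ * β = -1 := by
      rcases hγ with h | h <;> rcases hβ with h' | h' <;> rw [h, h'] <;> norm_num
    rcases cases1 with c1 | c1 <;> rcases cases2 with c2 | c2
    · exact fin1 c1 c2
    · exfalso
      have h1 := S.kil hF 2 (fun g => by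
        rw [c1, c2]
        have := sgj g
        simp only [Nat.cast_ofNat]
        omega) 1
      rw [c1, c2] at h1
      have := sgj 1
      omega
    · exfalso
      have h1 := S.kil hF 2 (fun g => by
        rw [c1, c2]
        have := sgi g
        simp only [Nat.cast_ofNat]
        omega) 1
      rw [c1, c2] at h1
      have := sgi 1
      omega
    · exfalso
      have h1 := S.kil hF 4 (fun g => by
        rw [c1, c2]
        have := sgi g
        have := sgj g
        simp only [Nat.cast_ofNat]
        omega)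
      have h2 := S.kil i0 2 (fun g => by
        have h3 := h1 g
        rw [c1, c2] at h3
        rw [bb]
        have := sgp g
        simp only [Nat.cast_ofNat]
        omega)
      exact hg0 (h2 g0)
  · -- two signs are negative
    have hdq : δ w q = - δ w 4 := by
      rw [hdp] at d3
      rcases S.dsign w q with h | h <;> rcases S.dsign w 4 with h' | h' <;> rw [h, h'] at d3 ⊢ <;>
        omega
    set d := δ w 4 with hd
    have hdd : d * d = 1 := S.dsq w 4
    have h1 : ∀ g, 3 * (f i g + f j g) = 0 := by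
      refine S.kil (((i0.add i1).add i2).congr fun g => ?_) 6 fun g => ?_
      · rw [b0, b1, b2, hdp, hdq]
        linear_combination (f p g) * hdd
      · have := sgi g
        have := sgj g
        simp only [Nat.cast_ofNat]
        omega
    have h2 := S.kil i0 2 (fun g => by
      have h3 := h1 g
      rw [b0]
      have := sgp g
      have := sgq g
      simp only [Nat.cast_ofNat]
      omega)
    exact hg0 (h2 g0)

theorem three_cycle {i j p q : Fin 5} (L : Labels i j p q)
    (hO : ∀ v, π v 4 = 4 ∨ π v 4 = p ∨ π v 4 = q)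
    (hij : ∀ v, (π v i = i ∧ π v j = j) ∨ (π v i = j ∧ π v j = i))
    (hpO : ∀ v, π v p = 4 ∨ π v p = p ∨ π v p = q)
    (v : G) (h4 : π v 4 = p) (hp : π v p = q) (hq : π v q = 4) : False := by
  have pi2 : ∀ x, π (v * v * (v * v)) x = π v (π v (π v (π v x))) := by
    intro x
    rw [S.mul, S.mul, S.mul]
  have d2 : ∀ x, δ (v * v * (v * v)) x = δ v x * δ v (π v x) *
      (δ v (π v (π v x)) * δ v (π v (π v (π v x)))) := by
    intro x
    rw [S.dmul, S.dmul, S.dmul, S.mul]
  have sq := S.dsq v
  refine S.three_core L hO hij hpO (v * v * (v * v)) ?_ ?_ ?_ ?_ ?_ ?_ ?_ ?_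
  · rw [pi2, h4, hp, hq, h4]
  · rw [pi2, hp, hq, h4, hp]
  · rw [pi2, hq, h4, hp, hq]
  · rcases hij v with ⟨h, h'⟩ | ⟨h, h'⟩
    · rw [pi2, h, h, h, h]
    · rw [pi2, h, h', h, h']
  · rcases hij v with ⟨h, h'⟩ | ⟨h, h'⟩
    · rw [pi2, h', h', h', h']
    · rw [pi2, h', h, h', h]
  · rcases hij v with ⟨h, h'⟩ | ⟨h, h'⟩
    · rw [d2, h, h, h]
      linear_combination (δ v i * δ v i + 1) * sq i
    · rw [d2, h, h', h]
      linear_combination (δ v j * δ v j) * sq i + sq j
  · rcases hij v with ⟨h, h'⟩ | ⟨h, h'⟩
    · rw [d2, h', h', h']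
      linear_combination (δ v j * δ v j + 1) * sq j
    · rw [d2, h', h, h']
      linear_combination (δ v j * δ v j) * sq i + sq j
  · rw [d2, d2, d2, h4, hp, hq, h4, hp]
    have e : δ v 4 * δ v p * (δ v q * δ v 4) * (δ v p * δ v q * (δ v 4 * δ v p)) *
        (δ v q * δ v 4 * (δ v p * δ v q)) = (δ v 4 * δ v 4) * (δ v 4 * δ v 4) *
        ((δ v p * δ v p) * (δ v p * δ v p)) * ((δ v q * δ v q) * (δ v q * δ v q)) := by ring
    rw [e, sq, sq, sq]
    norm_num

/-- The index `4` has three conjugates: impossible. -/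
theorem three {i j p q : Fin 5} (L : Labels i j p q)
    (hO : ∀ v, π v 4 = 4 ∨ π v 4 = p ∨ π v 4 = q) {u1 u2 : G} (h1 : π u1 4 = p)
    (h2 : π u2 4 = q) : False := by
  have hpO : ∀ v, π v p = 4 ∨ π v p = p ∨ π v p = q := by
    intro v
    have := hO (v * u1)
    rwa [S.mul, h1] at this
  have hqO : ∀ v, π v q = 4 ∨ π v q = p ∨ π v q = q := by
    intro v
    have := hO (v * u2)
    rwa [S.mul, h2] at this
  have inj : ∀ v x y, π v x = π v y → x = y := fun v x y h => (π v).injective h
  -- the complement is stable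
  have hc : ∀ v, ∀ x, (x = i ∨ x = j) → (π v x = i ∨ π v x = j) := by
    intro v x hx
    have hsurj : ∀ y, (y = 4 ∨ y = p ∨ y = q) → ∃ z, (z = 4 ∨ z = p ∨ z = q) ∧ π v z = y := by
      let O : Finset (Fin 5) := {4, p, q}
      have hmap : ∀ z ∈ O, π v z ∈ O := by
        intro z hz
        simp only [O, Finset.mem_insert, Finset.mem_singleton] at hz ⊢
        rcases hz with rfl | rfl | rfl
        · exact hO v
        · exact hpO v
        · exact hqO v
      have himg : O.image (π v) = O := by
        refine Finset.eq_of_subset_of_card_le ?_ ?_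
        · intro y hy
          obtain ⟨z, hz, rfl⟩ := Finset.mem_image.1 hy
          exact hmap z hz
        · rw [Finset.card_image_of_injective _ (π v).injective]
      intro y hy
      have hyO : y ∈ O := by
        simp only [O, Finset.mem_insert, Finset.mem_singleton]
        exact hy
      rw [← himg] at hyO
      obtain ⟨z, hz, hzy⟩ := Finset.mem_image.1 hyO
      refine ⟨z, ?_, hzy⟩
      simpa only [O, Finset.mem_insert, Finset.mem_singleton] using hz
    by_contra hcon
    push Not at hcon
    have h3 : π v x = p ∨ π v x = q ∨ π v x = 4 := by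
      rcases L.all (π v x) with h | h | h | h | h
      · exact absurd h hcon.1
      · exact absurd h hcon.2
      · exact Or.inl h
      · exact Or.inr (Or.inl h)
      · exact Or.inr (Or.inr h)
    obtain ⟨z, hz, hzx⟩ := hsurj (π v x) (by tauto)
    have h4 := inj v _ _ hzx
    have := L.ia
    have := L.ja
    have := L.ik
    have := L.jk
    have := L.i4
    have := L.j4
    subst h4
    rcases hx with rfl | rfl <;> rcases hz with h | h | h <;> tauto
  have hij : ∀ v, (π v i = i ∧ π v j = j) ∨ (π v i = j ∧ π v j = i) := by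
    intro v
    rcases hc v i (Or.inl rfl) with h | h <;> rcases hc v j (Or.inr rfl) with h' | h'
    · exact absurd (inj v _ _ (h.trans h'.symm)) L.ij
    · exact Or.inl ⟨h, h'⟩
    · exact Or.inr ⟨h, h'⟩
    · exact absurd (inj v _ _ (h.trans h'.symm)) L.ij
  have hO' : ∀ v, π v 4 = 4 ∨ π v 4 = q ∨ π v 4 = p := fun v => by
    rcases hO v with h | h | h <;> tauto
  have hqO' : ∀ v, π v q = 4 ∨ π v q = q ∨ π v q = p := fun v => by
    rcases hqO v with h | h | h <;> tauto
  rcases hpO u1 with hp | hp | hp
  · have hq : π u1 q = q := by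
      rcases hqO u1 with h | h | h
      · exact absurd (inj u1 _ _ (h.trans hp.symm)) L.ka.symm
      · exact absurd (inj u1 _ _ (h.trans h1.symm)) L.a4
      · exact h
    rcases hqO u2 with hr | hr | hr
    · have hp2 : π u2 p = p := by
        rcases hpO u2 with h | h | h
        · exact absurd (inj u2 _ _ (h.trans hr.symm)) L.ka
        · exact h
        · exact absurd (inj u2 _ _ (h.trans h2.symm)) L.k4
      refine S.three_cycle L.swap hO' hij hqO' (u1 * u2) ?_ ?_ ?_
      · rw [S.mul, h2, hq]
      · rw [S.mul, hr, h1]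
      · rw [S.mul, hp2, hp]
    · have hp2 : π u2 p = 4 := by
        rcases hpO u2 with h | h | h
        · exact h
        · exact absurd (inj u2 _ _ (h.trans hr.symm)) L.ka
        · exact absurd (inj u2 _ _ (h.trans h2.symm)) L.k4
      exact S.three_cycle L.swap hO' hij hqO' u2 h2 hr hp2
    · exact absurd (inj u2 _ _ (hr.trans h2.symm)) L.a4
  · exact absurd (inj u1 _ _ (hp.trans h1.symm)) L.k4
  · have hq : π u1 q = 4 := by
      rcases hqO u1 with h | h | h
      · exact h
      · exact absurd (inj u1 _ _ (h.trans h1.symm)) L.a4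
      · exact absurd (inj u1 _ _ (h.trans hp.symm)) L.ka.symm
    exact S.three_cycle L hO hij hpO u1 h1 hp hq

end Bad

end Three

end Pool.Agent.H86.CM5
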