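import Pool.Agent.H86.CM5.Sec

/-!
# At most three pairs of letters, with arbitrary multiplicities
-/

set_option autoImplicit false
set_option linter.unusedSectionVars false

namespace Pool.Agent.H86.CM5

open Pool.Agent.W537.PC

section General

variable {G : Type} [Group G] [Fintype G] {ι : Type} [Fintype ι] [DecidableEq ι] {c : G}
  {f : ι → G → ℤ} {π : G → Equiv.Perm ι} {δ : G → ι → ℤ}

/-- The sum with coefficients `x`. -/
def lin (f : ι → G → ℤ) (x : ι → ℤ) (g : G) : ℤ := ∑ i, x i * f i g

theorem Sys.lin_translate (S : Sys c f π δ) (b : ι → ℤ) (u g : G) :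
    lin f b (g * u) = lin f (vec π δ b u) g := S.translate b u g

theorem Sys.lin_mem (S : Sys c f π δ) (b : ι → ℤ) (u : G) :
    InW (lin f b) (lin f (vec π δ b u)) := S.inW_vec b u

theorem Sys.lin_odd (S : Sys c f π δ) (b : ι → ℤ) (g : G) :
    lin f b (c * g) = - lin f b g := S.odd' b g

theorem Sys.vec_sq (S : Sys c f π δ) (b : ι → ℤ) (u : G) (i : ι) :
    vec π δ b u (π u i) ^ 2 = b i ^ 2 := by
  rw [vec_act, mul_pow]
  rcases S.dsign u i with h | h <;> rw [h] <;> norm_num

theorem Sys.vec_norm (S : Sys c f π δ) (b : ι → ℤ) (u : G) :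
    ∑ i, vec π δ b u i ^ 2 = ∑ i, b i ^ 2 := by
  rw [← Equiv.sum_comp (π u) (fun i => vec π δ b u i ^ 2)]
  exact Finset.sum_congr rfl fun i _ => S.vec_sq b u i

/-- The squares of the minors. -/
def mnr (v w : ι → ℤ) (i : ι) : ℤ :=
  ∑ j ∈ Finset.univ.erase i, ∑ k ∈ Finset.univ.erase i, (v j * w k - v k * w j) ^ 2

theorem Sys.mnr_act (S : Sys c f π δ) (b : ι → ℤ) (g u : G) (i : ι) :
    mnr (vec π δ b g) (vec π δ b (g * u)) (π g i) = mnr b (vec π δ b u) i := by
  unfold mnr
  have h1 : (Finset.univ.erase (π g i) : Finset ι) = (Finset.univ.erase i).map (π g).toEmbedding := by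
    ext x
    simp only [Finset.mem_erase, Finset.mem_univ, and_true, Finset.mem_map_equiv]
    rw [ne_eq, ne_eq, Equiv.symm_apply_eq]
  rw [h1, Finset.sum_map]
  refine Finset.sum_congr rfl fun j _ => ?_
  rw [Finset.sum_map]
  refine Finset.sum_congr rfl fun k _ => ?_
  simp only [Equiv.toEmbedding_apply]
  rw [vec_act, vec_act, S.vec_mul, S.vec_mul]
  have h2 : δ g j ^ 2 = 1 := by rcases S.dsign g j with h | h <;> rw [h] <;> norm_num
  have h3 : δ g k ^ 2 = 1 := by rcases S.dsign g k with h | h <;> rw [h] <;> norm_num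
  have h4 : (b j * δ g j * (δ g k * vec π δ b u k) - b k * δ g k * (δ g j * vec π δ b u j)) ^ 2 =
      δ g j ^ 2 * δ g k ^ 2 * (b j * vec π δ b u k - b k * vec π δ b u j) ^ 2 := by ring
  rw [h4, h2, h3, one_mul, one_mul]

end General

section Three3

variable {G : Type} [Group G] [Fintype G] {c : G} {f : Fin 3 → G → ℤ}
  {π : G → Equiv.Perm (Fin 3)} {δ : G → Fin 3 → ℤ}

theorem lin3 (x : Fin 3 → ℤ) (g : G) : lin f x g = x 0 * f 0 g + x 1 * f 1 g + x 2 * f 2 g := by
  unfold lin
  rw [Fin.sum_univ_three]

/-- The vector product. -/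
def crs (v w : Fin 3 → ℤ) : Fin 3 → ℤ :=
  ![v 1 * w 2 - v 2 * w 1, v 2 * w 0 - v 0 * w 2, v 0 * w 1 - v 1 * w 0]

theorem crs0 (v w : Fin 3 → ℤ) : crs v w 0 = v 1 * w 2 - v 2 * w 1 := rfl
theorem crs1 (v w : Fin 3 → ℤ) : crs v w 1 = v 2 * w 0 - v 0 * w 2 := rfl
theorem crs2 (v w : Fin 3 → ℤ) : crs v w 2 = v 0 * w 1 - v 1 * w 0 := rfl

theorem mnr3 (v w : Fin 3 → ℤ) (i : Fin 3) : mnr v w i = 2 * crs v w i ^ 2 := by
  have e0 : (Finset.univ.erase (0 : Fin 3)) = {1, 2} := by decide
  have e1 : (Finset.univ.erase (1 : Fin 3)) = {0, 2} := by decide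
  have e2 : (Finset.univ.erase (2 : Fin 3)) = {0, 1} := by decide
  fin_cases i
  · change mnr v w 0 = 2 * crs v w 0 ^ 2
    unfold mnr
    rw [e0, crs0, Finset.sum_pair (by decide), Finset.sum_pair (by decide),
      Finset.sum_pair (by decide)]
    ring
  · change mnr v w 1 = 2 * crs v w 1 ^ 2
    unfold mnr
    rw [e1, crs1, Finset.sum_pair (by decide), Finset.sum_pair (by decide),
      Finset.sum_pair (by decide)]
    ring
  · change mnr v w 2 = 2 * crs v w 2 ^ 2
    unfold mnr
    rw [e2, crs2, Finset.sum_pair (by decide), Finset.sum_pair (by decide),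
      Finset.sum_pair (by decide)]
    ring

/-- The scalar product. -/
def dt (v w : Fin 3 → ℤ) : ℤ := v 0 * w 0 + v 1 * w 1 + v 2 * w 2

theorem dt_crs (v w : Fin 3 → ℤ) : dt v (crs v w) = 0 := by
  unfold dt
  rw [crs0, crs1, crs2]
  ring

theorem dt_self_eq_zero {v : Fin 3 → ℤ} (h : dt v v = 0) (i : Fin 3) : v i = 0 := by
  unfold dt at h
  have h0 := mul_self_nonneg (v 0)
  have h1 := mul_self_nonneg (v 1)
  have h2 := mul_self_nonneg (v 2)
  have e0 : v 0 * v 0 = 0 := by linarith
  have e1 : v 1 * v 1 = 0 := by linarith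
  have e2 : v 2 * v 2 = 0 := by linarith
  fin_cases i
  · exact mul_self_eq_zero.1 e0
  · exact mul_self_eq_zero.1 e1
  · exact mul_self_eq_zero.1 e2

/-- Parallel vectors of the same length. -/
theorem eq_or_neg {v w : Fin 3 → ℤ} (h : ∀ i, crs v w i = 0) (hn : dt v v = dt w w) :
    (∀ i, w i = v i) ∨ (∀ i, w i = - v i) := by
  have h0 := h 0
  have h1 := h 1
  have h2 := h 2
  rw [crs0] at h0
  rw [crs1] at h1
  rw [crs2] at h2
  have key : dt v w * dt v w = dt v v * dt v v := by
    have : dt v w * dt v w = dt v v * dt w w - (v 1 * w 2 - v 2 * w 1) ^ 2 -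
        (v 2 * w 0 - v 0 * w 2) ^ 2 - (v 0 * w 1 - v 1 * w 0) ^ 2 := by
      unfold dt
      ring
    rw [this, h0, h1, h2, ← hn]
    ring
  rcases mul_self_eq_mul_self_iff.1 key with h3 | h3
  · left
    intro i
    have h4 : dt (fun i => w i - v i) (fun i => w i - v i) = 0 := by
      have : dt (fun i => w i - v i) (fun i => w i - v i) = dt w w - 2 * dt v w + dt v v := by
        unfold dt
        ring
      rw [this, h3, ← hn]
      ring
    have := dt_self_eq_zero h4 i
    linarith
  · right
    intro i
    have h4 : dt (fun i => w i + v i) (fun i => w i + v i) = 0 := by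
      have : dt (fun i => w i + v i) (fun i => w i + v i) = dt w w + 2 * dt v w + dt v v := by
        unfold dt
        ring
      rw [this, h3, ← hn]
      ring
    have := dt_self_eq_zero h4 i
    linarith

theorem dt_eq (v : Fin 3 → ℤ) : dt v v = ∑ i, v i ^ 2 := by
  unfold dt
  rw [Fin.sum_univ_three]
  ring

theorem sq_of_parallel {m m' : Fin 3 → ℤ} (h : ∀ i, crs m m' i = 0) (hn : dt m m = dt m' m')
    (i : Fin 3) : m' i ^ 2 = m i ^ 2 := by
  rcases eq_or_neg h hn with h1 | h1
  · rw [h1]
  · rw [h1, neg_sq]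

/-- Values of differences. -/
theorem val_dif {a b x y N : ℤ} (hab : a ^ 2 = b ^ 2) (hx : x = 1 ∨ x = -1)
    (hy : y = 1 ∨ y = -1) : N * (a * x - b * y) = 0 ∨ N * (a * x - b * y) = ((2 * N * a).natAbs : ℕ) ∨
      N * (a * x - b * y) = -((2 * N * a).natAbs : ℕ) := by
  have h1 : a = b ∨ a = -b := sq_eq_sq_iff_eq_or_eq_neg.1 hab
  have h2 : ∀ z : ℤ, (z = 2 * N * a ∨ z = -(2 * N * a)) →
      (z = ((2 * N * a).natAbs : ℕ) ∨ z = -((2 * N * a).natAbs : ℕ)) := by
    intro z hz
    rcases hz with rfl | rfl
    · exact Int.natAbs_eq _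
    · rcases Int.natAbs_eq (2 * N * a) with h | h
      · right; exact congrArg Neg.neg h
      · left
        have := congrArg Neg.neg h
        rwa [neg_neg] at this
  rcases hx with rfl | rfl <;> rcases hy with rfl | rfl <;> rcases h1 with rfl | h1
  · left; ring
  · right; refine h2 _ (Or.inl ?_); rw [h1]; ring
  · right; refine h2 _ (Or.inl ?_); ring
  · left; rw [h1]; ring
  · right; refine h2 _ (Or.inr ?_); ring
  · left; rw [h1]; ring
  · left; ring
  · right; refine h2 _ (Or.inr ?_); rw [h1]; ring

theorem val_mul {N x : ℤ} (hx : x = 1 ∨ x = -1) :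
    N * x = 0 ∨ N * x = (N.natAbs : ℕ) ∨ N * x = -(N.natAbs : ℕ) := by
  right
  rcases hx with rfl | rfl
  · rw [mul_one]; exact Int.natAbs_eq N
  · rcases Int.natAbs_eq N with h | h
    · right; rw [mul_neg_one]; exact congrArg Neg.neg h
    · left; rw [mul_neg_one]; omega

/-- Three pairs of signs, with arbitrary coefficients: if the sum does not vanish, there is a small
combination. -/
theorem small_of_sys3 (S : Sys c f π δ) (b : Fin 3 → ℤ) (hne : ∃ g, lin f b g ≠ 0) :
    Small c (lin f b) := by
  classical
  by_contra hns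
  have hodd := S.lin_odd b
  have K : ∀ {F : G → ℤ}, InW (lin f b) F → ∀ N : ℕ, (∀ g, F g = 0 ∨ F g = N ∨ F g = -N) →
      ∀ g, F g = 0 := fun h N hv g => kill hodd hns h N hv g
  have ib : InW (lin f b) (lin f b) := InW.one _
  -- some translate is not parallel
  obtain ⟨u, hu⟩ : ∃ u, ¬ ((∀ i, vec π δ b u i = b i) ∨ (∀ i, vec π δ b u i = - b i)) := by
    by_contra hcon
    push Not at hcon
    obtain ⟨g, hg⟩ := hne
    apply hg
    refine kill_const hodd hns ib (fun u => ?_) g
    rcases (Classical.em (∀ i, vec π δ b u i = b i)) with h | h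
    · left
      intro g
      rw [S.lin_translate]
      unfold lin
      exact Finset.sum_congr rfl fun i _ => by rw [h]
    · right
      push Not at h
      have h' : ∀ i, vec π δ b u i = - b i := by
        by_contra h2
        have := hcon u
        push Not at h2
        tauto
      intro g
      rw [S.lin_translate]
      unfold lin
      rw [← Finset.sum_neg_distrib]
      exact Finset.sum_congr rfl fun i _ => by rw [h']; ring
  obtain ⟨w, hw⟩ : ∃ w, w = vec π δ b u := ⟨_, rfl⟩
  have iw : InW (lin f b) (lin f w) := by rw [hw]; exact S.lin_mem b u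
  obtain ⟨m, hm⟩ : ∃ m, m = crs b w := ⟨_, rfl⟩
  have hnw : dt b b = dt w w := by
    rw [dt_eq, dt_eq, hw, S.vec_norm]
  have hm0 : dt m m ≠ 0 := by
    intro h
    apply hu
    rw [← hw]
    exact eq_or_neg (fun i => by rw [← hm]; exact dt_self_eq_zero h i) hnw
  have hbm : dt b m = 0 := by rw [hm]; exact dt_crs b w
  have e0 : m 0 = b 1 * w 2 - b 2 * w 1 := by rw [hm]; rfl
  have e1 : m 1 = b 2 * w 0 - b 0 * w 2 := by rw [hm]; rfl
  have e2 : m 2 = b 0 * w 1 - b 1 * w 0 := by rw [hm]; rfl
  -- vectors orthogonal to `m`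
  have orth : ∀ x : Fin 3 → ℤ, dt x m = 0 → InW (lin f b) (fun g => dt m m * lin f x g) := by
    intro x hx
    refine ((ib.smul (dt b x * dt w w - dt w x * dt b w)).add
      (iw.smul (dt w x * dt b b - dt b x * dt b w))).congr fun g => ?_
    rw [lin3, lin3, lin3]
    have h1 : ∀ i, dt m m * x i = (dt b x * dt w w - dt w x * dt b w) * b i +
        (dt w x * dt b b - dt b x * dt b w) * w i + dt x m * m i := by
      intro i
      have h2 : dt m m = dt b b * dt w w - dt b w * dt b w := by
        unfold dt
        rw [e0, e1, e2]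
        ring
      unfold dt
      rw [e0, e1, e2]
      fin_cases i
      · change _ * x 0 = _ * b 0 + _ * w 0 + _ * m 0
        rw [e0]
        ring
      · change _ * x 1 = _ * b 1 + _ * w 1 + _ * m 1
        rw [e1]
        ring
      · change _ * x 2 = _ * b 2 + _ * w 2 + _ * m 2
        rw [e2]
        ring
    have a0 := h1 0
    have a1 := h1 1
    have a2 := h1 2
    rw [hx] at a0 a1 a2
    linear_combination (f 0 g) * a0 + (f 1 g) * a1 + (f 2 g) * a2
  -- all translates are orthogonal to `m`
  have hdet : ∀ v, dt (vec π δ b v) m = 0 := by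
    intro v
    obtain ⟨x, hx⟩ : ∃ x, x = vec π δ b v := ⟨_, rfl⟩
    rw [← hx]
    have ix : InW (lin f b) (lin f x) := by rw [hx]; exact S.lin_mem b v
    have h1 : InW (lin f b) (fun g => dt x m * f 0 g) := by
      refine (((ix.smul (m 0)).add (ib.smul (w 1 * x 2 - w 2 * x 1))).add
        (iw.smul (x 1 * b 2 - x 2 * b 1))).congr fun g => ?_
      rw [lin3, lin3, lin3]
      unfold dt
      rw [e0, e1, e2]
      ring
    have h2 := K h1 (dt x m).natAbs (fun g => val_mul (S.sign 0 g)) 1
    rcases mul_eq_zero.1 h2 with h | h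
    · exact h
    · exact absurd h (S.f_ne 0 1)
  -- no coordinate of `m` vanishes
  have hmi : ∀ i, m i ≠ 0 := by
    intro i hi
    have h1 : dt (Pi.single i 1) m = 0 := by
      unfold dt
      fin_cases i
      · simp only [Fin.zero_eta, Fin.isValue, Pi.single_eq_same] at hi ⊢
        rw [hi]
        simp
      · simp only [Fin.mk_one, Fin.isValue, Pi.single_eq_same] at hi ⊢
        rw [hi]
        simp
      · simp only [Fin.reduceFinMk, Fin.isValue, Pi.single_eq_same] at hi ⊢
        rw [hi]
        simp
    have h2 : ∀ g, lin f (Pi.single i 1) g = f i g := by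
      intro g
      unfold lin
      rw [Finset.sum_eq_single i]
      · simp
      · intro k _ hk
        rw [Pi.single_eq_of_ne hk, zero_mul]
      · intro h; exact absurd (Finset.mem_univ _) h
    have h3 := orth _ h1
    simp only [h2] at h3
    have h4 := K h3 (dt m m).natAbs (fun g => val_mul (S.sign i g)) 1
    rcases mul_eq_zero.1 h4 with h | h
    · exact hm0 h
    · exact S.f_ne i 1 h
  -- coordinates with equal squares
  have heq : ∀ i k, i ≠ k → m i ^ 2 = m k ^ 2 → ∀ g, m k * f i g = m i * f k g := by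
    intro i k hik hsq g
    have h2 : ∀ g, lin f (fun l => m k * (Pi.single i 1 : Fin 3 → ℤ) l -
        m i * (Pi.single k 1 : Fin 3 → ℤ) l) g = m k * f i g - m i * f k g := by
      intro g
      unfold lin
      simp only [sub_mul, mul_assoc, Finset.sum_sub_distrib, ← Finset.mul_sum]
      congr 2
      · rw [Finset.sum_eq_single i]
        · simp
        · intro l _ hl
          rw [Pi.single_eq_of_ne hl, zero_mul]
        · intro h; exact absurd (Finset.mem_univ _) h
      · rw [Finset.sum_eq_single k]
        · simp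
        · intro l _ hl
          rw [Pi.single_eq_of_ne hl, zero_mul]
        · intro h; exact absurd (Finset.mem_univ _) h
    have h1 : dt (fun l => m k * (Pi.single i 1 : Fin 3 → ℤ) l -
        m i * (Pi.single k 1 : Fin 3 → ℤ) l) m = 0 := by
      unfold dt
      fin_cases i <;> fin_cases k <;> simp <;> ring
    have h3 := orth _ h1
    simp only [h2] at h3
    have h4 := K h3 _ (fun g => val_dif hsq.symm (S.sign i g) (S.sign k g)) g
    rcases mul_eq_zero.1 h4 with h | h
    · exact absurd h hm0
    · linarith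
  -- the squares are invariant
  have hinv : ∀ g i, m (π g i) ^ 2 = m i ^ 2 := by
    intro g i
    obtain ⟨m', hm'⟩ : ∃ m', m' = crs (vec π δ b g) (vec π δ b (g * u)) := ⟨_, rfl⟩
    have h1 : ∀ k, m' (π g k) ^ 2 = m k ^ 2 := by
      intro k
      have h2 := S.mnr_act b g u k
      rw [mnr3, mnr3, ← hm', ← hw, ← hm] at h2
      linarith
    have h2 : dt m m = dt m' m' := by
      rw [dt_eq, dt_eq, ← Equiv.sum_comp (π g) (fun i => m' i ^ 2)]
      exact Finset.sum_congr rfl fun k _ => (h1 k).symm
    have h3 : ∀ k, crs m m' k = 0 := by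
      have a := hdet g
      have a' := hdet (g * u)
      have c0 : m' 0 = vec π δ b g 1 * vec π δ b (g * u) 2 - vec π δ b g 2 * vec π δ b (g * u) 1 := by
        rw [hm']; rfl
      have c1 : m' 1 = vec π δ b g 2 * vec π δ b (g * u) 0 - vec π δ b g 0 * vec π δ b (g * u) 2 := by
        rw [hm']; rfl
      have c2 : m' 2 = vec π δ b g 0 * vec π δ b (g * u) 1 - vec π δ b g 1 * vec π δ b (g * u) 0 := by
        rw [hm']; rfl
      unfold dt at a a'
      intro k
      fin_cases k
      · change crs m m' 0 = 0
        rw [crs0, c1, c2]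
        linear_combination (vec π δ b g 0) * a' - (vec π δ b (g * u) 0) * a
      · change crs m m' 1 = 0
        rw [crs1, c0, c2]
        linear_combination (vec π δ b g 1) * a' - (vec π δ b (g * u) 1) * a
      · change crs m m' 2 = 0
        rw [crs2, c0, c1]
        linear_combination (vec π δ b g 2) * a' - (vec π δ b (g * u) 2) * a
    rw [← h1 i]
    exact (sq_of_parallel h3 h2 (π g i)).symm
  obtain ⟨g0, hg0⟩ := hne
  -- an equal pair
  have pair : ∀ i j k : Fin 3, i ≠ j → i ≠ k → j ≠ k → (∀ x : Fin 3, x = i ∨ x = j ∨ x = k) →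
      (∀ F : Fin 3 → ℤ, ∑ x, F x = F i + F j + F k) → m i ^ 2 = m j ^ 2 → m i ^ 2 = m k ^ 2 ∨
        False := by
    intro i j k hij hik hjk hall hsum hsq
    left
    by_contra hk
    have hfj := heq i j hij hsq
    have hbm' : b i * m i + b j * m j + b k * m k = 0 := by
      have := hsum (fun x => b x * m x)
      rw [← this, Fin.sum_univ_three]
      exact hbm
    have hπk : ∀ g, π g k = k := by
      intro g
      rcases hall (π g k) with h | h | h
      · exfalso
        have := hinv g k
        rw [h] at this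
        exact hk this
      · exfalso
        have := hinv g k
        rw [h] at this
        exact hk (hsq.trans this)
      · exact h
    have hB : ∀ g, m i * lin f b g = b k * (m i * f k g - m k * f i g) := by
      intro g
      unfold lin
      rw [hsum]
      have := hfj g
      linear_combination (-b j) * this + (f i g) * hbm'
    -- the action on `f i`
    have hfi : ∀ v, ∃ ε : ℤ, (ε = 1 ∨ ε = -1) ∧ ∀ g, f i (g * v) = ε * f i g := by
      intro v
      rcases hall (π v i) with h | h | h
      · exact ⟨δ v i, S.dsign v i, fun g => by rw [S.act, h]⟩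
      · rcases sq_eq_sq_iff_eq_or_eq_neg.1 hsq with h1 | h1
        · refine ⟨δ v i, S.dsign v i, fun g => ?_⟩
          rw [S.act, h]
          have := hfj g
          rw [← h1] at this
          rw [mul_left_cancel₀ (hmi i) this]
        · refine ⟨- δ v i, ?_, fun g => ?_⟩
          · rcases S.dsign v i with h2 | h2 <;> rw [h2] <;> norm_num
          rw [S.act, h]
          have := hfj g
          have h3 : m j = - m i := by rw [h1]; ring
          rw [h3] at this
          have h4 : m i * f j g = m i * (- f i g) := by linear_combination -this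
          rw [mul_left_cancel₀ (hmi i) h4]
          ring
      · exfalso
        have := (π v).injective (h.trans (hπk v).symm)
        exact hik this
    apply hg0
    refine kill_const hodd hns ib (fun v => ?_) g0
    obtain ⟨ε, hε, hfv⟩ := hfi v
    have hBv : ∀ g, m i * lin f b (g * v) = b k * (m i * (δ v k * f k g) - m k * (ε * f i g)) := by
      intro g
      rw [hB, S.act v k, hπk, hfv]
    have hkk := S.dsign v k
    have same : ε = δ v k → (∀ g, lin f b (g * v) = lin f b g) ∨
        (∀ g, lin f b (g * v) = - lin f b g) := by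
      intro he
      rcases hε with h | h
      · left
        intro g
        refine mul_left_cancel₀ (hmi i) ?_
        rw [hBv, hB, ← he, h]
        ring
      · right
        intro g
        refine mul_left_cancel₀ (hmi i) ?_
        rw [hBv, mul_neg, hB, ← he, h]
        ring
    by_cases he : ε = δ v k
    · exact same he
    · exfalso
      have he' : ε = - δ v k := by
        rcases hε with h | h <;> rcases hkk with h' | h' <;> rw [h, h'] at he ⊢ <;>
          first | exact absurd rfl he | norm_num
      -- the function `f k` appears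
      have h1 : InW (lin f b) (fun g => (2 * m i * b k) * f k g) := by
        refine (((ib.smul (m i)).add ((InW.self _ v).smul (δ v k * m i)))).congr fun g => ?_
        have h2 := hBv g
        have h3 := hB g
        have h4 : δ v k * δ v k = 1 := by rcases hkk with h | h <;> rw [h] <;> norm_num
        rw [he'] at h2
        linear_combination (-1 : ℤ) * h3 - (δ v k) * h2 -
          (b k * (m i * f k g + m k * f i g)) * h4
      have h2 := K h1 _ (fun g => val_mul (S.sign k g)) 1
      rcases mul_eq_zero.1 h2 with h | h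
      · rcases mul_eq_zero.1 h with h | h
        · rcases mul_eq_zero.1 h with h | h
          · norm_num at h
          · exact hmi i h
        · apply hg0
          refine mul_left_cancel₀ (hmi i) ?_
          rw [hB, h]
          ring
      · exact S.f_ne k 1 h
  -- not all are equal
  have notall : ¬ (m 0 ^ 2 = m 1 ^ 2 ∧ m 0 ^ 2 = m 2 ^ 2) := by
    rintro ⟨h1, h2⟩
    apply hg0
    refine mul_left_cancel₀ (hmi 0) ?_
    have a1 := heq 0 1 (by decide) h1 g0
    have a2 := heq 0 2 (by decide) h2 g0
    rw [lin3, mul_zero]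
    unfold dt at hbm
    linear_combination (f 0 g0) * hbm - (b 1) * a1 - (b 2) * a2
  have n01 : m 0 ^ 2 ≠ m 1 ^ 2 := by
    intro h
    rcases pair 0 1 2 (by decide) (by decide) (by decide) (by decide)
      (fun F => Fin.sum_univ_three F) h with h' | h'
    · exact notall ⟨h, h'⟩
    · exact h'
  have n02 : m 0 ^ 2 ≠ m 2 ^ 2 := by
    intro h
    rcases pair 0 2 1 (by decide) (by decide) (by decide) (by decide)
      (fun F => by rw [Fin.sum_univ_three]; ring) h with h' | h'
    · exact notall ⟨h', h⟩
    · exact h'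
  have n12 : m 1 ^ 2 ≠ m 2 ^ 2 := by
    intro h
    rcases pair 1 2 0 (by decide) (by decide) (by decide) (by decide)
      (fun F => by rw [Fin.sum_univ_three]; ring) h with h' | h'
    · exact n01 h'.symm
    · exact h'
  -- the permutations are trivial
  have hid : ∀ g i, π g i = i := by
    intro g i
    have h1 := hinv g i
    have hd : ∀ x y : Fin 3, m x ^ 2 = m y ^ 2 → x = y := by
      intro x y hxy
      fin_cases x <;> fin_cases y <;> first | rfl | (exfalso; first | exact n01 hxy | exact n02 hxy | exact n12 hxy | exact n01 hxy.symm | exact n02 hxy.symm | exact n12 hxy.symm)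
    exact hd _ _ h1
  have hvec : ∀ i, w i = b i * δ u i := by
    intro i
    rw [hw]
    have := vec_act (π := π) (δ := δ) b u i
    rwa [hid] at this
  have hwm : dt w m = 0 := by rw [hw]; exact hdet u
  apply hu
  rw [← hw]
  unfold dt at hwm hbm
  rw [hvec 0, hvec 1, hvec 2] at hwm
  have z : ∀ i, b i * m i = 0 → b i = 0 := fun i h => (mul_eq_zero.1 h).resolve_right (hmi i)
  have fin3 : ∀ P : Fin 3 → Prop, P 0 → P 1 → P 2 → ∀ i, P i := by
    intro P h0 h1 h2 i
    fin_cases i
    · exact h0
    · exact h1
    · exact h2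
  rcases S.dsign u 0 with d0 | d0 <;> rcases S.dsign u 1 with d1 | d1 <;>
    rcases S.dsign u 2 with d2 | d2 <;> rw [d0, d1, d2] at hwm
  · left; exact fin3 _ (by rw [hvec, d0]; ring) (by rw [hvec, d1]; ring) (by rw [hvec, d2]; ring)
  · have := z 2 (by linarith)
    left; exact fin3 _ (by rw [hvec, d0]; ring) (by rw [hvec, d1]; ring) (by rw [hvec, this]; ring)
  · have := z 1 (by linarith)
    left; exact fin3 _ (by rw [hvec, d0]; ring) (by rw [hvec, this]; ring) (by rw [hvec, d2]; ring)
  · have := z 0 (by linarith)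
    right; exact fin3 _ (by rw [hvec, this]; ring) (by rw [hvec, d1]; ring) (by rw [hvec, d2]; ring)
  · have := z 0 (by linarith)
    left; exact fin3 _ (by rw [hvec, this]; ring) (by rw [hvec, d1]; ring) (by rw [hvec, d2]; ring)
  · have := z 1 (by linarith)
    right; exact fin3 _ (by rw [hvec, d0]; ring) (by rw [hvec, this]; ring) (by rw [hvec, d2]; ring)
  · have := z 2 (by linarith)
    right; exact fin3 _ (by rw [hvec, d0]; ring) (by rw [hvec, d1]; ring) (by rw [hvec, this]; ring)
  · right; exact fin3 _ (by rw [hvec, d0]; ring) (by rw [hvec, d1]; ring) (by rw [hvec, d2]; ring)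

end Three3

end Pool.Agent.H86.CM5
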