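import Pool.Agent.H86.CM5.Five

/-!
# Five pairs: the missing index has two conjugates
-/

set_option autoImplicit false
set_option linter.unusedSectionVars false

namespace Pool.Agent.H86.CM5

open Pool.Agent.W537.PC

section Two

variable {G : Type} [Group G] [Fintype G] {c : G} {f : Fin 5 → G → ℤ}
  {π : G → Equiv.Perm (Fin 5)} {δ : G → Fin 5 → ℤ}

/-- `i, j, k, a, 4` are all the indices. -/
structure Labels (i j k a : Fin 5) : Prop where
  sum : ∀ F : Fin 5 → ℤ, ∑ x, F x = F i + F j + F k + F a + F 4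
  all : ∀ x : Fin 5, x = i ∨ x = j ∨ x = k ∨ x = a ∨ x = 4
  i4 : i ≠ 4
  j4 : j ≠ 4
  k4 : k ≠ 4
  a4 : a ≠ 4
  ia : i ≠ a
  ja : j ≠ a
  ka : k ≠ a
  ij : i ≠ j
  ik : i ≠ k
  jk : j ≠ k

namespace Bad

variable (S : Bad c f π δ)
include S

theorem B_eq {i j k a : Fin 5} (L : Labels i j k a) (g : G) :
    B5 f g = f i g + f j g + f k g + f a g := by
  unfold B5
  rw [L.sum]
  unfold b5
  rw [if_neg L.i4, if_neg L.j4, if_neg L.k4, if_neg L.a4, if_pos rfl]
  ring

/-- The translate with the missing index `a`. -/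
theorem Ba_eq {i j k a : Fin 5} (L : Labels i j k a) {u : G} (hu : π u 4 = a) (g : G) :
    B5 f (g * u) = V π δ u i * f i g + V π δ u j * f j g + V π δ u k * f k g +
      V π δ u 4 * f 4 g := by
  rw [S.trans, L.sum, S.Vzero' hu]
  ring

theorem two_cases {i j k a : Fin 5} (L : Labels i j k a) {u : G} (hu : π u 4 = a)
    (hO : ∀ v, π v 4 = 4 ∨ π v 4 = a) (v : G) :
    ∃ α : ℤ, (α = 1 ∨ α = -1) ∧
      ((∀ g, B5 f (g * v) = α * B5 f g ∧ B5 f (g * v * u) = α * B5 f (g * u)) ∨
        (∀ g, B5 f (g * v) = α * B5 f (g * u) ∧ B5 f (g * v * u) = α * B5 f g)) := by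
  -- the sum of three signs
  have hS : V π δ u i + V π δ u j + V π δ u k ≠ 0 := by
    have h1 := S.Vsign' hu L.ia
    have h2 := S.Vsign' hu L.ja
    have h3 := S.Vsign' hu L.ka
    omega
  have hsum : V π δ u (π v i) + V π δ u (π v j) + V π δ u (π v k) + V π δ u (π v a) +
      V π δ u (π v 4) = V π δ u i + V π δ u j + V π δ u k + V π δ u a + V π δ u 4 := by
    rw [← L.sum (fun x => V π δ u (π v x)), Equiv.sum_comp (π v) (fun x => V π δ u x), L.sum]
  have ha := S.Vzero' hu
  rcases hO v with hv | hv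
  · -- the indices `4` and `a` are fixed
    have hva : π v a = a := by
      have h1 : π (v * u) 4 = π v a := by rw [S.mul, hu]
      rcases hO (v * u) with h2 | h2
      · exfalso
        rw [h1, ← hv] at h2
        exact L.a4 ((π v).injective h2)
      · rw [← h1, h2]
    have hne : ∀ x, x ≠ 4 → π v x ≠ 4 := fun x hx h => hx ((π v).injective (h.trans hv.symm))
    obtain ⟨α, hα, hV⟩ : ∃ α : ℤ, (α = 1 ∨ α = -1) ∧ ∀ y, V π δ v y = α * b5 y := by
      rcases S.same (u := v) (u' := 1) (by rw [hv, S.one]) with h1 | h1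
      · exact ⟨1, Or.inl rfl, fun y => by rw [h1, S.Vone]; ring⟩
      · exact ⟨-1, Or.inr rfl, fun y => by rw [h1, S.Vone]; ring⟩
    obtain ⟨β, hβ, hW⟩ : ∃ β : ℤ, (β = 1 ∨ β = -1) ∧ ∀ y, V π δ (v * u) y = β * V π δ u y := by
      rcases S.same (u := v * u) (u' := u) (by rw [S.mul, hu, hva]) with h1 | h1
      · exact ⟨1, Or.inl rfl, fun y => by rw [h1]; ring⟩
      · exact ⟨-1, Or.inr rfl, fun y => by rw [h1]; ring⟩
    have hδ : ∀ x, x ≠ 4 → δ v x = α := by
      intro x hx
      have h1 := S.Vact v x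
      rw [hV] at h1
      unfold b5 at h1
      rw [if_neg hx, if_neg (hne x hx), one_mul, mul_one] at h1
      exact h1.symm
    have hm : ∀ x, x ≠ 4 → β * V π δ u (π v x) = α * V π δ u x := by
      intro x hx
      rw [← hW, S.Vmul, hδ x hx]
    have hαβ : α = β := by
      have h1 := hm i L.i4
      have h2 := hm j L.j4
      have h3 := hm k L.k4
      rw [hva, hv, ha] at hsum
      have h4 : (α - β) * (V π δ u i + V π δ u j + V π δ u k) = 0 := by
        linear_combination (-1 : ℤ) * h1 - h2 - h3 + β * hsum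
      rcases mul_eq_zero.1 h4 with h5 | h5
      · omega
      · exact absurd h5 hS
    refine ⟨α, hα, Or.inl fun g => ⟨?_, ?_⟩⟩
    · rw [S.trans]
      unfold B5
      rw [Finset.mul_sum]
      exact Finset.sum_congr rfl fun y _ => by rw [hV]; ring
    · rw [mul_assoc, S.trans, S.trans, Finset.mul_sum]
      exact Finset.sum_congr rfl fun y _ => by rw [hW, hαβ]; ring
  · -- the indices `4` and `a` are exchanged
    have hva : π v a = 4 := by
      have h1 : π (v * u) 4 = π v a := by rw [S.mul, hu]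
      rcases hO (v * u) with h2 | h2
      · rw [← h1, h2]
      · exfalso
        exact L.a4 ((π v).injective (h1.symm.trans (h2.trans hv.symm)))
    have hne : ∀ x, x ≠ a → π v x ≠ 4 := fun x hx h => hx ((π v).injective (h.trans hva.symm))
    obtain ⟨α, hα, hV⟩ : ∃ α : ℤ, (α = 1 ∨ α = -1) ∧ ∀ y, V π δ v y = α * V π δ u y := by
      rcases S.same (u := v) (u' := u) (by rw [hv, hu]) with h1 | h1
      · exact ⟨1, Or.inl rfl, fun y => by rw [h1]; ring⟩
      · exact ⟨-1, Or.inr rfl, fun y => by rw [h1]; ring⟩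
    obtain ⟨β, hβ, hW⟩ : ∃ β : ℤ, (β = 1 ∨ β = -1) ∧ ∀ y, V π δ (v * u) y = β * b5 y := by
      rcases S.same (u := v * u) (u' := 1) (by rw [S.mul, hu, hva, S.one]) with h1 | h1
      · exact ⟨1, Or.inl rfl, fun y => by rw [h1, S.Vone]; ring⟩
      · exact ⟨-1, Or.inr rfl, fun y => by rw [h1, S.Vone]; ring⟩
    have hm : ∀ x, x ≠ 4 → x ≠ a → V π δ u (π v x) = α * β * V π δ u x := by
      intro x hx hxa
      have h1 : δ v x = α * V π δ u (π v x) := by
        have h2 := S.Vact v x
        rw [hV] at h2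
        unfold b5 at h2
        rw [if_neg hx, one_mul] at h2
        exact h2.symm
      have h2 := S.Vmul v u x
      rw [hW] at h2
      unfold b5 at h2
      rw [if_neg (hne x hxa), mul_one, h1] at h2
      have hα2 : α * α = 1 := by rcases hα with rfl | rfl <;> norm_num
      have hx2 : V π δ u x * V π δ u x = 1 := by
        rcases S.Vsign' hu hxa with h3 | h3 <;> rw [h3] <;> norm_num
      linear_combination (-(α * V π δ u x)) * h2 -
        V π δ u (π v x) * (V π δ u x * V π δ u x) * hα2 - V π δ u (π v x) * hx2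
    have hαβ : α * β = 1 := by
      have h1 := hm i L.i4 L.ia
      have h2 := hm j L.j4 L.ja
      have h3 := hm k L.k4 L.ka
      rw [hva, hv, ha] at hsum
      have h4 : (1 - α * β) * (V π δ u i + V π δ u j + V π δ u k) = 0 := by
        linear_combination h1 + h2 + h3 - hsum
      rcases mul_eq_zero.1 h4 with h5 | h5
      · linarith
      · exact absurd h5 hS
    have hαβ' : α = β := by
      rcases hα with rfl | rfl <;> rcases hβ with rfl | rfl <;> omega
    refine ⟨α, hα, Or.inr fun g => ⟨?_, ?_⟩⟩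
    · rw [S.trans, S.trans, Finset.mul_sum]
      exact Finset.sum_congr rfl fun y _ => by rw [hV]; ring
    · rw [mul_assoc, S.trans]
      unfold B5
      rw [Finset.mul_sum]
      exact Finset.sum_congr rfl fun y _ => by rw [hW, hαβ']; ring

/-- The index `4` has two conjugates: impossible. -/
theorem two {i j k a : Fin 5} (L : Labels i j k a) {u : G} (hu : π u 4 = a)
    (hO : ∀ v, π v 4 = 4 ∨ π v 4 = a) : False := by
  -- `P = B - w B^u` and `Q = B + w B^u`
  have key : ∀ w : ℤ, (w = 1 ∨ w = -1) → ∀ v,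
      (∀ g, (B5 f (g * v) + w * B5 f (g * v * u)) = B5 f g + w * B5 f (g * u)) ∨
      (∀ g, (B5 f (g * v) + w * B5 f (g * v * u)) = - (B5 f g + w * B5 f (g * u))) := by
    intro w hw v
    obtain ⟨α, hα, h | h⟩ := S.two_cases L hu hO v
    · rcases hα with rfl | rfl
      · left
        intro g
        rw [(h g).1, (h g).2]
        ring
      · right
        intro g
        rw [(h g).1, (h g).2]
        ring
    · rcases hα with rfl | rfl <;> rcases hw with rfl | rfl
      · left
        intro g
        rw [(h g).1, (h g).2]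
        ring
      · right
        intro g
        rw [(h g).1, (h g).2]
        ring
      · right
        intro g
        rw [(h g).1, (h g).2]
        ring
      · left
        intro g
        rw [(h g).1, (h g).2]
        ring
  have hz : ∀ w : ℤ, (w = 1 ∨ w = -1) → ∀ g, B5 f g + w * B5 f (g * u) = 0 := by
    intro w hw
    exact S.kilc (F := fun g => B5 f g + w * B5 f (g * u))
      ((InW.one _).add ((InW.self _ u).smul w)) (key w hw)
  obtain ⟨g, hg⟩ := S.ne
  have h1 := hz 1 (Or.inl rfl) g
  have h2 := hz (-1) (Or.inr rfl) g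
  apply hg
  linarith

end Bad

end Two

end Pool.Agent.H86.CM5
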